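import Mathlib

/-!
Three variables: a function on pairs (monomial of the ideal, standard monomial) obeying the
rules of a homomorphism and vanishing on four explicit families vanishes.
The standard monomials are `x_1^a x_2^j x_3^t` with `t < h a j`.
-/

namespace Pool.Agent.MP_74475a_ag.N3

/-- the rules of a homomorphism in coordinates -/
structure R3 (h : ℕ → ℕ → ℕ) (c : ℕ → ℕ → ℕ → ℕ → ℕ → ℕ → ℂ) : Prop where
  add1 : ∀ a j t a' j' t', h a j ≤ t → t' < h (a' + 1) j' →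
    c (a + 1) j t (a' + 1) j' t' = c a j t a' j' t'
  add2 : ∀ a j t a' j' t', h a j ≤ t → t' < h a' (j' + 1) →
    c a (j + 1) t a' (j' + 1) t' = c a j t a' j' t'
  add3 : ∀ a j t a' j' t', h a j ≤ t → t' + 1 < h a' j' →
    c a j (t + 1) a' j' (t' + 1) = c a j t a' j' t'
  zero1 : ∀ a j t j' t', h a j ≤ t → t' < h 0 j' → c (a + 1) j t 0 j' t' = 0
  zero2 : ∀ a j t a' t', h a j ≤ t → t' < h a' 0 → c a (j + 1) t a' 0 t' = 0
  zero3 : ∀ a j t a' j', h a j ≤ t → 0 < h a' j' → c a j (t + 1) a' j' 0 = 0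

variable {h : ℕ → ℕ → ℕ} {c : ℕ → ℕ → ℕ → ℕ → ℕ → ℕ → ℂ}

theorem R3.add3n (hR : R3 h c) (a j t a' j' t' n : ℕ) (h1 : h a j ≤ t) (h2 : t' + n < h a' j') :
    c a j (t + n) a' j' (t' + n) = c a j t a' j' t' := by
  induction n with
  | zero => rfl
  | succ n ih =>
    rw [← add_assoc, ← add_assoc, hR.add3 _ _ _ _ _ _ (by omega) (by omega), ih (by omega)]

/-- step down `n` times in the last direction -/
theorem R3.down3 (hR : R3 h c) (a j t a' j' t' n : ℕ) (h1 : h a j + n ≤ t) (h2 : t' < h a' j')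
    (H : n ≤ t' → c a j (t - n) a' j' (t' - n) = 0) : c a j t a' j' t' = 0 := by
  rcases Nat.lt_or_ge t' n with hn | hn
  · have h3 := hR.add3n a j (t - t') a' j' 0 t' (by omega) (by omega)
    rw [Nat.sub_add_cancel (by omega), Nat.zero_add] at h3
    rw [h3]
    have h4 := hR.zero3 a j (t - t' - 1) a' j' (by omega) (by omega)
    have h5 : t - t' - 1 + 1 = t - t' := by omega
    rwa [h5] at h4
  · have h3 := hR.add3n a j (t - n) a' j' (t' - n) n (by omega) (by omega)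
    rw [Nat.sub_add_cancel (by omega), Nat.sub_add_cancel hn] at h3
    rw [h3]
    exact H hn

theorem R3.down2 (hR : R3 h c) (a j t a' j' t' : ℕ) (h1 : h a j ≤ t) (h2 : t' < h a' j')
    (H : ∀ k, j' = k + 1 → c a j t a' k t' = 0) : c a (j + 1) t a' j' t' = 0 := by
  rcases j' with _ | k
  · exact hR.zero2 a j t a' t' h1 h2
  · rw [hR.add2 a j t a' k t' h1 h2]
    exact H k rfl

theorem R3.down1 (hR : R3 h c) (a j t a' j' t' : ℕ) (h1 : h a j ≤ t) (h2 : t' < h a' j')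
    (H : ∀ k, a' = k + 1 → c a j t k j' t' = 0) : c (a + 1) j t a' j' t' = 0 := by
  rcases a' with _ | k
  · exact hR.zero1 a j t j' t' h1 h2
  · rw [hR.add1 a j t k j' t' h1 h2]
    exact H k rfl

theorem van1 (hR : R3 h c) (hm1 : ∀ a j, h (a + 1) j ≤ h a j) (hm2 : ∀ a j, h a (j + 1) ≤ h a j)
    (B : ℕ) (hB : ∀ a j, B ≤ j → h a j = 0)
    (hF : ∀ c' j a j2 t, a ≤ c' → j ≤ j2 → t < h a j2 → h a (j2 + 1) ≤ t →
      h a j2 ≤ t + (h c' j - h (c' + 1) j) → c (c' + 1) j (h (c' + 1) j) a j2 t = 0)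
    (u1 u2 u3 v1 v2 v3 : ℕ) (hu : h u1 u2 ≤ u3) (hv : v3 < h v1 v2) (h1 : v1 < u1)
    (h2 : u2 ≤ v2) : c u1 u2 u3 v1 v2 v3 = 0 := by
  have hv2 : v2 < B := by
    by_contra hcon
    rw [hB v1 v2 (not_lt.mp hcon)] at hv
    omega
  rcases Nat.lt_or_ge (h u1 u2) u3 with h3 | h3
  · -- step down in direction 3
    apply hR.down3 u1 u2 u3 v1 v2 v3 1 (by omega) hv
    intro h4
    exact van1 hR hm1 hm2 B hB hF u1 u2 (u3 - 1) v1 v2 (v3 - 1) (by omega) (by omega) h1 h2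
  · have h4 : u3 = h u1 u2 := by omega
    subst h4
    rcases Nat.lt_or_ge v3 (h v1 (v2 + 1)) with h5 | h5
    · rw [← hR.add2 u1 u2 _ v1 v2 v3 hu h5]
      exact van1 hR hm1 hm2 B hB hF u1 (u2 + 1) (h u1 u2) v1 (v2 + 1) v3 (hm2 _ _) h5 h1
        (by omega)
    · obtain ⟨c', rfl⟩ : ∃ c', u1 = c' + 1 := ⟨u1 - 1, by omega⟩
      rcases Nat.lt_or_ge (v3 + (h c' u2 - h (c' + 1) u2)) (h v1 v2) with h6 | h6
      · rw [← hR.add3n (c' + 1) u2 _ v1 v2 v3 (h c' u2 - h (c' + 1) u2) hu h6]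
        have h7 : h (c' + 1) u2 + (h c' u2 - h (c' + 1) u2) = h c' u2 := by
          have := hm1 c' u2
          omega
        rw [h7]
        apply hR.down1 c' u2 (h c' u2) v1 v2 _ le_rfl h6
        intro k hk
        subst hk
        exact van1 hR hm1 hm2 B hB hF c' u2 (h c' u2) k v2 _ le_rfl
          (lt_of_lt_of_le h6 (hm1 _ _)) (by omega) h2
      · exact hF c' u2 v1 v2 v3 (by omega) h2 hv h5 h6
termination_by (u1, B - v2, u3)
decreasing_by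
  · right
    omega
  · right
    left
    omega
  · left
    omega

theorem van2 (hR : R3 h c) (hm1 : ∀ a j, h (a + 1) j ≤ h a j) (hm2 : ∀ a j, h a (j + 1) ≤ h a j)
    (hF : ∀ c' a j' j2 t, a < c' → j2 ≤ j' → t < h a j2 →
      h a j2 ≤ t + (h c' j' - h c' (j' + 1)) → c c' (j' + 1) (h c' (j' + 1)) a j2 t = 0)
    (u1 u2 u3 v1 v2 v3 : ℕ) (hu : h u1 u2 ≤ u3) (hv : v3 < h v1 v2) (h1 : v1 < u1)
    (h2 : v2 < u2) : c u1 u2 u3 v1 v2 v3 = 0 := by
  rcases Nat.lt_or_ge (h u1 u2) u3 with h3 | h3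
  · apply hR.down3 u1 u2 u3 v1 v2 v3 1 (by omega) hv
    intro h4
    exact van2 hR hm1 hm2 hF u1 u2 (u3 - 1) v1 v2 (v3 - 1) (by omega) (by omega) h1 h2
  · have h4 : u3 = h u1 u2 := by omega
    subst h4
    obtain ⟨j', rfl⟩ : ∃ j', u2 = j' + 1 := ⟨u2 - 1, by omega⟩
    rcases Nat.lt_or_ge (v3 + (h u1 j' - h u1 (j' + 1))) (h v1 v2) with h6 | h6
    · rw [← hR.add3n u1 (j' + 1) _ v1 v2 v3 (h u1 j' - h u1 (j' + 1)) hu h6]
      have h7 : h u1 (j' + 1) + (h u1 j' - h u1 (j' + 1)) = h u1 j' := by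
        have := hm2 u1 j'
        omega
      rw [h7]
      apply hR.down2 u1 j' (h u1 j') v1 v2 _ le_rfl h6
      intro k hk
      subst hk
      exact van2 hR hm1 hm2 hF u1 j' (h u1 j') v1 k _ le_rfl
        (lt_of_lt_of_le h6 (hm2 _ _)) h1 (by omega)
    · exact hF u1 v1 j' v2 v3 h1 (by omega) hv h6
termination_by (u2, u3)
decreasing_by
  · omega
  · omega

theorem van3 (hR : R3 h c) (hm1 : ∀ a j, h (a + 1) j ≤ h a j) (hm2 : ∀ a j, h a (j + 1) ≤ h a j)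
    (B : ℕ) (hB : ∀ a j, B ≤ j → h a j = 0)
    (hF : ∀ c' a j2 j t, a ≤ c' → j ≤ j2 → 0 < h c' j2 → h a j ≤ t →
      t < h a j + (h c' j2 - h c' (j2 + 1)) → c a j t c' j2 (h c' j2 - 1) = 0)
    (u1 u2 u3 v1 v2 v3 : ℕ) (hu : h u1 u2 ≤ u3) (hv : v3 < h v1 v2) (h1 : u1 ≤ v1)
    (h2 : u2 ≤ v2) : c u1 u2 u3 v1 v2 v3 = 0 := by
  have hv2 : v2 < B := by
    by_contra hcon
    rw [hB v1 v2 (not_lt.mp hcon)] at hv
    omega
  rcases Nat.lt_or_ge (v3 + 1) (h v1 v2) with h3 | h3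
  · rw [← hR.add3 u1 u2 u3 v1 v2 v3 hu h3]
    exact van3 hR hm1 hm2 B hB hF u1 u2 (u3 + 1) v1 v2 (v3 + 1) (by omega) h3 h1 h2
  · have h4 : v3 = h v1 v2 - 1 := by omega
    rcases Nat.lt_or_ge u3 (h u1 u2 + (h v1 v2 - h v1 (v2 + 1))) with h5 | h5
    · rw [h4]
      exact hF v1 u1 v2 u2 u3 h1 h2 (by omega) hu h5
    · apply hR.down3 u1 u2 u3 v1 v2 v3 (h v1 v2 - h v1 (v2 + 1)) h5 hv
      intro h6
      have h7 := hm2 v1 v2
      have h8 : v3 - (h v1 v2 - h v1 (v2 + 1)) < h v1 (v2 + 1) := by omega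
      rw [← hR.add2 u1 u2 _ v1 v2 _ (by omega) h8]
      have h9 := hm2 u1 u2
      exact van3 hR hm1 hm2 B hB hF u1 (u2 + 1) _ v1 (v2 + 1) _ (by omega) h8 h1 (by omega)
termination_by (B - v2, h v1 v2 - v3)
decreasing_by
  · omega
  · left
    omega

theorem van4 (hR : R3 h c) (hm1 : ∀ a j, h (a + 1) j ≤ h a j) (hm2 : ∀ a j, h a (j + 1) ≤ h a j)
    (m : ℕ) (hm : ∀ a j, m ≤ a → h a j = 0)
    (hF : ∀ c' a j' j2 t, a ≤ c' → j2 ≤ j' → t < h c' j2 → h (c' + 1) j2 ≤ t →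
      h c' j2 ≤ t + (h a j' - h a (j' + 1)) → c a (j' + 1) (h a (j' + 1)) c' j2 t = 0)
    (u1 u2 u3 v1 v2 v3 : ℕ) (hu : h u1 u2 ≤ u3) (hv : v3 < h v1 v2) (h1 : u1 ≤ v1)
    (h2 : v2 < u2) : c u1 u2 u3 v1 v2 v3 = 0 := by
  have hv1 : v1 < m := by
    by_contra hcon
    rw [hm v1 v2 (not_lt.mp hcon)] at hv
    omega
  rcases Nat.lt_or_ge (h u1 u2) u3 with h3 | h3
  · apply hR.down3 u1 u2 u3 v1 v2 v3 1 (by omega) hv
    intro h4
    exact van4 hR hm1 hm2 m hm hF u1 u2 (u3 - 1) v1 v2 (v3 - 1) (by omega) (by omega) h1 h2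
  · have h4 : u3 = h u1 u2 := by omega
    subst h4
    rcases Nat.lt_or_ge v3 (h (v1 + 1) v2) with h5 | h5
    · rw [← hR.add1 u1 u2 _ v1 v2 v3 hu h5]
      exact van4 hR hm1 hm2 m hm hF (u1 + 1) u2 _ (v1 + 1) v2 v3 (hm1 _ _) h5 (by omega) h2
    · obtain ⟨j', rfl⟩ : ∃ j', u2 = j' + 1 := ⟨u2 - 1, by omega⟩
      rcases Nat.lt_or_ge (v3 + (h u1 j' - h u1 (j' + 1))) (h v1 v2) with h6 | h6
      · rw [← hR.add3n u1 (j' + 1) _ v1 v2 v3 (h u1 j' - h u1 (j' + 1)) hu h6]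
        have h7 : h u1 (j' + 1) + (h u1 j' - h u1 (j' + 1)) = h u1 j' := by
          have := hm2 u1 j'
          omega
        rw [h7]
        apply hR.down2 u1 j' (h u1 j') v1 v2 _ le_rfl h6
        intro k hk
        subst hk
        exact van4 hR hm1 hm2 m hm hF u1 j' (h u1 j') v1 k _ le_rfl
          (lt_of_lt_of_le h6 (hm2 _ _)) h1 (by omega)
      · exact hF v1 u1 j' v2 v3 h1 (by omega) hv h5 h6
termination_by (m - v1, u2, u3)
decreasing_by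
  · exact Prod.Lex.right _ (Prod.Lex.right _ (by omega))
  · exact Prod.Lex.left _ _ (by omega)
  · exact Prod.Lex.right _ (Prod.Lex.left _ _ (by omega))

end Pool.Agent.MP_74475a_ag.N3
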