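import Mathlib
import Pool.Agent.MP_74475a_ag.N3.Van3
import Pool.Agent.MP_74475a_ag.Bridge

/-!
Three variables: upper bound for the tangent dimension in terms of the height array.
-/

namespace Pool.Agent.MP_74475a_ag.N3

open MvPolynomial Finset

/-- the exponent vector `(a, j, t)` -/
noncomputable def v3 (a j t : ℕ) : Fin 3 →₀ ℕ :=
  Finsupp.single 0 a + Finsupp.single 1 j + Finsupp.single 2 t

theorem v3_0 (a j t : ℕ) : v3 a j t 0 = a := by simp [v3]
theorem v3_1 (a j t : ℕ) : v3 a j t 1 = j := by simp [v3]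
theorem v3_2 (a j t : ℕ) : v3 a j t 2 = t := by simp [v3]

theorem eq_v3 (g : Fin 3 →₀ ℕ) : g = v3 (g 0) (g 1) (g 2) := by
  ext i
  fin_cases i
  · exact (v3_0 _ _ _).symm
  · exact (v3_1 _ _ _).symm
  · exact (v3_2 _ _ _).symm

theorem v3_inj {a j t a' j' t' : ℕ} (h : v3 a j t = v3 a' j' t') : a = a' ∧ j = j' ∧ t = t' := by
  have h0 := DFunLike.congr_fun h 0
  have h1 := DFunLike.congr_fun h 1
  have h2 := DFunLike.congr_fun h 2
  rw [v3_0, v3_0] at h0
  rw [v3_1, v3_1] at h1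
  rw [v3_2, v3_2] at h2
  exact ⟨h0, h1, h2⟩

theorem v3_add0 (a j t : ℕ) : v3 a j t + Finsupp.single 0 1 = v3 (a + 1) j t := by
  rw [eq_v3 (v3 a j t + Finsupp.single 0 1)]
  simp [v3]

theorem v3_add1 (a j t : ℕ) : v3 a j t + Finsupp.single 1 1 = v3 a (j + 1) t := by
  rw [eq_v3 (v3 a j t + Finsupp.single 1 1)]
  simp [v3]

theorem v3_add2 (a j t : ℕ) : v3 a j t + Finsupp.single 2 1 = v3 a j (t + 1) := by
  rw [eq_v3 (v3 a j t + Finsupp.single 2 1)]
  simp [v3]

theorem v3_le {a j t a' j' t' : ℕ} (h0 : a ≤ a') (h1 : j ≤ j') (h2 : t ≤ t') :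
    v3 a j t ≤ v3 a' j' t' := by
  intro i
  fin_cases i
  · show v3 a j t 0 ≤ v3 a' j' t' 0
    rw [v3_0, v3_0]; exact h0
  · show v3 a j t 1 ≤ v3 a' j' t' 1
    rw [v3_1, v3_1]; exact h1
  · show v3 a j t 2 ≤ v3 a' j' t' 2
    rw [v3_2, v3_2]; exact h2

/-- height array of a Borel set with `m` levels -/
structure Arr (m : ℕ) (h : ℕ → ℕ → ℕ) : Prop where
  e1 : ∀ a j, h (a + 1) j ≤ h a (j + 1)
  e2 : ∀ a j, h a (j + 1) ≤ h a j - 1
  z : ∀ a j, m ≤ a → h a j = 0
  p : ∀ a, a < m → 0 < h a 0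

variable {m : ℕ} {h : ℕ → ℕ → ℕ}

theorem Arr.m2 (H : Arr m h) (a j : ℕ) : h a (j + 1) ≤ h a j := by
  have := H.e2 a j
  omega

theorem Arr.m1 (H : Arr m h) (a j : ℕ) : h (a + 1) j ≤ h a j - 1 :=
  (H.e1 a j).trans (H.e2 a j)

theorem Arr.m1' (H : Arr m h) (a j : ℕ) : h (a + 1) j ≤ h a j := by
  have := H.m1 a j
  omega

theorem Arr.le_sub2 (H : Arr m h) (a j : ℕ) : h a j ≤ h a 0 - j := by
  induction j with
  | zero => omega
  | succ j ih =>
    have := H.e2 a j
    omega

theorem Arr.le_sub1 (H : Arr m h) (a : ℕ) : h a 0 ≤ h 0 0 - a := by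
  induction a with
  | zero => omega
  | succ a ih =>
    have := H.m1 a 0
    omega

theorem Arr.zB (H : Arr m h) (a j : ℕ) (hj : h 0 0 ≤ j) : h a j = 0 := by
  have h1 := H.le_sub2 a j
  have h2 := H.le_sub1 a
  omega

theorem mem_iff_lt_card {T : Finset ℕ} (hT : ∀ a b, a ≤ b → b ∈ T → a ∈ T) (t : ℕ) :
    t ∈ T ↔ t < T.card := by
  obtain ⟨n, hn⟩ := Infinite.exists_notMem_finset T
  classical
  have hex : ∃ n, n ∉ T := ⟨n, hn⟩
  have h1 : T = range (Nat.find hex) := by
    ext t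
    rw [mem_range]
    constructor
    · intro ht
      by_contra hcon
      exact Nat.find_spec hex (hT _ _ (not_lt.mp hcon) ht)
    · intro ht
      by_contra hcon
      exact Nat.find_min hex ht hcon
  have h2 : T.card = Nat.find hex := by
    conv_lhs => rw [h1]
    rw [card_range]
  rw [h2]
  conv_lhs => rw [h1]
  rw [mem_range]

theorem exists_arr {I : Ideal (Poly 3)} (hB : BorelFixed I) {l : ℕ} (hl : HasColength I l) :
    ∃ h : ℕ → ℕ → ℕ, Arr (mOne I) h ∧ (∀ a j t, v3 a j t ∈ std I ↔ t < h a j) ∧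
      l = ∑ a ∈ range (mOne I), ∑ j ∈ range (h 0 0), h a j := by
  classical
  have hmon := monomialIdeal_of_borelFixed hB
  have hex := borelExch_of_borelFixed hB
  obtain ⟨S, hS, hcard⟩ := (hasColength_iff hmon _).mp hl
  have hmem : ∀ x, x ∈ std I ↔ x ∈ S := by
    intro x
    rw [← hS]
    exact Finset.mem_coe
  let h : ℕ → ℕ → ℕ := fun a j => (S.filter fun s => s 0 = a ∧ s 1 = j).card
  have hfib : ∀ a j, ((S.filter fun s => s 0 = a ∧ s 1 = j).image fun s => s 2).card = h a j := by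
    intro a j
    apply card_image_of_injOn
    intro x hx y hy hxy
    rw [mem_coe, mem_filter] at hx hy
    rw [eq_v3 x, eq_v3 y, hx.2.1, hx.2.2, hy.2.1, hy.2.2]
    congr 1
  have hiff : ∀ a j t, v3 a j t ∈ std I ↔ t < h a j := by
    intro a j t
    rw [← hfib, ← mem_iff_lt_card, mem_image]
    · constructor
      · intro ht
        refine ⟨v3 a j t, ?_, v3_2 _ _ _⟩
        rw [mem_filter, v3_0, v3_1]
        exact ⟨(hmem _).mp ht, rfl, rfl⟩
      · rintro ⟨s, hs, rfl⟩
        rw [mem_filter] at hs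
        rw [hmem, ← hs.2.1, ← hs.2.2, ← eq_v3]
        exact hs.1
    · intro x y hxy hy
      rw [mem_image] at hy ⊢
      obtain ⟨s, hs, rfl⟩ := hy
      rw [mem_filter] at hs
      refine ⟨v3 a j x, ?_, v3_2 _ _ _⟩
      rw [mem_filter, v3_0, v3_1]
      refine ⟨?_, rfl, rfl⟩
      rw [← hmem]
      apply std_down I _ ((hmem _).mpr hs.1)
      rw [eq_v3 s, hs.2.1, hs.2.2]
      exact v3_le le_rfl le_rfl hxy
  have hx1 : ∀ a j t, t < h (a + 1) j → t < h a (j + 1) := by
    intro a j t ht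
    rw [← hiff] at ht ⊢
    intro hcon
    apply ht
    rw [← v3_add1] at hcon
    rw [← v3_add0]
    exact hex _ 0 1 (by decide) hcon
  have hx2 : ∀ a j t, t < h a (j + 1) → t + 1 < h a j := by
    intro a j t ht
    rw [← hiff] at ht ⊢
    intro hcon
    apply ht
    rw [← v3_add2] at hcon
    rw [← v3_add1]
    exact hex _ 1 2 (by decide) hcon
  have harr : Arr (mOne I) h := by
    constructor
    · intro a j
      by_contra hcon
      have := hx1 a j (h a (j + 1)) (by omega)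
      omega
    · intro a j
      by_contra hcon
      have := hx2 a j (h a (j + 1) - 1) (by omega)
      omega
    · intro a j ha
      by_contra hcon
      have h1 : v3 a j 0 ∈ S := (hmem _).mp ((hiff a j 0).mpr (Nat.pos_of_ne_zero hcon))
      have h2 := lt_mOne hS (by omega : 0 < 3) _ h1
      have h3 : v3 a j 0 ⟨0, by omega⟩ = a := v3_0 a j 0
      omega
    · intro a ha
      rw [← hiff]
      rw [← single_mem_std_iff hS (by omega : 0 < 3)] at ha
      have h3 : v3 a 0 0 = Finsupp.single ⟨0, by omega⟩ a := by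
        simp [v3]
      rw [h3]
      exact ha
  refine ⟨h, harr, hiff, ?_⟩
  rw [← hcard]
  have h1 : ∀ s ∈ S, ((s 0, s 1) : ℕ × ℕ) ∈ range (mOne I) ×ˢ range (h 0 0) := by
    intro s hs
    have hs' := (hmem _).mpr hs
    rw [eq_v3 s, hiff] at hs'
    rw [mem_product, mem_range, mem_range]
    constructor
    · by_contra hcon
      rw [harr.z _ _ (not_lt.mp hcon)] at hs'
      omega
    · by_contra hcon
      rw [harr.zB _ _ (not_lt.mp hcon)] at hs'
      omega
  rw [card_eq_sum_card_fiberwise h1, sum_product]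
  refine sum_congr rfl ?_
  intro a _
  refine sum_congr rfl ?_
  intro j _
  show _ = (S.filter fun s => s 0 = a ∧ s 1 = j).card
  congr 1
  apply filter_congr
  intro s _
  exact Prod.mk.injEq _ _ _ _ ▸ Iff.rfl

/-- the rules in coordinates -/
theorem r3_of_rules {S : Set (Fin 3 →₀ ℕ)} (hiff : ∀ a j t, v3 a j t ∈ S ↔ t < h a j)
    {c : (Fin 3 →₀ ℕ) → (Fin 3 →₀ ℕ) → ℂ} (hR : Rules S c) :
    R3 h (fun a j t a' j' t' => c (v3 a j t) (v3 a' j' t')) := by
  have hn : ∀ a j t, h a j ≤ t → v3 a j t ∉ S := by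
    intro a j t ht
    rw [hiff]
    omega
  constructor
  · intro a j t a' j' t' h1 h2
    show c _ _ = c _ _
    rw [← v3_add0, ← v3_add0]
    apply hR.add _ _ _ (hn _ _ _ h1)
    rw [v3_add0, hiff]
    exact h2
  · intro a j t a' j' t' h1 h2
    show c _ _ = c _ _
    rw [← v3_add1, ← v3_add1]
    apply hR.add _ _ _ (hn _ _ _ h1)
    rw [v3_add1, hiff]
    exact h2
  · intro a j t a' j' t' h1 h2
    show c _ _ = c _ _
    rw [← v3_add2, ← v3_add2]
    apply hR.add _ _ _ (hn _ _ _ h1)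
    rw [v3_add2, hiff]
    exact h2
  · intro a j t j' t' h1 h2
    show c _ _ = 0
    rw [← v3_add0]
    exact hR.zero _ _ _ (hn _ _ _ h1) ((hiff _ _ _).mpr h2) (v3_0 _ _ _)
  · intro a j t a' t' h1 h2
    show c _ _ = 0
    rw [← v3_add1]
    exact hR.zero _ _ _ (hn _ _ _ h1) ((hiff _ _ _).mpr h2) (v3_1 _ _ _)
  · intro a j t a' j' h1 h2
    show c _ _ = 0
    rw [← v3_add2]
    exact hR.zero _ _ _ (hn _ _ _ h1) ((hiff _ _ _).mpr h2) (v3_2 _ _ _)

/-- vertical differences -/
def dd (h : ℕ → ℕ → ℕ) (a j : ℕ) : ℕ := h a j - h a (j + 1)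
/-- horizontal differences -/
def gg (h : ℕ → ℕ → ℕ) (a j : ℕ) : ℕ := h a j - h (a + 1) j

open Classical in
noncomputable def F1 (m B : ℕ) (h : ℕ → ℕ → ℕ) : Finset ((Fin 3 →₀ ℕ) × (Fin 3 →₀ ℕ)) :=
  (range m).biUnion fun c => (range (c + 1)).biUnion fun a =>
    (range B).biUnion fun j2 => (range (j2 + 1)).biUnion fun j =>
      (Ico (max (h a (j2 + 1)) (h a j2 - gg h c j)) (h a j2)).image fun t =>
        (v3 (c + 1) j (h (c + 1) j), v3 a j2 t)

open Classical in
noncomputable def F2 (m B : ℕ) (h : ℕ → ℕ → ℕ) : Finset ((Fin 3 →₀ ℕ) × (Fin 3 →₀ ℕ)) :=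
  (range m).biUnion fun c => (range c).biUnion fun a =>
    (range B).biUnion fun j' => (range (j' + 1)).biUnion fun j2 =>
      (Ico (h a j2 - dd h c j') (h a j2)).image fun t =>
        (v3 c (j' + 1) (h c (j' + 1)), v3 a j2 t)

open Classical in
noncomputable def F3 (m B : ℕ) (h : ℕ → ℕ → ℕ) : Finset ((Fin 3 →₀ ℕ) × (Fin 3 →₀ ℕ)) :=
  (range m).biUnion fun c => (range (c + 1)).biUnion fun a =>
    (range B).biUnion fun j2 => (range (j2 + 1)).biUnion fun j =>
      (Ico (h a j) (h a j + dd h c j2)).image fun t =>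
        (v3 a j t, v3 c j2 (h c j2 - 1))

open Classical in
noncomputable def F4 (m B : ℕ) (h : ℕ → ℕ → ℕ) : Finset ((Fin 3 →₀ ℕ) × (Fin 3 →₀ ℕ)) :=
  (range m).biUnion fun c => (range (c + 1)).biUnion fun a =>
    (range B).biUnion fun j' => (range (j' + 1)).biUnion fun j2 =>
      (Ico (max (h (c + 1) j2) (h c j2 - dd h a j')) (h c j2)).image fun t =>
        (v3 a (j' + 1) (h a (j' + 1)), v3 c j2 t)

/-- the quantity `R` -/
def RR (m B : ℕ) (h : ℕ → ℕ → ℕ) : ℕ :=
  ∑ c ∈ range m, ∑ a ∈ range (c + 1), ∑ j2 ∈ range B, ∑ j ∈ range (j2 + 1),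
    min (dd h a j2) (gg h c j)

theorem card_F1 (m B : ℕ) (h : ℕ → ℕ → ℕ) : (F1 m B h).card ≤ RR m B h := by
  unfold F1 RR
  refine card_biUnion_le.trans (sum_le_sum fun c _ => ?_)
  refine card_biUnion_le.trans (sum_le_sum fun a _ => ?_)
  refine card_biUnion_le.trans (sum_le_sum fun j2 _ => ?_)
  refine card_biUnion_le.trans (sum_le_sum fun j _ => ?_)
  refine card_image_le.trans ?_
  rw [Nat.card_Ico]
  unfold dd
  omega

theorem card_F4 (m B : ℕ) (h : ℕ → ℕ → ℕ) : (F4 m B h).card ≤ RR m B h := by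
  unfold F4 RR
  refine card_biUnion_le.trans (sum_le_sum fun c _ => ?_)
  refine card_biUnion_le.trans (sum_le_sum fun a _ => ?_)
  refine card_biUnion_le.trans (sum_le_sum fun j2 _ => ?_)
  refine card_biUnion_le.trans (sum_le_sum fun j _ => ?_)
  refine card_image_le.trans ?_
  rw [Nat.card_Ico]
  unfold gg
  omega

theorem sum_parts (f : ℕ → ℕ) (hf : ∀ j, f (j + 1) ≤ f j) (B : ℕ) :
    ∑ j ∈ range B, (j + 1) * (f j - f (j + 1)) + B * f B = ∑ j ∈ range B, f j := by
  induction B with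
  | zero => simp
  | succ B ih =>
    rw [sum_range_succ, sum_range_succ, ← ih]
    obtain ⟨k, hk⟩ := Nat.exists_eq_add_of_le (hf B)
    rw [hk, Nat.add_sub_cancel_left]
    ring

theorem sum_parts' (f : ℕ → ℕ) (hf : ∀ j, f (j + 1) ≤ f j) (B : ℕ) (hB : f B = 0) :
    ∑ j ∈ range B, ∑ _i ∈ range (j + 1), (f j - f (j + 1)) = ∑ j ∈ range B, f j := by
  rw [← sum_parts f hf B, hB, mul_zero, add_zero]
  refine sum_congr rfl ?_
  intro j _
  rw [sum_const, card_range, smul_eq_mul]

theorem card_F2 (H : Arr m h) :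
    (F2 m (h 0 0) h).card ≤ ∑ c ∈ range m, c * ∑ j ∈ range (h 0 0), h c j := by
  unfold F2
  refine card_biUnion_le.trans (sum_le_sum fun c _ => ?_)
  have h1 : ∀ a ∈ range c, ((range (h 0 0)).biUnion fun j' => (range (j' + 1)).biUnion fun j2 =>
      (Ico (h a j2 - dd h c j') (h a j2)).image fun t =>
        (v3 c (j' + 1) (h c (j' + 1)), v3 a j2 t)).card ≤ ∑ j ∈ range (h 0 0), h c j := by
    intro a _
    rw [← sum_parts' (h c) (H.m2 c) _ (H.zB c _ le_rfl)]
    refine card_biUnion_le.trans (sum_le_sum fun j' _ => ?_)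
    refine card_biUnion_le.trans (sum_le_sum fun j2 _ => ?_)
    refine card_image_le.trans ?_
    rw [Nat.card_Ico]
    unfold dd
    omega
  refine card_biUnion_le.trans ((sum_le_sum h1).trans ?_)
  rw [sum_const, card_range, smul_eq_mul]

theorem card_F3 (H : Arr m h) :
    (F3 m (h 0 0) h).card ≤ ∑ c ∈ range m, (c + 1) * ∑ j ∈ range (h 0 0), h c j := by
  unfold F3
  refine card_biUnion_le.trans (sum_le_sum fun c _ => ?_)
  have h1 : ∀ a ∈ range (c + 1), ((range (h 0 0)).biUnion fun j2 =>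
      (range (j2 + 1)).biUnion fun j => (Ico (h a j) (h a j + dd h c j2)).image fun t =>
        (v3 a j t, v3 c j2 (h c j2 - 1))).card ≤ ∑ j ∈ range (h 0 0), h c j := by
    intro a _
    rw [← sum_parts' (h c) (H.m2 c) _ (H.zB c _ le_rfl)]
    refine card_biUnion_le.trans (sum_le_sum fun j' _ => ?_)
    refine card_biUnion_le.trans (sum_le_sum fun j2 _ => ?_)
    refine card_image_le.trans ?_
    rw [Nat.card_Ico]
    unfold dd
    omega
  refine card_biUnion_le.trans ((sum_le_sum h1).trans ?_)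
  rw [sum_const, card_range, smul_eq_mul]

/-- upper bound for the tangent dimension -/
theorem tangent_le_RR {I : Ideal (Poly 3)} (hmon : MonomialIdeal I) (H : Arr m h)
    (hiff : ∀ a j t, v3 a j t ∈ std I ↔ t < h a j) :
    tangentDim I ≤ ∑ c ∈ range m, (2 * c + 1) * ∑ j ∈ range (h 0 0), h c j +
      2 * RR m (h 0 0) h := by
  classical
  set B := h 0 0 with hBdef
  have key := (hom_finite_and_le hmon (F1 m B h ∪ (F2 m B h ∪ (F3 m B h ∪ F4 m B h))) (by
    intro φ hφ
    have hφ1 : ∀ p ∈ F1 m B h, mcT hmon p.1 p.2 φ = 0 := fun p hp =>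
      hφ p (mem_union_left _ hp)
    have hφ2 : ∀ p ∈ F2 m B h, mcT hmon p.1 p.2 φ = 0 := fun p hp =>
      hφ p (mem_union_right _ (mem_union_left _ hp))
    have hφ3 : ∀ p ∈ F3 m B h, mcT hmon p.1 p.2 φ = 0 := fun p hp =>
      hφ p (mem_union_right _ (mem_union_right _ (mem_union_left _ hp)))
    have hφ4 : ∀ p ∈ F4 m B h, mcT hmon p.1 p.2 φ = 0 := fun p hp =>
      hφ p (mem_union_right _ (mem_union_right _ (mem_union_right _ hp)))
    have hR := r3_of_rules hiff (rules_mcT hmon φ)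
    have hjB : ∀ a j t, t < h a j → j < B := by
      intro a j t ht
      by_contra hcon
      rw [H.zB a j (not_lt.mp hcon)] at ht
      omega
    have haM : ∀ a j t, t < h a j → a < m := by
      intro a j t ht
      by_contra hcon
      rw [H.z a j (not_lt.mp hcon)] at ht
      omega
    apply hom_eq_zero hmon
    intro g s hg hs
    rw [← mcT_eq hmon hg hs]
    rw [eq_v3 g, hiff] at hg
    rw [eq_v3 s, hiff] at hs
    rw [eq_v3 g, eq_v3 s]
    generalize g 0 = u1 at *
    generalize g 1 = u2 at *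
    generalize g 2 = u3 at *
    generalize s 0 = w1 at *
    generalize s 1 = w2 at *
    generalize s 2 = w3 at *
    rcases Nat.lt_or_ge w1 u1 with h1 | h1
    · rcases Nat.lt_or_ge w2 u2 with h2 | h2
      · refine van2 hR H.m1' H.m2 ?_ u1 u2 u3 w1 w2 w3 (by omega) hs h1 h2
        intro c' a j' j2 t hac hj ht1 ht2
        apply hφ2 (v3 c' (j' + 1) (h c' (j' + 1)), v3 a j2 t)
        have hd : 0 < dd h c' j' := by
          unfold dd
          omega
        unfold dd at hd
        simp only [F2, mem_biUnion, mem_range, mem_image, mem_Ico]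
        refine ⟨c', haM c' j' 0 (by omega), a, hac, j', hjB c' j' 0 (by omega), j2, by omega,
          t, ⟨?_, ht1⟩, rfl⟩
        unfold dd
        omega
      · refine van1 hR H.m1' H.m2 B (fun a j hj => H.zB a j hj) ?_ u1 u2 u3 w1 w2 w3 (by omega)
          hs h1 h2
        intro c' j a j2 t hac hj ht1 ht2 ht3
        apply hφ1 (v3 (c' + 1) j (h (c' + 1) j), v3 a j2 t)
        simp only [F1, mem_biUnion, mem_range, mem_image, mem_Ico]
        refine ⟨c', haM c' j 0 (by omega), a, by omega, j2, hjB a j2 t ht1, j, by omega,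
          t, ⟨?_, ht1⟩, rfl⟩
        unfold gg
        omega
    · rcases Nat.lt_or_ge w2 u2 with h2 | h2
      · refine van4 hR H.m1' H.m2 m (fun a j hj => H.z a j hj) ?_ u1 u2 u3 w1 w2 w3 (by omega)
          hs h1 h2
        intro c' a j' j2 t hac hj ht1 ht2 ht3
        apply hφ4 (v3 a (j' + 1) (h a (j' + 1)), v3 c' j2 t)
        simp only [F4, mem_biUnion, mem_range, mem_image, mem_Ico]
        refine ⟨c', haM c' j2 t ht1, a, by omega, j', hjB a j' 0 (by omega), j2, by omega,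
          t, ⟨?_, ht1⟩, rfl⟩
        unfold dd
        omega
      · refine van3 hR H.m1' H.m2 B (fun a j hj => H.zB a j hj) ?_ u1 u2 u3 w1 w2 w3 (by omega)
          hs h1 h2
        intro c' a j2 j t hac hj hpos ht1 ht2
        apply hφ3 (v3 a j t, v3 c' j2 (h c' j2 - 1))
        simp only [F3, mem_biUnion, mem_range, mem_image, mem_Ico]
        refine ⟨c', haM c' j2 0 hpos, a, by omega, j2, hjB c' j2 0 hpos, j, by omega,
          t, ⟨ht1, ?_⟩, rfl⟩
        unfold dd
        omega)).2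
  refine key.trans ?_
  refine (card_union_le _ _).trans ?_
  have c1 := card_F1 m B h
  have c2 := card_F2 H
  have c3 := card_F3 H
  have c4 := card_F4 m B h
  have c5 := card_union_le (F2 m B h) (F3 m B h ∪ F4 m B h)
  have c6 := card_union_le (F3 m B h) (F4 m B h)
  rw [← hBdef] at c2 c3
  have c7 : ∑ c ∈ range m, (2 * c + 1) * ∑ j ∈ range B, h c j =
      ∑ c ∈ range m, c * ∑ j ∈ range B, h c j +
      ∑ c ∈ range m, (c + 1) * ∑ j ∈ range B, h c j := by
    rw [← sum_add_distrib]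
    refine sum_congr rfl ?_
    intro c _
    ring
  rw [c7]
  omega

end Pool.Agent.MP_74475a_ag.N3
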