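import Mathlib
import Pool.Agent.MP_74475a_ag.N3.Upper3

/-!
Three variables: the bound in terms of the numbers of columns and the excess array.
-/

namespace Pool.Agent.MP_74475a_ag.N3

open Finset

/-- sum of the entries -/
def bet (M : ℕ) (e : ℕ → ℕ) : ℕ := ∑ a ∈ range M, e a
/-- twice the sum of triangular numbers -/
def sl (M : ℕ) (e : ℕ → ℕ) : ℕ := ∑ a ∈ range M, e a * (e a + 1)
/-- weighted sum -/
def ae (M : ℕ) (e : ℕ → ℕ) : ℕ := ∑ a ∈ range M, a * e a
/-- the quadratic function `V` -/
def vv (M : ℕ) (e : ℕ → ℕ) : ℕ := bet M e * bet M e + bet M e + 2 * ae M e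

variable {m : ℕ} {h : ℕ → ℕ → ℕ}

/-- number of columns in level `a` -/
def bb (h : ℕ → ℕ → ℕ) (a : ℕ) : ℕ := ((range (h 0 0)).filter fun j => 0 < h a j).card

theorem Arr.anti2 (H : Arr m h) (a : ℕ) {j j' : ℕ} (hj : j ≤ j') : h a j' ≤ h a j :=
  antitone_nat_of_succ_le (H.m2 a) hj

theorem Arr.pos_iff (H : Arr m h) (a j : ℕ) : 0 < h a j ↔ j < bb h a := by
  unfold bb
  rw [← mem_iff_lt_card, mem_filter, mem_range]
  · constructor
    · intro h1
      refine ⟨?_, h1⟩
      by_contra hcon
      rw [H.zB a j (not_lt.mp hcon)] at h1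
      omega
    · exact fun h1 => h1.2
  · intro x y hxy hy
    rw [mem_filter, mem_range] at hy ⊢
    exact ⟨by omega, lt_of_lt_of_le hy.2 (H.anti2 a hxy)⟩

/-- the excess array -/
def eps (h : ℕ → ℕ → ℕ) (a j : ℕ) : ℕ := h a j - (bb h a - j)

theorem Arr.bb_le (H : Arr m h) (a : ℕ) : bb h a ≤ h a 0 := by
  by_contra hcon
  have h1 := (H.pos_iff a (h a 0)).mpr (by omega)
  have h2 := H.le_sub2 a (h a 0)
  omega

theorem Arr.bb_le_B (H : Arr m h) (a : ℕ) : bb h a ≤ h 0 0 := by
  have h1 := H.bb_le a
  have h2 := H.le_sub1 a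
  omega

theorem Arr.ge_sub (H : Arr m h) (a j : ℕ) : bb h a - j ≤ h a j := by
  by_cases hb : bb h a ≤ j
  · omega
  · have key : ∀ k, j + k < bb h a → k < h a j := by
      intro k hk
      have h1 : 0 < h a (j + k) := (H.pos_iff a _).mpr hk
      have h2 : ∀ k, h a (j + k) ≤ h a j - k := by
        intro k
        induction k with
        | zero => simp
        | succ k ih =>
          have := H.e2 a (j + k)
          rw [← add_assoc]
          omega
      have := h2 k
      omega
    have := key (bb h a - j - 1) (by omega)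
    omega

theorem Arr.eq_eps (H : Arr m h) (a j : ℕ) : h a j = (bb h a - j) + eps h a j := by
  have := H.ge_sub a j
  unfold eps
  omega

theorem Arr.bb_succ (H : Arr m h) (a : ℕ) : bb h (a + 1) ≤ bb h a - 1 := by
  by_contra hcon
  have h1 := (H.pos_iff (a + 1) (bb h a - 1)).mpr (by omega)
  have h2 := H.e1 a (bb h a - 1)
  have h3 := (H.pos_iff a (bb h a - 1 + 1)).mp (by omega)
  omega

theorem Arr.bb_pos (H : Arr m h) {a : ℕ} (ha : a < m) : 0 < bb h a :=
  (H.pos_iff a 0).mp (H.p a ha)

theorem Arr.bb_zero (H : Arr m h) {a : ℕ} (ha : m ≤ a) : bb h a = 0 := by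
  by_contra hcon
  have := (H.pos_iff a 0).mpr (by omega)
  rw [H.z a 0 ha] at this
  omega

theorem Arr.bb_lt (H : Arr m h) {a : ℕ} (ha : a < m) : bb h (a + 1) < bb h a := by
  have h1 := H.bb_succ a
  have h2 := H.bb_pos ha
  omega

theorem Arr.bb_anti (H : Arr m h) {a c : ℕ} (hac : a ≤ c) : bb h c ≤ bb h a := by
  apply antitone_nat_of_succ_le (f := bb h) _ hac
  intro n
  have := H.bb_succ n
  omega

theorem Arr.bb_ge (H : Arr m h) (a : ℕ) : m - a ≤ bb h a := by
  have key : ∀ k a, a + k = m → k ≤ bb h a := by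
    intro k
    induction k with
    | zero => intro a _; omega
    | succ k ih =>
      intro a ha
      have h1 := ih (a + 1) (by omega)
      have h2 := H.bb_lt (a := a) (by omega)
      omega
  rcases Nat.lt_or_ge m a with h1 | h1
  · omega
  · exact key _ _ (by omega)

/-- telescoping sum -/
theorem sum_dd_le (H : Arr m h) (a j : ℕ) : ∀ B, ∑ j2 ∈ Ico j B, dd h a j2 ≤ h a j := by
  have key : ∀ n, ∑ j2 ∈ Ico j (j + n), dd h a j2 + h a (j + n) = h a j := by
    intro n
    induction n with
    | zero => simp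
    | succ n ih =>
      rw [← add_assoc, sum_Ico_succ_top (by omega), ← ih]
      have := H.m2 a (j + n)
      unfold dd
      omega
  intro B
  rcases Nat.lt_or_ge B j with h1 | h1
  · rw [Ico_eq_empty (by omega)]
    simp
  · have := key (B - j)
    rw [Nat.add_sub_cancel' h1] at this
    omega

theorem sum_min_le (H : Arr m h) (a c j B : ℕ) :
    ∑ j2 ∈ Ico j B, min (dd h a j2) (gg h c j) ≤
      (if j < bb h c then bb h a - j else 0) + (if 2 ≤ gg h c j then eps h a j else 0) := by
  rcases Nat.lt_or_ge (gg h c j) 1 with h0 | h0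
  · have : ∑ j2 ∈ Ico j B, min (dd h a j2) (gg h c j) = 0 := by
      apply sum_eq_zero
      intro x _
      omega
    omega
  · have hpos : j < bb h c := by
      rw [← H.pos_iff]
      unfold gg at h0
      omega
    rw [if_pos hpos]
    by_cases h2 : 2 ≤ gg h c j
    · rw [if_pos h2]
      refine (sum_le_sum (fun x _ => min_le_left _ _)).trans ?_
      refine (sum_dd_le H a j B).trans ?_
      have := H.eq_eps a j
      omega
    · rw [if_neg h2, add_zero]
      have h3 : gg h c j = 1 := by omega
      rw [h3]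
      have h4 : ∀ x ∈ Ico j B, min (dd h a x) 1 ≤ if x < bb h a then 1 else 0 := by
        intro x _
        split_ifs with h5
        · exact min_le_right _ _
        · have : h a x = 0 := by
            by_contra hcon
            exact h5 ((H.pos_iff a x).mp (Nat.pos_of_ne_zero hcon))
          unfold dd
          omega
      refine (sum_le_sum h4).trans ?_
      rw [← card_filter]
      refine (card_le_card (t := Ico j (bb h a)) ?_).trans ?_
      · intro x hx
        rw [mem_filter, mem_Ico] at hx
        rw [mem_Ico]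
        exact ⟨hx.1.1, hx.2⟩
      · rw [Nat.card_Ico]

/-- the weight of a cell -/
def WW (m : ℕ) (h : ℕ → ℕ → ℕ) (a j : ℕ) : ℕ :=
  a + ((Ico a m).filter fun c => 2 ≤ gg h c j).card

theorem RR_le (H : Arr m h) :
    RR m (h 0 0) h ≤
      ∑ c ∈ range m, ∑ a ∈ range (c + 1), ∑ j ∈ range (h 0 0),
        (if j < bb h c then bb h a - j else 0) +
      ∑ a ∈ range m, ∑ j ∈ range (h 0 0), eps h a j *
        ((Ico a m).filter fun c => 2 ≤ gg h c j).card := by
  unfold RR
  have h1 : ∀ c ∈ range m, ∀ a ∈ range (c + 1),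
      ∑ j2 ∈ range (h 0 0), ∑ j ∈ range (j2 + 1), min (dd h a j2) (gg h c j) ≤
      ∑ j ∈ range (h 0 0), ((if j < bb h c then bb h a - j else 0) +
        (if 2 ≤ gg h c j then eps h a j else 0)) := by
    intro c _ a _
    have h2 : ∑ j2 ∈ range (h 0 0), ∑ j ∈ range (j2 + 1), min (dd h a j2) (gg h c j) =
        ∑ j ∈ range (h 0 0), ∑ j2 ∈ Ico j (h 0 0), min (dd h a j2) (gg h c j) := by
      apply sum_comm'
      intro x y
      simp only [mem_Ico, mem_range]
      omega
    rw [h2]
    apply sum_le_sum
    intro j _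
    exact sum_min_le H a c j _
  refine (sum_le_sum fun c hc => sum_le_sum fun a ha => h1 c hc a ha).trans ?_
  simp only [sum_add_distrib]
  apply Nat.add_le_add_left
  apply le_of_eq
  have h3 : ∀ a ∈ range m, ∑ j ∈ range (h 0 0), eps h a j *
      ((Ico a m).filter fun c => 2 ≤ gg h c j).card =
      ∑ c ∈ Ico a m, ∑ j ∈ range (h 0 0), (if 2 ≤ gg h c j then eps h a j else 0) := by
    intro a _
    rw [sum_comm]
    refine sum_congr rfl ?_
    intro j _
    rw [card_filter, mul_sum]
    refine sum_congr rfl ?_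
    intro c _
    split_ifs <;> simp
  rw [sum_congr rfl h3]
  apply sum_comm'
  intro x y
  simp only [mem_Ico, mem_range]
  omega

theorem two_sum_sub (b B : ℕ) (hb : b ≤ B) : 2 * ∑ j ∈ range B, (b - j) = b * (b + 1) := by
  induction B generalizing b with
  | zero =>
    have : b = 0 := by omega
    subst this
    simp
  | succ B ih =>
    rw [sum_range_succ']
    rcases b with _ | b
    · simp
    · have h1 : ∀ j ∈ range B, b + 1 - (j + 1) = b - j := by
        intro j _
        omega
      rw [sum_congr rfl h1, mul_add, ih b (by omega)]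
      simp only [Nat.sub_zero]
      ring

theorem two_sum_sub' (b b' B : ℕ) (hb : b ≤ B) (hbb : b ≤ b') :
    2 * ∑ j ∈ range B, (if j < b then b' - j else 0) + b * b = 2 * (b' * b) + b := by
  have h1 : ∑ j ∈ range B, (if j < b then b' - j else 0) =
      ∑ j ∈ range b, (b' - j) := by
    rw [← sum_filter]
    apply sum_congr _ (fun _ _ => rfl)
    ext x
    rw [mem_filter, mem_range, mem_range]
    omega
  rw [h1]
  have h2 : ∀ c, c ≤ b → 2 * ∑ j ∈ range c, (b' - j) + c * c = 2 * (b' * c) + c := by
    intro c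
    induction c with
    | zero => simp
    | succ c ih =>
      intro hc
      rw [sum_range_succ]
      have h3 := ih (by omega)
      obtain ⟨k, hk⟩ := Nat.exists_eq_add_of_le (show c ≤ b' by omega)
      have h4 : b' - c = k := by omega
      rw [h4]
      have h5 : 2 * (b' * (c + 1)) = 2 * (b' * c) + 2 * b' := by ring
      have h6 : (c + 1) * (c + 1) = c * c + 2 * c + 1 := by ring
      omega
  exact h2 b le_rfl

/-- the identity behind the bound -/
theorem vv_identity (b : ℕ → ℕ) (x : ℕ → ℕ → ℕ) (m : ℕ)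
    (hx : ∀ c < m, ∀ a ≤ c, 2 * x c a + b c * b c = 2 * (b a * b c) + b c) :
    ∑ a ∈ range m, a * (b a * (b a + 1)) + 2 * ∑ c ∈ range m, ∑ a ∈ range (c + 1), x c a =
      vv m b := by
  induction m with
  | zero => simp [vv, bet, ae]
  | succ m ih =>
    rw [sum_range_succ, sum_range_succ _ m]
    have h1 := ih (fun c hc a ha => hx c (by omega) a ha)
    have h2 : 2 * ∑ a ∈ range (m + 1), x m a + (m + 1) * (b m * b m) =
        2 * (bet (m + 1) b * b m) + (m + 1) * b m := by
      have h3 : ∑ a ∈ range (m + 1), (2 * x m a + b m * b m) =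
          ∑ a ∈ range (m + 1), (2 * (b a * b m) + b m) := by
        apply sum_congr rfl
        intro a ha
        rw [mem_range] at ha
        exact hx m (by omega) a (by omega)
      rw [sum_add_distrib, sum_add_distrib, sum_const, sum_const,
        card_range, smul_eq_mul, smul_eq_mul, ← mul_sum, ← mul_sum, ← sum_mul] at h3
      exact h3
    unfold vv at h1 ⊢
    have h4 : bet (m + 1) b = bet m b + b m := by
      unfold bet
      rw [sum_range_succ]
    have h5 : ae (m + 1) b = ae m b + m * b m := by
      unfold ae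
      rw [sum_range_succ]
    rw [h4] at h2 ⊢
    rw [h5]
    have h6 : (m + 1) * (b m * b m) = m * (b m * b m) + b m * b m := by ring
    have h7 : m * (b m * (b m + 1)) = m * (b m * b m) + m * b m := by ring
    have h8 : (bet m b + b m) * b m = bet m b * b m + b m * b m := by ring
    have h9 : (bet m b + b m) * (bet m b + b m) = bet m b * bet m b + 2 * (bet m b * b m) +
      b m * b m := by ring
    have h10 : (m + 1) * b m = m * b m + b m := by ring
    rw [h6, h8, h10] at h2
    rw [h7, h9]
    generalize bet m b * bet m b = A1 at *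
    generalize bet m b * b m = A2 at *
    generalize b m * b m = A3 at *
    generalize m * b m = A4 at *
    generalize m * A3 = A5 at *
    omega

/-- the bound for the tangent dimension in terms of the excess array -/
theorem tangent_le_phi {I : Ideal (Poly 3)} (hmon : MonomialIdeal I) (H : Arr m h)
    (hiff : ∀ a j t, v3 a j t ∈ std I ↔ t < h a j) :
    tangentDim I ≤ ∑ a ∈ range m, ∑ j ∈ range (h 0 0), h a j + vv m (bb h) +
      2 * ∑ a ∈ range m, ∑ j ∈ range (h 0 0), eps h a j * WW m h a j := by
  refine (tangent_le_RR hmon H hiff).trans ?_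
  have h1 := RR_le H
  have h2 := vv_identity (bb h) (fun c a => ∑ j ∈ range (h 0 0),
    (if j < bb h c then bb h a - j else 0)) m (by
      intro c _ a hac
      exact two_sum_sub' (bb h c) (bb h a) (h 0 0) (H.bb_le_B c) (H.bb_anti hac))
  have h3 : ∑ c ∈ range m, (2 * c + 1) * ∑ j ∈ range (h 0 0), h c j =
      ∑ a ∈ range m, ∑ j ∈ range (h 0 0), h a j +
      ∑ a ∈ range m, a * (bb h a * (bb h a + 1)) +
      2 * ∑ a ∈ range m, ∑ j ∈ range (h 0 0), eps h a j * a := by
    rw [mul_sum, ← sum_add_distrib, ← sum_add_distrib]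
    apply sum_congr rfl
    intro a _
    have h4 : ∑ j ∈ range (h 0 0), h a j = ∑ j ∈ range (h 0 0), (bb h a - j) +
        ∑ j ∈ range (h 0 0), eps h a j := by
      rw [← sum_add_distrib]
      apply sum_congr rfl
      intro j _
      exact H.eq_eps a j
    rw [← two_sum_sub (bb h a) (h 0 0) (H.bb_le_B a), ← sum_mul, h4]
    ring
  have h5 : ∑ a ∈ range m, ∑ j ∈ range (h 0 0), eps h a j * WW m h a j =
      ∑ a ∈ range m, ∑ j ∈ range (h 0 0), eps h a j * a +
      ∑ a ∈ range m, ∑ j ∈ range (h 0 0), eps h a j *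
        ((Ico a m).filter fun c => 2 ≤ gg h c j).card := by
    rw [← sum_add_distrib]
    apply sum_congr rfl
    intro a _
    rw [← sum_add_distrib]
    apply sum_congr rfl
    intro j _
    unfold WW
    ring
  rw [h3, h5]
  omega

/-- the colength in terms of the excess array -/
theorem two_colength (H : Arr m h) :
    2 * ∑ a ∈ range m, ∑ j ∈ range (h 0 0), h a j =
      sl m (bb h) + 2 * ∑ a ∈ range m, ∑ j ∈ range (h 0 0), eps h a j := by
  unfold sl
  rw [mul_sum, mul_sum, ← sum_add_distrib]
  apply sum_congr rfl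
  intro a _
  rw [← two_sum_sub (bb h a) (h 0 0) (H.bb_le_B a), ← mul_add, ← sum_add_distrib]
  congr 1
  apply sum_congr rfl
  intro j _
  exact H.eq_eps a j

end Pool.Agent.MP_74475a_ag.N3
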