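import Mathlib
import Pool.Agent.MP_74475a_ag.N3.Phi

/-!
Three variables: the closure bound.
-/

namespace Pool.Agent.MP_74475a_ag.N3

open Finset

variable {m : ℕ} {h : ℕ → ℕ → ℕ}

/-- the raised staircase -/
def clo (K : ℕ) (b : ℕ → ℕ) (a : ℕ) : ℕ := max (b a) (K - a)

/-- excess over the raised staircase -/
def AA (K : ℕ) (h : ℕ → ℕ → ℕ) (a j : ℕ) : ℕ := h a j - (clo K (bb h) a - j)

structure Cl (m : ℕ) (h : ℕ → ℕ → ℕ) (K g : ℕ) : Prop where
  arr : Arr m h
  hK1 : m ≤ K
  hK2 : K ≤ bb h 0
  hgm : g < m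
  up : ∀ a, a < g → K - a < bb h a
  dn : ∀ a, g ≤ a → bb h a ≤ K - a

variable {K g : ℕ}

theorem Cl.clo_up (C : Cl m h K g) {a : ℕ} (ha : a < g) : clo K (bb h) a = bb h a := by
  have := C.up a ha
  unfold clo
  omega

theorem Cl.clo_dn (C : Cl m h K g) {a : ℕ} (ha : g ≤ a) : clo K (bb h) a = K - a := by
  have := C.dn a ha
  unfold clo
  omega

theorem Cl.clo_zero (C : Cl m h K g) : clo K (bb h) 0 = bb h 0 := by
  have := C.hK2
  unfold clo
  omega

theorem AA_le_eps (K : ℕ) (h : ℕ → ℕ → ℕ) (a j : ℕ) : AA K h a j ≤ eps h a j := by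
  unfold AA eps clo
  omega

theorem eps_sub_AA (H : Arr m h) (K a j : ℕ) :
    eps h a j ≤ AA K h a j + (if j < bb h a then clo K (bb h) a - bb h a else 0) := by
  have h1 := H.pos_iff a j
  split_ifs with h2
  · unfold AA eps clo
    omega
  · have h3 : h a j = 0 := by
      by_contra hcon
      exact h2 (h1.mp (Nat.pos_of_ne_zero hcon))
    unfold eps
    omega

theorem AA_anti (H : Arr m h) (K a : ℕ) {j j' : ℕ} (hj : j ≤ j') : AA K h a j' ≤ AA K h a j := by
  have h1 := H.pos_iff a
  have key : ∀ j, AA K h a (j + 1) ≤ AA K h a j := by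
    intro j
    have h2 := H.e2 a j
    unfold AA
    omega
  exact antitone_nat_of_succ_le key hj

theorem AA_step (C : Cl m h K g) {a : ℕ} (ha : g ≤ a) (j : ℕ) :
    AA K h (a + 1) j ≤ AA K h a (j + 1) := by
  have h1 := C.arr.e1 a j
  unfold AA
  rw [C.clo_dn ha, C.clo_dn (by omega : g ≤ a + 1)]
  omega

theorem AA_zero_of_ge (H : Arr m h) (K : ℕ) {a : ℕ} (ha : m ≤ a) (j : ℕ) : AA K h a j = 0 := by
  unfold AA
  rw [H.z a j ha]
  omega

/-- telescoping estimate -/
theorem gg_count (H : Arr m h) (j : ℕ) (r : ℕ) : ∀ n,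
    ((Ico r (r + n)).filter fun c => 2 ≤ gg h c j).card +
      ((Ico r (r + n)).filter fun c => 1 ≤ gg h c j).card + h (r + n) j ≤ h r j := by
  intro n
  induction n with
  | zero => simp
  | succ n ih =>
    rw [← add_assoc, card_filter, card_filter, sum_Ico_succ_top (by omega),
      sum_Ico_succ_top (by omega), ← card_filter, ← card_filter]
    have h1 := H.m1' (r + n) j
    have h2 : (if 2 ≤ gg h (r + n) j then 1 else 0) + (if 1 ≤ gg h (r + n) j then 1 else 0) ≤
        gg h (r + n) j := by
      split_ifs <;> omega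
    have h3 : gg h (r + n) j + h (r + n + 1) j = h (r + n) j := by
      unfold gg
      omega
    omega

theorem gg_count' (H : Arr m h) (j : ℕ) {r s : ℕ} (hrs : r ≤ s) :
    ((Ico r s).filter fun c => 2 ≤ gg h c j).card +
      ((Ico r s).filter fun c => 1 ≤ gg h c j).card + h s j ≤ h r j := by
  obtain ⟨n, rfl⟩ := Nat.exists_eq_add_of_le hrs
  exact gg_count H j r n

theorem one_le_gg (H : Arr m h) {c j : ℕ} (hc : 0 < h c j) : 1 ≤ gg h c j := by
  have := H.m1 c j
  unfold gg
  omega

theorem count_ge (H : Arr m h) (j r s t : ℕ) (ht : t ≤ s) (hpos : ∀ c, r ≤ c → c < t → 0 < h c j) :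
    t - r ≤ ((Ico r s).filter fun c => 1 ≤ gg h c j).card := by
  have h1 : (Ico r t).card ≤ ((Ico r s).filter fun c => 1 ≤ gg h c j).card := by
    apply card_le_card
    intro x hx
    rw [mem_Ico] at hx
    rw [mem_filter, mem_Ico]
    exact ⟨⟨hx.1, by omega⟩, one_le_gg H (hpos x hx.1 hx.2)⟩
  rwa [Nat.card_Ico] at h1

theorem CL1 (C : Cl m h K g) {r j : ℕ} (hr : r ≤ m) (hh : h r j ≤ K - r - j) :
    ((Ico r m).filter fun c => 2 ≤ gg h c j).card ≤ K - m := by
  have h1 := gg_count' C.arr j hr
  have h2 := count_ge C.arr j r m (m - j) (by omega) (by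
    intro c hc1 hc2
    rw [C.arr.pos_iff]
    have := C.arr.bb_ge c
    omega)
  have := C.hK1
  omega

theorem CL1' (C : Cl m h K g) (hbb : ∀ a, a < m → K - a ≤ bb h a) {r j : ℕ} (hr : r ≤ m)
    (hh : h r j ≤ K - r - j) :
    ((Ico r m).filter fun c => 2 ≤ gg h c j).card ≤ K - m - j := by
  have h1 := gg_count' C.arr j hr
  have h2 := count_ge C.arr j r m (min m (K - j)) (by omega) (by
    intro c hc1 hc2
    rw [C.arr.pos_iff]
    have := hbb c (by omega)
    omega)
  have := C.hK1
  omega

theorem CL2 (C : Cl m h K g) {a r j : ℕ} (ha : g ≤ a) (har : a < r)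
    (hA : 1 ≤ AA K h (r - 1) j) :
    ((Ico a r).filter fun c => 2 ≤ gg h c j).card ≤ AA K h a j := by
  obtain ⟨s, rfl⟩ : ∃ s, r = s + 1 := ⟨r - 1, by omega⟩
  rw [Nat.add_sub_cancel] at hA
  have h1 := gg_count' C.arr j (show a ≤ s by omega)
  have hanti : ∀ c, c ≤ s → h s j ≤ h c j := by
    intro c hc
    exact antitone_nat_of_succ_le (f := fun c => h c j) (fun n => C.arr.m1' n j) hc
  have hpos : 0 < h s j := by
    unfold AA at hA
    omega
  have h2 := count_ge C.arr j a s s le_rfl (by
    intro c hc1 hc2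
    have := hanti c (by omega)
    omega)
  have h3 : ((Ico a (s + 1)).filter fun c => 2 ≤ gg h c j).card ≤
      ((Ico a s).filter fun c => 2 ≤ gg h c j).card + 1 := by
    rw [card_filter, card_filter, sum_Ico_succ_top (by omega)]
    split_ifs <;> omega
  unfold AA at hA ⊢
  rw [C.clo_dn (by omega : g ≤ s)] at hA
  rw [C.clo_dn ha]
  omega

theorem WW_le_m {a j : ℕ} (ha : a ≤ m) : WW m h a j ≤ m := by
  unfold WW
  have := card_filter_le (Ico a m) fun c => 2 ≤ gg h c j
  rw [Nat.card_Ico] at this
  omega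

theorem WW_split {a r j : ℕ} (har : a ≤ r) (hrm : r ≤ m) :
    WW m h a j = a + ((Ico a r).filter fun c => 2 ≤ gg h c j).card +
      ((Ico r m).filter fun c => 2 ≤ gg h c j).card := by
  unfold WW
  rw [card_filter, card_filter, card_filter, ← sum_Ico_consecutive _ har hrm, add_assoc]

/-- combinatorial lemma for the special columns -/
theorem special_mul (A D s : ℕ) (hA : 1 ≤ A) (hs1 : 1 ≤ s) (hs2 : s < D) :
    D - 1 ≤ A * (D - min A s) := by
  obtain ⟨u, hu⟩ : ∃ u, min A s = u + 1 := ⟨min A s - 1, by omega⟩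
  obtain ⟨w, hw⟩ : ∃ w, D = u + 1 + (w + 1) := ⟨D - u - 2, by omega⟩
  rw [hu, hw]
  have h1 : u + 1 + (w + 1) - (u + 1) = w + 1 := by omega
  rw [h1]
  have h2 : (u + 1) * (w + 1) ≤ A * (w + 1) := Nat.mul_le_mul_right _ (by omega)
  have h3 : (u + 1) * (w + 1) = u * w + u + w + 1 := by ring
  omega

/-- the length of the support of a row of `AA` -/
def lam (K : ℕ) (h : ℕ → ℕ → ℕ) (a : ℕ) : ℕ :=
  ((range (h 0 0)).filter fun j => 1 ≤ AA K h a j).card

theorem lam_iff (H : Arr m h) (K a j : ℕ) : 1 ≤ AA K h a j ↔ j < lam K h a := by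
  unfold lam
  rw [← mem_iff_lt_card, mem_filter, mem_range]
  · constructor
    · intro h1
      refine ⟨?_, h1⟩
      by_contra hcon
      unfold AA at h1
      rw [H.zB a j (not_lt.mp hcon)] at h1
      omega
    · exact fun h1 => h1.2
  · intro x y hxy hy
    rw [mem_filter, mem_range] at hy ⊢
    exact ⟨by omega, hy.2.trans (AA_anti H K a hxy)⟩

theorem lam_step (C : Cl m h K g) {a : ℕ} (ha : g ≤ a) (hl : 1 ≤ lam K h (a + 1)) :
    lam K h (a + 1) + 1 ≤ lam K h a := by
  have h1 := (lam_iff C.arr K (a + 1) (lam K h (a + 1) - 1)).mpr (by omega)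
  have h2 := AA_step C ha (lam K h (a + 1) - 1)
  have h3 := (lam_iff C.arr K a (lam K h (a + 1) - 1 + 1)).mp (by omega)
  omega

/-- the bound for the weighted excess over the raised staircase -/
theorem AA_bound (C : Cl m h K g) (δ : ℕ)
    (hδ : δ = 0 ∨ (δ = 1 ∧ m < K ∧ ∀ a, a < m → K - a ≤ bb h a)) :
    ∃ n P : ℕ, (n = 0 ∨ n + g + (K - m) ≤ m) ∧ P = min (n + g + (K - m)) m ∧
      ∑ a ∈ range m, ∑ j ∈ range (h 0 0), AA K h a j * WW m h a j +
        ∑ k ∈ range n, k * (k + δ) ≤
      P * ∑ a ∈ range m, ∑ j ∈ range (h 0 0), AA K h a j := by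
  classical
  have hgm := C.hgm
  have hK1 := C.hK1
  -- the number `Q`
  have hex : ∃ q, g ≤ q ∧ ∀ a, q ≤ a → AA K h a 0 = 0 :=
    ⟨m, by omega, fun a ha => AA_zero_of_ge C.arr K ha 0⟩
  obtain ⟨Q, hQdef⟩ : ∃ Q, Q = Nat.find hex := ⟨_, rfl⟩
  have hQ1 : g ≤ Q := by rw [hQdef]; exact (Nat.find_spec hex).1
  have hQ2 : ∀ a, Q ≤ a → AA K h a 0 = 0 := by
    rw [hQdef]; exact (Nat.find_spec hex).2
  have hQm : Q ≤ m := by
    rw [hQdef]
    exact Nat.find_min' hex ⟨by omega, fun a ha => AA_zero_of_ge C.arr K ha 0⟩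
  have hQ3 : g < Q → 1 ≤ AA K h (Q - 1) 0 := by
    intro hlt
    by_contra hcon
    have h1 := Nat.find_min hex (m := Q - 1) (by rw [← hQdef]; omega)
    apply h1
    refine ⟨by omega, ?_⟩
    intro a ha
    rcases Nat.eq_or_lt_of_le ha with h2 | h2
    · rw [← h2]; omega
    · exact hQ2 a (by omega)
  -- lower bound for the supports
  have hlamQ : ∀ k a, a + k + 1 = Q → g ≤ a → k + 1 ≤ lam K h a := by
    intro k
    induction k with
    | zero =>
      intro a ha hga
      have h1 := hQ3 (by omega)
      have h2 : Q - 1 = a := by omega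
      rw [h2] at h1
      have := (lam_iff C.arr K a 0).mp h1
      omega
    | succ k ih =>
      intro a ha hga
      have h1 := ih (a + 1) (by omega) (by omega)
      have h2 := lam_step C hga (by omega)
      omega
  have hlam : ∀ a, g ≤ a → a < Q → Q - a ≤ lam K h a := by
    intro a h1 h2
    have := hlamQ (Q - a - 1) a (by omega) h1
    omega
  obtain ⟨n, hn⟩ : ∃ n, n = min (Q - g) (m - g - (K - m)) := ⟨_, rfl⟩
  obtain ⟨P, hP⟩ : ∃ P, P = min (n + g + (K - m)) m := ⟨_, rfl⟩
  refine ⟨n, P, by omega, hP, ?_⟩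
  -- (i) all cells
  have hcell : ∀ a j, 1 ≤ AA K h a j → WW m h a j ≤ P := by
    intro a j hA
    have haQ : a < Q := by
      by_contra hcon
      have h1 := hQ2 a (not_lt.mp hcon)
      have h2 := AA_anti C.arr K a (Nat.zero_le j)
      omega
    have h1 : WW m h a j ≤ m := WW_le_m (by omega)
    have h2 : h Q j ≤ K - Q - j := by
      have h3 := hQ2 Q le_rfl
      have h4 := AA_anti C.arr K Q (Nat.zero_le j)
      unfold AA at h3 h4
      rw [C.clo_dn hQ1] at h3 h4
      omega
    have h3 := CL1 C hQm h2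
    have h4 := WW_split (h := h) (j := j) haQ.le hQm
    have h5 := card_filter_le (Ico a Q) fun c => 2 ≤ gg h c j
    rw [Nat.card_Ico] at h5
    omega
  -- (ii) special columns
  have hspec : ∀ a r, g ≤ a → a < r → r < g + n →
      g + n - 1 - a + δ ≤ AA K h a (lam K h (r - 1) - 1) *
        (P - WW m h a (lam K h (r - 1) - 1)) := by
    intro a r hga har hrn
    have hrQ : r < Q := by omega
    obtain ⟨jr, hjr⟩ : ∃ jr, jr = lam K h (r - 1) - 1 := ⟨_, rfl⟩
    rw [← hjr]
    have hl1 := hlam (r - 1) (by omega) (by omega)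
    have hA1 : 1 ≤ AA K h (r - 1) jr := (lam_iff C.arr K (r - 1) jr).mpr (by omega)
    have hl2 : lam K h r ≤ jr := by
      by_contra hcon
      have h1 : 1 ≤ lam K h (r - 1 + 1) := by
        rw [Nat.sub_add_cancel (by omega)]
        omega
      have h2 := lam_step C (a := r - 1) (by omega) h1
      rw [Nat.sub_add_cancel (by omega)] at h2
      omega
    have hA0 : AA K h r jr = 0 := by
      by_contra hcon
      have := (lam_iff C.arr K r jr).mp (by omega)
      omega
    have hr1 : h r jr ≤ K - r - jr := by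
      unfold AA at hA0
      rw [C.clo_dn (by omega : g ≤ r)] at hA0
      omega
    have h1 := CL1 C (r := r) (j := jr) (by omega) hr1
    have h2 := CL2 C (a := a) (r := r) (j := jr) hga har hA1
    have h3 := WW_split (m := m) (h := h) (a := a) (r := r) (j := jr) (by omega) (by omega)
    have h4 := card_filter_le (Ico a r) fun c => 2 ≤ gg h c jr
    rw [Nat.card_Ico] at h4
    have hAa : 1 ≤ AA K h a jr := by
      rw [lam_iff C.arr]
      have hmono : ∀ k, ∀ c, g ≤ c → c + k = r - 1 → lam K h (r - 1) ≤ lam K h c := by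
        intro k
        induction k with
        | zero =>
          intro c _ hc
          rw [← hc]
          exact le_rfl
        | succ k ih =>
          intro c hgc hc
          have h5 := ih (c + 1) (by omega) (by omega)
          have h6 := lam_step C (a := c) hgc (by omega)
          omega
      have := hmono (r - 1 - a) a hga (by omega)
      omega
    have hmul := special_mul (AA K h a jr) (n + g - a) (r - a) hAa (by omega) (by omega)
    have hP' : P = n + g + (K - m) := by omega
    rcases hδ with hδ0 | ⟨hδ1, hmK, hbb⟩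
    · have h5 : n + g - a - min (AA K h a jr) (r - a) ≤ P - WW m h a jr := by omega
      have h6 := Nat.mul_le_mul_left (AA K h a jr) h5
      omega
    · have hc := CL1' C hbb (r := r) (j := jr) (by omega) hr1
      have hjr1 : 1 ≤ jr := by omega
      have h5 : n + g - a - min (AA K h a jr) (r - a) + 1 ≤ P - WW m h a jr := by omega
      have h6 := Nat.mul_le_mul_left (AA K h a jr) h5
      rw [mul_add, mul_one] at h6
      omega
  -- sum over a row
  have hrow : ∀ a, g ≤ a → a < g + n →
      (g + n - 1 - a) * (g + n - 1 - a + δ) ≤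
        ∑ j ∈ range (h 0 0), AA K h a j * (P - WW m h a j) := by
    intro a hga han
    have hinj : Set.InjOn (fun r => lam K h (r - 1) - 1)
        ((Ioo a (g + n) : Finset ℕ) : Set ℕ) := by
      have hlt : ∀ x y, g < x → x < y → y < g + n →
          lam K h (y - 1) < lam K h (x - 1) := by
        have hstep : ∀ k x, g ≤ x → x + k + 1 < Q → lam K h (x + k + 1) < lam K h x := by
          intro k
          induction k with
          | zero =>
            intro x hx hxQ
            have h5 := hlam (x + 1) (by omega) (by omega)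
            have h6 := lam_step C (a := x) hx (by omega)
            show lam K h (x + 1) < lam K h x
            omega
          | succ k ih =>
            intro x hx hxQ
            have h5 := ih (x + 1) (by omega) (by omega)
            have h7 := hlam (x + 1) (by omega) (by omega)
            have h6 := lam_step C (a := x) hx (by omega)
            have h8 : x + (k + 1) + 1 = x + 1 + k + 1 := by ring
            rw [h8]
            omega
        intro x y hx hxy hy
        have := hstep (y - x - 1) (x - 1) (by omega) (by omega)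
        have h9 : x - 1 + (y - x - 1) + 1 = y - 1 := by omega
        rwa [h9] at this
      intro x hx y hy hxy
      simp only [mem_coe, mem_Ioo] at hx hy
      simp only at hxy
      have hx1 := hlam (x - 1) (by omega) (by omega)
      have hy1 := hlam (y - 1) (by omega) (by omega)
      rcases Nat.lt_trichotomy x y with h5 | h5 | h5
      · have := hlt x y (by omega) h5 (by omega)
        omega
      · exact h5
      · have := hlt y x (by omega) h5 (by omega)
        omega
    have hsub : (Ioo a (g + n)).image (fun r => lam K h (r - 1) - 1) ⊆ range (h 0 0) := by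
      intro x hx
      rw [mem_image] at hx
      obtain ⟨r, hr, rfl⟩ := hx
      rw [mem_Ioo] at hr
      rw [mem_range]
      have h5 := hlam (r - 1) (by omega) (by omega)
      have h6 : lam K h (r - 1) ≤ h 0 0 := by
        unfold lam
        refine (card_filter_le _ _).trans ?_
        rw [card_range]
      omega
    calc (g + n - 1 - a) * (g + n - 1 - a + δ)
        = ∑ _r ∈ Ioo a (g + n), (g + n - 1 - a + δ) := by
          rw [sum_const, smul_eq_mul, Nat.card_Ioo]
          congr 1
          omega
      _ ≤ ∑ r ∈ Ioo a (g + n), AA K h a (lam K h (r - 1) - 1) *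
            (P - WW m h a (lam K h (r - 1) - 1)) := by
          apply sum_le_sum
          intro r hr
          rw [mem_Ioo] at hr
          exact hspec a r hga hr.1 hr.2
      _ = ∑ j ∈ (Ioo a (g + n)).image (fun r => lam K h (r - 1) - 1),
            AA K h a j * (P - WW m h a j) := by
          rw [sum_image hinj]
      _ ≤ _ := sum_le_sum_of_subset hsub
  -- total
  have htot : ∑ k ∈ range n, k * (k + δ) ≤
      ∑ a ∈ range m, ∑ j ∈ range (h 0 0), AA K h a j * (P - WW m h a j) := by
    calc ∑ k ∈ range n, k * (k + δ)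
        = ∑ k ∈ range n, (n - 1 - k) * (n - 1 - k + δ) :=
          (sum_range_reflect (fun k => k * (k + δ)) n).symm
      _ ≤ ∑ k ∈ range n, ∑ j ∈ range (h 0 0), AA K h (g + k) j * (P - WW m h (g + k) j) := by
          apply sum_le_sum
          intro k hk
          rw [mem_range] at hk
          have := hrow (g + k) (by omega) (by omega)
          have h5 : g + n - 1 - (g + k) = n - 1 - k := by omega
          rwa [h5] at this
      _ = ∑ a ∈ Ico g (g + n), ∑ j ∈ range (h 0 0), AA K h a j * (P - WW m h a j) := by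
          rw [sum_Ico_eq_sum_range, Nat.add_sub_cancel_left]
      _ ≤ _ := by
          apply sum_le_sum_of_subset
          intro x hx
          rw [mem_Ico] at hx
          rw [mem_range]
          omega
  have hPsum : P * ∑ a ∈ range m, ∑ j ∈ range (h 0 0), AA K h a j =
      ∑ a ∈ range m, ∑ j ∈ range (h 0 0), AA K h a j * WW m h a j +
      ∑ a ∈ range m, ∑ j ∈ range (h 0 0), AA K h a j * (P - WW m h a j) := by
    rw [mul_sum, ← sum_add_distrib]
    apply sum_congr rfl
    intro a _
    rw [mul_sum, ← sum_add_distrib]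
    apply sum_congr rfl
    intro j _
    rcases Nat.eq_zero_or_pos (AA K h a j) with h0 | h0
    · rw [h0]
      simp
    · have := hcell a j h0
      rw [← mul_add, Nat.add_sub_cancel' this, mul_comm]
  rw [hPsum]
  exact Nat.add_le_add_left htot _

end Pool.Agent.MP_74475a_ag.N3
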