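import Mathlib
import Pool.Agent.MP_74475a_ag.N3.Clos

/-!
Three variables: the closure bound, numerical part.
-/

namespace Pool.Agent.MP_74475a_ag.N3

open Finset

variable {m : ℕ} {h : ℕ → ℕ → ℕ} {K g : ℕ}

/-- the sum over pairs complementary to `V` -/
def gz (m : ℕ) (b : ℕ → ℕ) : ℤ :=
  ∑ c ∈ range m, ∑ a ∈ range c, ((b a : ℤ) - b c) * ((b a : ℤ) - b c + 1)

theorem gz_identity (m : ℕ) (b : ℕ → ℕ) :
    (vv m b : ℤ) + gz m b = m * (sl m b : ℤ) := by
  induction m with
  | zero => simp [vv, gz, sl, bet, ae]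
  | succ m ih =>
    have h1 : gz (m + 1) b = gz m b + ∑ a ∈ range m, ((b a : ℤ) - b m) * ((b a : ℤ) - b m + 1) := by
      unfold gz
      rw [sum_range_succ]
    have h2 : ∑ a ∈ range m, ((b a : ℤ) - b m) * ((b a : ℤ) - b m + 1) =
        (sl m b : ℤ) - 2 * (b m : ℤ) * (bet m b : ℤ) + m * ((b m : ℤ) * b m - b m) := by
      unfold sl bet
      push_cast
      rw [mul_sum, ← sum_sub_distrib]
      have : (m : ℤ) * ((b m : ℤ) * b m - b m) = ∑ _a ∈ range m, ((b m : ℤ) * b m - b m) := by
        rw [sum_const, card_range, nsmul_eq_mul]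
      rw [this, ← sum_add_distrib]
      apply sum_congr rfl
      intro a _
      ring
    have h3 : bet (m + 1) b = bet m b + b m := by
      unfold bet
      rw [sum_range_succ]
    have h4 : ae (m + 1) b = ae m b + m * b m := by
      unfold ae
      rw [sum_range_succ]
    have h5 : sl (m + 1) b = sl m b + b m * (b m + 1) := by
      unfold sl
      rw [sum_range_succ]
    rw [h1, h2]
    unfold vv at ih ⊢
    rw [h3, h4, h5]
    push_cast at ih ⊢
    linear_combination ih

theorem Cl.clo_pair (C : Cl m h K g) {a c : ℕ} (hac : a < c) (hc : c < m) :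
    clo K (bb h) c ≤ clo K (bb h) a ∧
      clo K (bb h) a + bb h c ≤ clo K (bb h) c + bb h a := by
  have h1 : bb h c + (c - a) ≤ bb h a := by
    have key : ∀ k, a + k < m → bb h (a + k) + k ≤ bb h a := by
      intro k
      induction k with
      | zero => simp
      | succ k ih =>
        intro hk
        have h2 := ih (by omega)
        have h3 := C.arr.bb_lt (a := a + k) (by omega)
        have h4 : a + (k + 1) = a + k + 1 := by ring
        rw [h4]
        omega
    have := key (c - a) (by omega)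
    rwa [Nat.add_sub_cancel' hac.le] at this
  rcases Nat.lt_or_ge a g with ha | ha
  · have := C.clo_up ha
    have h5 := C.up a ha
    unfold clo at *
    omega
  · have h5 := C.clo_dn ha
    have h6 := C.clo_dn (show g ≤ c by omega)
    have h7 := C.dn a ha
    have h8 := C.hK1
    rw [h5, h6]
    omega

theorem closure_ineq (C : Cl m h K g) :
    (vv m (bb h) : ℤ) + m * (sl m (clo K (bb h)) : ℤ) ≤
      vv m (clo K (bb h)) + m * (sl m (bb h) : ℤ) ∧
    ((∃ a, a < m ∧ bb h a < K - a) →
      (vv m (bb h) : ℤ) + m * (sl m (clo K (bb h)) : ℤ) + 2 ≤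
      vv m (clo K (bb h)) + m * (sl m (bb h) : ℤ)) := by
  have h1 := gz_identity m (bb h)
  have h2 := gz_identity m (clo K (bb h))
  have hterm : ∀ c ∈ range m, ∀ a ∈ range c,
      ((clo K (bb h) a : ℤ) - clo K (bb h) c) * ((clo K (bb h) a : ℤ) - clo K (bb h) c + 1) ≤
      ((bb h a : ℤ) - bb h c) * ((bb h a : ℤ) - bb h c + 1) := by
    intro c hc a ha
    rw [mem_range] at hc ha
    obtain ⟨h3, h4⟩ := C.clo_pair ha hc
    have h5 : (0 : ℤ) ≤ (clo K (bb h) a : ℤ) - clo K (bb h) c := by omega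
    have h6 : (clo K (bb h) a : ℤ) - clo K (bb h) c ≤ (bb h a : ℤ) - bb h c := by omega
    nlinarith
  constructor
  · have : gz m (clo K (bb h)) ≤ gz m (bb h) :=
      sum_le_sum fun c hc => sum_le_sum fun a ha => hterm c hc a ha
    linarith
  · rintro ⟨c, hc, hlt⟩
    have hc0 : 0 < c := by
      rcases Nat.eq_zero_or_pos c with h0 | h0
      · subst h0
        have := C.hK2
        omega
      · exact h0
    have hin : gz m (clo K (bb h)) + 2 ≤ gz m (bb h) := by
      have hsplit : ∀ b : ℕ → ℕ, gz m b = ∑ c' ∈ (range m).erase c, ∑ a ∈ range c',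
          ((b a : ℤ) - b c') * ((b a : ℤ) - b c' + 1) +
          (∑ a ∈ (range c).erase 0, ((b a : ℤ) - b c) * ((b a : ℤ) - b c + 1) +
            ((b 0 : ℤ) - b c) * ((b 0 : ℤ) - b c + 1)) := by
        intro b
        unfold gz
        rw [← sum_erase_add (range m) _ (mem_range.mpr hc)]
        congr 1
        rw [← sum_erase_add (range c) _ (mem_range.mpr hc0)]
      rw [hsplit, hsplit]
      have e1 : ∑ c' ∈ (range m).erase c, ∑ a ∈ range c',
          ((clo K (bb h) a : ℤ) - clo K (bb h) c') * ((clo K (bb h) a : ℤ) - clo K (bb h) c' + 1) ≤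
          ∑ c' ∈ (range m).erase c, ∑ a ∈ range c',
          ((bb h a : ℤ) - bb h c') * ((bb h a : ℤ) - bb h c' + 1) :=
        sum_le_sum fun c' hc' => sum_le_sum fun a ha => hterm c' (mem_of_mem_erase hc') a ha
      have e2 : ∑ a ∈ (range c).erase 0,
          ((clo K (bb h) a : ℤ) - clo K (bb h) c) * ((clo K (bb h) a : ℤ) - clo K (bb h) c + 1) ≤
          ∑ a ∈ (range c).erase 0, ((bb h a : ℤ) - bb h c) * ((bb h a : ℤ) - bb h c + 1) :=
        sum_le_sum fun a ha => hterm c (mem_range.mpr hc) a (mem_of_mem_erase ha)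
      have e3 : ((clo K (bb h) 0 : ℤ) - clo K (bb h) c) *
          ((clo K (bb h) 0 : ℤ) - clo K (bb h) c + 1) + 2 ≤
          ((bb h 0 : ℤ) - bb h c) * ((bb h 0 : ℤ) - bb h c + 1) := by
        obtain ⟨h3, _⟩ := C.clo_pair hc0 hc
        have h4 := C.clo_zero
        have h5 : clo K (bb h) c = K - c := by
          unfold clo
          omega
        have h6 : (0 : ℤ) ≤ (clo K (bb h) 0 : ℤ) - clo K (bb h) c := by omega
        have h7 : (clo K (bb h) 0 : ℤ) - clo K (bb h) c + 1 ≤ (bb h 0 : ℤ) - bb h c := by omega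
        nlinarith
      linarith
    linarith

theorem sq_sum_le (n : ℕ) : ∑ k ∈ range n, k * k + (if 2 ≤ n then 1 else 0) ≤
    ∑ k ∈ range n, k * (k + 1) := by
  induction n with
  | zero => simp
  | succ n ih =>
    rw [sum_range_succ, sum_range_succ]
    have : n * (n + 1) = n * n + n := by ring
    split_ifs at * <;> omega

/-- the closure bound -/
theorem closure_bound (C : Cl m h K g) (ρ : ℕ)
    (hρ : 2 * ∑ a ∈ range m, ∑ j ∈ range (h 0 0), h a j = sl m (clo K (bb h)) + 2 * ρ) :
    ∃ n P : ℕ, (n = 0 ∨ n + g + (K - m) ≤ m) ∧ P = min (n + g + (K - m)) m ∧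
      vv m (bb h) + 2 * ∑ a ∈ range m, ∑ j ∈ range (h 0 0), eps h a j * WW m h a j +
        2 * (∑ k ∈ range n, k * k + (if 2 ≤ n ∧ m < K then 1 else 0)) ≤
      vv m (clo K (bb h)) + 2 * (P * ρ) := by
  have H := C.arr
  have hcol := two_colength H
  -- the part below the raised staircase
  have hSB : ∀ a ∈ range m, 2 * ∑ j ∈ range (h 0 0), (eps h a j - AA K h a j) +
      bb h a * (bb h a + 1) ≤ clo K (bb h) a * (clo K (bb h) a + 1) := by
    intro a _
    have h1 : ∑ j ∈ range (h 0 0), (eps h a j - AA K h a j) ≤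
        bb h a * (clo K (bb h) a - bb h a) := by
      calc ∑ j ∈ range (h 0 0), (eps h a j - AA K h a j)
          ≤ ∑ j ∈ range (h 0 0), (if j < bb h a then clo K (bb h) a - bb h a else 0) := by
            apply sum_le_sum
            intro j _
            have := eps_sub_AA H K a j
            omega
        _ ≤ _ := by
            rw [← sum_filter, sum_const, smul_eq_mul]
            apply Nat.mul_le_mul_right
            refine (card_le_card (t := range (bb h a)) ?_).trans (card_range _).le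
            intro x hx
            rw [mem_filter] at hx
            exact mem_range.mpr hx.2
    have h2 : bb h a ≤ clo K (bb h) a := le_max_left _ _
    obtain ⟨d, hd⟩ := Nat.exists_eq_add_of_le h2
    rw [hd, Nat.add_sub_cancel_left] at h1
    rw [hd]
    have h3 : (bb h a + d) * (bb h a + d + 1) = bb h a * (bb h a + 1) + 2 * (bb h a * d) +
      d * (d + 1) := by ring
    rw [h3]
    omega
  have hSB' : 2 * ∑ a ∈ range m, ∑ j ∈ range (h 0 0), (eps h a j - AA K h a j) +
      sl m (bb h) ≤ sl m (clo K (bb h)) := by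
    unfold sl
    rw [mul_sum, ← sum_add_distrib]
    exact sum_le_sum hSB
  have hSE : ∑ a ∈ range m, ∑ j ∈ range (h 0 0), eps h a j =
      ∑ a ∈ range m, ∑ j ∈ range (h 0 0), AA K h a j +
      ∑ a ∈ range m, ∑ j ∈ range (h 0 0), (eps h a j - AA K h a j) := by
    rw [← sum_add_distrib]
    apply sum_congr rfl
    intro a _
    rw [← sum_add_distrib]
    apply sum_congr rfl
    intro j _
    have := AA_le_eps K h a j
    omega
  have hSEW : ∑ a ∈ range m, ∑ j ∈ range (h 0 0), eps h a j * WW m h a j ≤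
      ∑ a ∈ range m, ∑ j ∈ range (h 0 0), AA K h a j * WW m h a j +
      m * ∑ a ∈ range m, ∑ j ∈ range (h 0 0), (eps h a j - AA K h a j) := by
    rw [mul_sum, ← sum_add_distrib]
    apply sum_le_sum
    intro a ha
    rw [mem_range] at ha
    rw [mul_sum, ← sum_add_distrib]
    apply sum_le_sum
    intro j _
    have h1 := AA_le_eps K h a j
    have h2 : WW m h a j ≤ m := WW_le_m ha.le
    obtain ⟨d, hd⟩ := Nat.exists_eq_add_of_le h1
    rw [hd, Nat.add_sub_cancel_left, add_mul]
    have h3 := Nat.mul_le_mul_left d h2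
    rw [mul_comm m d]
    omega
  obtain ⟨cl1, cl2⟩ := closure_ineq C
  generalize hSEd : ∑ a ∈ range m, ∑ j ∈ range (h 0 0), eps h a j = SE at *
  generalize hSBd : ∑ a ∈ range m, ∑ j ∈ range (h 0 0), (eps h a j - AA K h a j) = SB at *
  generalize hSEWd : ∑ a ∈ range m, ∑ j ∈ range (h 0 0), eps h a j * WW m h a j = SEW at *
  -- main computation, depending on the slack
  have main : ∀ δ slack : ℕ, (δ = 0 ∨ (δ = 1 ∧ m < K ∧ ∀ a, a < m → K - a ≤ bb h a)) →
      ((vv m (bb h) : ℤ) + m * (sl m (clo K (bb h)) : ℤ) + 2 * slack ≤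
      vv m (clo K (bb h)) + m * (sl m (bb h) : ℤ)) →
      (∀ n : ℕ, ∑ k ∈ range n, k * k + (if 2 ≤ n ∧ m < K then 1 else 0) ≤
        ∑ k ∈ range n, k * (k + δ) + slack) →
      ∃ n P : ℕ, (n = 0 ∨ n + g + (K - m) ≤ m) ∧ P = min (n + g + (K - m)) m ∧
        vv m (bb h) + 2 * SEW +
          2 * (∑ k ∈ range n, k * k + (if 2 ≤ n ∧ m < K then 1 else 0)) ≤
        vv m (clo K (bb h)) + 2 * (P * ρ) := by
    intro δ slack hδ hsl hc
    obtain ⟨n, P, hn, hP, hA⟩ := AA_bound C δ hδ
    refine ⟨n, P, hn, hP, ?_⟩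
    have hc' := hc n
    generalize ∑ k ∈ range n, k * k + (if 2 ≤ n ∧ m < K then 1 else 0) = c1 at *
    generalize ∑ k ∈ range n, k * (k + δ) = c0 at *
    generalize ∑ a ∈ range m, ∑ j ∈ range (h 0 0), AA K h a j * WW m h a j = SAW at *
    generalize ∑ a ∈ range m, ∑ j ∈ range (h 0 0), AA K h a j = SA at *
    have hPm : P ≤ m := by omega
    have hx : (0 : ℤ) ≤ (sl m (clo K (bb h)) : ℤ) - sl m (bb h) - 2 * SB := by
      have : ((2 * SB + sl m (bb h) : ℕ) : ℤ) ≤ (sl m (clo K (bb h)) : ℕ) := by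
        exact_mod_cast hSB'
      push_cast at this
      linarith
    have hSA : (2 * SA : ℤ) = (sl m (clo K (bb h)) : ℤ) - sl m (bb h) - 2 * SB + 2 * ρ := by
      have h1 : ((2 * SE + sl m (bb h) : ℕ) : ℤ) = ((sl m (clo K (bb h)) + 2 * ρ : ℕ) : ℤ) := by
        congr 1
        omega
      have h2 : (SE : ℤ) = SA + SB := by exact_mod_cast hSE
      push_cast at h1
      linarith
    have hPx := mul_le_mul_of_nonneg_right (show (P : ℤ) ≤ m by exact_mod_cast hPm) hx
    have h3 : (SEW : ℤ) ≤ SAW + m * SB := by exact_mod_cast hSEW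
    have h4 : (SAW : ℤ) + c0 ≤ P * SA := by exact_mod_cast hA
    have h5 : (c1 : ℤ) ≤ c0 + slack := by exact_mod_cast hc'
    have h6 : 2 * ((P : ℤ) * SA) = P * ((sl m (clo K (bb h)) : ℤ) - sl m (bb h) - 2 * SB) +
        2 * (P * ρ) := by
      linear_combination (P : ℤ) * hSA
    zify
    linarith
  by_cases hbb : ∀ a, a < m → K - a ≤ bb h a
  · by_cases hmK : m < K
    · apply main 1 0 (Or.inr ⟨rfl, hmK, hbb⟩) (by simpa using cl1)
      intro n
      have := sq_sum_le n
      split_ifs at * <;> omega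
    · apply main 0 0 (Or.inl rfl) (by simpa using cl1)
      intro n
      simp [hmK]
  · push Not at hbb
    apply main 0 1 (Or.inl rfl) (by simpa using cl2 hbb)
    intro n
    simp only [add_zero]
    split_ifs <;> omega

end Pool.Agent.MP_74475a_ag.N3
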