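import Mathlib

/-!
Three variables: integer inequalities.
-/

namespace Pool.Agent.MP_74475a_ag.N3

/-- twice the gain for `g = 0` at the minimal value of the sum of the entries -/
def R2 (x y i : ℤ) : ℤ :=
  i * x ^ 2 - i * x + 2 * i * x * y + 3 * i ^ 2 - 3 * i + y * x ^ 2 + 3 * y * x + 2 * x * y ^ 2

/-- twice the largest possible excess -/
def ZZ (x y i : ℤ) : ℤ :=
  y ^ 2 + 3 * y + 2 * i * x + 2 * i * y + i - i ^ 2 + 2 * x

/-- the discriminant form -/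
def Th (n y d : ℤ) : ℤ :=
  4 * (n + y + 2) * (3 * ((n + y + 1) * y ^ 2 + y * ((n + y) ^ 2 + 3) -
    2 * (n + y) * (n + y - 1)) + (n - 1) * n * (2 * n - 1) + 6 * d) -
    3 * ((n + y) ^ 2 + 2 - 2 * y) ^ 2

theorem Th_pos0 (n y : ℤ) (hn : 0 ≤ n) (hy : 2 ≤ y) : 0 < Th n y 0 := by
  obtain ⟨z, rfl⟩ : ∃ z, y = z + 2 := ⟨y - 2, by ring⟩
  have hz : 0 ≤ z := by omega
  have e : Th n (z + 2) 0 = 48*n*z^3 + 30*n^2*z^2 + 8*n^3*z + 5*n^4 + 21*z^4 + 324*n*z^2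
      + 72*n^2*z - 4*n^3 + 216*z^3 + 688*n*z - 32*n^2 + 804*z^2 + 520*n + 1440*z + 1044 := by
    unfold Th
    ring
  rw [e]
  have h1 : 0 ≤ 48*n*z^3 + 30*n^2*z^2 + 8*n^3*z + 21*z^4 + 324*n*z^2 + 72*n^2*z + 216*z^3 +
    688*n*z + 804*z^2 + 1440*z := by positivity
  have h2 : 0 < 5*n^4 - 4*n^3 - 32*n^2 + 520*n + 1044 := by
    nlinarith [sq_nonneg (n^2 - n), sq_nonneg (n^2 - 4), mul_nonneg hn hn,
      mul_nonneg (mul_nonneg hn hn) hn, sq_nonneg (n - 3)]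
  linarith

theorem Th_pos1 (n : ℤ) (hn : 2 ≤ n) : 0 < Th n 1 1 := by
  obtain ⟨k, rfl⟩ : ∃ k, n = k + 2 := ⟨n - 2, by ring⟩
  have hk : 0 ≤ k := by omega
  have e : Th (k + 2) 1 1 = 5*k^4 + 28*k^3 - 26*k^2 - 148*k + 237 := by
    unfold Th
    ring
  rw [e]
  rcases lt_or_ge k 3 with h | h
  · interval_cases k <;> norm_num
  · nlinarith [mul_nonneg hk hk, mul_nonneg (mul_nonneg hk hk) hk, mul_nonneg hk (sub_nonneg.mpr h),
      mul_nonneg (mul_nonneg hk hk) (sub_nonneg.mpr h),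
      mul_nonneg (mul_nonneg (mul_nonneg hk hk) hk) (sub_nonneg.mpr h)]

theorem Th_pos (n y d : ℤ) (hn : 0 ≤ n) (hy : 1 ≤ y) (hd : 0 ≤ d) (hd2 : 2 ≤ n → 1 ≤ d) :
    0 < Th n y d := by
  have emono : ∀ d', d' ≤ d → Th n y d' ≤ Th n y d := by
    intro d' h
    have : Th n y d - Th n y d' = 24 * (n + y + 2) * (d - d') := by
      unfold Th
      ring
    have h2 : 0 ≤ 24 * (n + y + 2) * (d - d') :=
      mul_nonneg (by linarith) (by linarith)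
    linarith
  rcases lt_or_ge y 2 with h | h
  · have hy1 : y = 1 := by omega
    subst hy1
    rcases lt_or_ge n 2 with h' | h'
    · refine lt_of_lt_of_le ?_ (emono 0 hd)
      interval_cases n
      · norm_num [Th]
      · norm_num [Th]
    · exact lt_of_lt_of_le (Th_pos1 n h') (emono 1 (hd2 h'))
  · exact lt_of_lt_of_le (Th_pos0 n y hn h) (emono 0 hd)

/-- case `x = n + y` -/
theorem numA (n y i d : ℤ) (hn : 0 ≤ n) (hy : 1 ≤ y) (hd : 0 ≤ d) (hd2 : 2 ≤ n → 1 ≤ d) :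
    0 < 3 * R2 (n + y) y i - 3 * (n + y - 1) * ZZ (n + y) y i +
      (n - 1) * n * (2 * n - 1) + 6 * d := by
  have hT := Th_pos n y d hn hy hd hd2
  have e : 12 * (n + y + 2) * (3 * R2 (n + y) y i - 3 * (n + y - 1) * ZZ (n + y) y i +
      (n - 1) * n * (2 * n - 1) + 6 * d) =
      (6 * (n + y + 2) * i - 3 * ((n + y) ^ 2 + 2 - 2 * y)) ^ 2 + 3 * Th n y d := by
    unfold R2 ZZ Th
    ring
  have h1 : 0 < 12 * (n + y + 2) * (3 * R2 (n + y) y i - 3 * (n + y - 1) * ZZ (n + y) y i +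
      (n - 1) * n * (2 * n - 1) + 6 * d) := by
    rw [e]
    have := sq_nonneg (6 * (n + y + 2) * i - 3 * ((n + y) ^ 2 + 2 - 2 * y))
    linarith
  exact (mul_pos_iff_of_pos_left (by linarith)).mp h1

theorem ZZ_nonneg (x y i : ℤ) (hi : 0 ≤ i) (hx : i ≤ x) (hy : 0 ≤ y) : 0 ≤ ZZ x y i := by
  obtain ⟨s, rfl⟩ : ∃ s, x = i + s := ⟨x - i, by ring⟩
  have hs : 0 ≤ s := by omega
  have e : ZZ (i + s) y i = y ^ 2 + 3 * y + i ^ 2 + 2 * i * s + 2 * i * y + 3 * i + 2 * s := by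
    unfold ZZ
    ring
  rw [e]
  positivity

/-- lifting in the number of levels -/
theorem x_lift (x t y i p : ℤ) :
    R2 (x + t) y i - p * ZZ (x + t) y i = R2 x y i - p * ZZ x y i +
      t * (2 * i * x + 2 * i * y + 2 * x * y + 4 * y + 2 * y ^ 2 - p * (2 * i + 2)) +
      (i + y) * (t * (t - 1)) := by
  unfold R2 ZZ
  ring

theorem mul_pred_nonneg (t : ℤ) (ht : 0 ≤ t) : 0 ≤ t * (t - 1) := by
  rcases eq_or_lt_of_le ht with h | h
  · rw [← h]; norm_num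
  · exact mul_nonneg ht (by omega)

/-- the case `g = 0` -/
theorem numD0 (x n y i d : ℤ) (hn : 0 ≤ n) (hy : 1 ≤ y) (hi : 0 ≤ i) (hd : 0 ≤ d)
    (hd2 : 2 ≤ n → 1 ≤ d) (hnx : n + y ≤ x) (hix : i + 1 ≤ x) :
    0 < 3 * (R2 x y i - (n + y - 1) * ZZ x y i) + (n - 1) * n * (2 * n - 1) + 6 * d := by
  rcases le_or_gt (i + 1) (n + y) with h | h
  · obtain ⟨t, rfl⟩ : ∃ t, x = n + y + t := ⟨x - (n + y), by ring⟩
    have ht : 0 ≤ t := by omega
    rw [x_lift]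
    have h1 := numA n y i d hn hy hd hd2
    have h2 : 0 ≤ t * (2 * i * (n + y) + 2 * i * y + 2 * (n + y) * y + 4 * y + 2 * y ^ 2 -
        (n + y - 1) * (2 * i + 2)) := by
      apply mul_nonneg ht
      have e : 2 * i * (n + y) + 2 * i * y + 2 * (n + y) * y + 4 * y + 2 * y ^ 2 -
        (n + y - 1) * (2 * i + 2) = 2 * i * y + 2 * (n + y) * (y - 1) + 4 * y + 2 * y ^ 2 +
          2 * i + 2 := by ring
      rw [e]
      have h3 : 0 ≤ 2 * i * y := by positivity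
      have h4 : 0 ≤ 2 * (n + y) * (y - 1) := mul_nonneg (by linarith) (by linarith)
      have h5 : 0 ≤ 2 * y ^ 2 := by positivity
      linarith
    have h3 : 0 ≤ (i + y) * (t * (t - 1)) :=
      mul_nonneg (by linarith) (mul_pred_nonneg t ht)
    linarith
  · obtain ⟨t, rfl⟩ : ∃ t, x = i + 1 + t := ⟨x - (i + 1), by ring⟩
    have ht : 0 ≤ t := by omega
    rw [x_lift]
    have hZ := ZZ_nonneg (i + 1) y i hi (by omega) (by omega)
    have h1 : (n + y - 1) * ZZ (i + 1) y i ≤ (i - 1) * ZZ (i + 1) y i :=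
      mul_le_mul_of_nonneg_right (by omega) hZ
    have e1 : R2 (i + 1) y i - (i - 1) * ZZ (i + 1) y i =
        i*y^2 + i^2*y + 6*i*y + 3*y^2 + 7*y + 2 := by
      unfold R2 ZZ
      ring
    have h1' : 0 < i*y^2 + i^2*y + 6*i*y + 3*y^2 + 7*y + 2 := by positivity
    have h2 : 0 ≤ t * (2 * i * (i + 1) + 2 * i * y + 2 * (i + 1) * y + 4 * y + 2 * y ^ 2 -
        (n + y - 1) * (2 * i + 2)) := by
      apply mul_nonneg ht
      have h3 : (n + y - 1) * (2 * i + 2) ≤ (i - 1) * (2 * i + 2) :=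
        mul_le_mul_of_nonneg_right (by omega) (by omega)
      have h4 : 0 ≤ 2 * i * y + 2 * (i + 1) * y + 4 * y + 2 * y ^ 2 := by positivity
      have e2 : (i - 1) * (2 * i + 2) = 2 * i * (i + 1) - 2 * i - 2 := by ring
      linarith
    have h3 : 0 ≤ (i + y) * (t * (t - 1)) :=
      mul_nonneg (by linarith) (mul_pred_nonneg t ht)
    have h4 : 0 ≤ (n - 1) * n * (2 * n - 1) := by
      rcases eq_or_lt_of_le hn with h5 | h5
      · rw [← h5]; norm_num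
      · exact mul_nonneg (mul_nonneg (by omega) hn) (by omega)
    linarith

/-- twice the gain at the minimal value of the sum of the entries -/
def R2f (m y i g : ℤ) : ℤ :=
  i * m ^ 2 - i * m + 2 * i * m * y + 6 * i * g + 3 * i ^ 2 - 3 * i + y * m ^ 2 + 3 * y * m +
    2 * m * y ^ 2 + 2 * g * y

theorem g_lift (x g y i p : ℤ) :
    R2f (x + g) y i g - (p + g) * ZZ x y i = R2 x y i - p * ZZ x y i +
      g * (5 * i + 2 * y * x + 3 * y + y ^ 2 + i ^ 2 - 2 * x) + (i + y) * (g * (g - 1)) := by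
  unfold R2f R2 ZZ
  ring

theorem g_lift_le (x g y i p : ℤ) (hg : 0 ≤ g) (hy : 1 ≤ y) (hi : 0 ≤ i) (hx : 0 ≤ x) :
    R2 x y i - p * ZZ x y i ≤ R2f (x + g) y i g - (p + g) * ZZ x y i := by
  rw [g_lift]
  have h1 : 0 ≤ g * (5 * i + 2 * y * x + 3 * y + y ^ 2 + i ^ 2 - 2 * x) := by
    apply mul_nonneg hg
    have h2 : 0 ≤ 2 * (y - 1) * x := mul_nonneg (by linarith) hx
    have h3 : 0 ≤ 5 * i + 3 * y + y ^ 2 + i ^ 2 := by positivity
    linarith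
  have h3 : 0 ≤ (i + y) * (g * (g - 1)) :=
    mul_nonneg (by linarith) (mul_pred_nonneg g hg)
  linarith

/-- main numerical inequality -/
theorem numD (m g n y i d : ℤ) (hn : 0 ≤ n) (hy : 1 ≤ y) (hi : 0 ≤ i) (hg : 0 ≤ g)
    (hd : 0 ≤ d) (hd2 : 2 ≤ n → 1 ≤ d) (hnx : n + g + y ≤ m) (hix : i + g + 1 ≤ m) :
    0 < 3 * (R2f m y i g - (n + g + y - 1) * ZZ (m - g) y i) + (n - 1) * n * (2 * n - 1) +
      6 * d := by
  obtain ⟨x, rfl⟩ : ∃ x, m = x + g := ⟨m - g, by ring⟩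
  have h1 := numD0 x n y i d hn hy hi hd hd2 (by omega) (by omega)
  have h2 := g_lift_le x g y i (n + y - 1) hg hy hi (by omega)
  have e1 : n + g + y - 1 = n + y - 1 + g := by ring
  have e2 : x + g - g = x := by ring
  rw [e1, e2]
  linarith

/-- the inequality for `P = m` -/
theorem numE (m g y i : ℤ) (hi : 0 ≤ i) (hg : 0 ≤ g)
    (hym : m ≤ g + y) (hix : i + g + 1 ≤ m) :
    0 < R2f m y i g - (m - 1) * ZZ (m - g) y i := by
  obtain ⟨x, rfl⟩ : ∃ x, m = x + g := ⟨m - g, by ring⟩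
  have h2 := g_lift_le x g y i (x - 1) hg (by omega) hi (by omega)
  have e1 : x + g - 1 = x - 1 + g := by ring
  have e2 : x + g - g = x := by ring
  rw [e1, e2]
  obtain ⟨s, rfl⟩ : ∃ s, x = i + 1 + s := ⟨x - (i + 1), by ring⟩
  obtain ⟨t, rfl⟩ : ∃ t, y = i + 1 + s + t := ⟨y - (i + 1 + s), by ring⟩
  have hs : 0 ≤ s := by omega
  have ht : 0 ≤ t := by omega
  have e3 : R2 (i + 1 + s) (i + 1 + s + t) i - (i + 1 + s - 1) * ZZ (i + 1 + s)
      (i + 1 + s + t) i = 6*i*s*t + 5*i*s^2 + i*t^2 + 5*i^2*s + 3*i^2*t + 2*i^3 + s*t^2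
      + 3*s^2*t + 2*s^3 + 10*i*s + 10*i*t + 8*i^2 + 8*s*t + 5*s^2 + 2*t^2 + 8*i + 9*s
      + 8*t + 6 := by
    unfold R2 ZZ
    ring
  have h3 : 0 < 6*i*s*t + 5*i*s^2 + i*t^2 + 5*i^2*s + 3*i^2*t + 2*i^3 + s*t^2
      + 3*s^2*t + 2*s^3 + 10*i*s + 10*i*t + 8*i^2 + 8*s*t + 5*s^2 + 2*t^2 + 8*i + 9*s
      + 8*t + 6 := by positivity
  linarith

end Pool.Agent.MP_74475a_ag.N3
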