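import Mathlib
import Pool.Agent.MP_74475a_ag.N3.Clos2
import Pool.Agent.MP_74475a_ag.N3.Num

/-!
Three variables: modifications of a decreasing sequence and the gain of each.
-/

namespace Pool.Agent.MP_74475a_ag.N3

open Finset

variable {m K g : ℕ} {e : ℕ → ℕ}

/-- raise the entries `g, …, g + i - 1` by one -/
def bump (g i : ℕ) (e : ℕ → ℕ) (a : ℕ) : ℕ := if g ≤ a ∧ a < g + i then e a + 1 else e a

/-- new entry at position `m` -/
def ext (m y : ℕ) (e : ℕ → ℕ) (a : ℕ) : ℕ := if a = m then y else e a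

/-- lower the entry `c` by one -/
def low (c : ℕ) (e : ℕ → ℕ) (a : ℕ) : ℕ := if a = c then e a - 1 else e a

theorem sum_bump (f d : ℕ → ℕ → ℕ) (hf : ∀ a x, f a (x + 1) = f a x + d a x) (g i : ℕ)
    (e : ℕ → ℕ) (hgi : g + i ≤ m) :
    ∑ a ∈ range m, f a (bump g i e a) =
      ∑ a ∈ range m, f a (e a) + ∑ k ∈ range i, d (g + k) (e (g + k)) := by
  have h1 : ∀ a ∈ range m, f a (bump g i e a) =
      f a (e a) + (if g ≤ a ∧ a < g + i then d a (e a) else 0) := by
    intro a _
    unfold bump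
    split_ifs
    · exact hf _ _
    · rfl
  rw [sum_congr rfl h1, sum_add_distrib, ← sum_filter]
  congr 1
  have h2 : (range m).filter (fun a => g ≤ a ∧ a < g + i) = Ico g (g + i) := by
    ext a
    rw [mem_filter, mem_range, mem_Ico]
    omega
  rw [h2, sum_Ico_eq_sum_range, Nat.add_sub_cancel_left]

theorem bet_bump (g i : ℕ) (e : ℕ → ℕ) (hgi : g + i ≤ m) :
    bet m (bump g i e) = bet m e + i := by
  have := sum_bump (m := m) (fun _ x => x) (fun _ _ => 1) (fun _ _ => rfl) g i e hgi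
  unfold bet
  rw [this]
  simp

theorem ae_bump (g i : ℕ) (e : ℕ → ℕ) (hgi : g + i ≤ m) :
    ae m (bump g i e) = ae m e + ∑ k ∈ range i, (g + k) :=
  sum_bump (m := m) (fun a x => a * x) (fun a _ => a) (fun a x => by ring) g i e hgi

theorem sl_bump (g i : ℕ) (e : ℕ → ℕ) (hgi : g + i ≤ m) :
    sl m (bump g i e) = sl m e + ∑ k ∈ range i, 2 * (e (g + k) + 1) :=
  sum_bump (m := m) (fun _ x => x * (x + 1)) (fun _ x => 2 * (x + 1)) (fun a x => by ring)
    g i e hgi

theorem sum_ext (f : ℕ → ℕ → ℕ) (m y : ℕ) (e : ℕ → ℕ) :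
    ∑ a ∈ range (m + 1), f a (ext m y e a) = ∑ a ∈ range m, f a (e a) + f m y := by
  rw [sum_range_succ]
  congr 1
  · apply sum_congr rfl
    intro a ha
    rw [mem_range] at ha
    unfold ext
    rw [if_neg (by omega)]
  · unfold ext
    rw [if_pos rfl]

theorem bet_ext (m y : ℕ) (e : ℕ → ℕ) : bet (m + 1) (ext m y e) = bet m e + y :=
  sum_ext (fun _ x => x) m y e

theorem ae_ext (m y : ℕ) (e : ℕ → ℕ) : ae (m + 1) (ext m y e) = ae m e + m * y :=
  sum_ext (fun a x => a * x) m y e

theorem sl_ext (m y : ℕ) (e : ℕ → ℕ) : sl (m + 1) (ext m y e) = sl m e + y * (y + 1) :=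
  sum_ext (fun _ x => x * (x + 1)) m y e

theorem sum_low (f d : ℕ → ℕ → ℕ) (hf : ∀ a x, f a (x + 1) = f a x + d a x) {c : ℕ}
    (hc : c < m) (hpos : 0 < e c) :
    ∑ a ∈ range m, f a (low c e a) + d c (e c - 1) = ∑ a ∈ range m, f a (e a) := by
  rw [← sum_erase_add _ _ (mem_range.mpr hc), ← sum_erase_add (range m) (fun a => f a (e a))
    (mem_range.mpr hc)]
  have h1 : ∑ x ∈ (range m).erase c, f x (low c e x) = ∑ x ∈ (range m).erase c, f x (e x) := by
    apply sum_congr rfl
    intro x hx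
    unfold low
    rw [if_neg (ne_of_mem_erase hx)]
  rw [h1, add_assoc]
  congr 1
  unfold low
  rw [if_pos rfl, ← hf, Nat.sub_add_cancel hpos]

theorem bet_low {c : ℕ} (hc : c < m) (hpos : 0 < e c) : bet m (low c e) + 1 = bet m e :=
  sum_low (fun _ x => x) (fun _ _ => 1) (fun _ _ => rfl) hc hpos

theorem ae_low {c : ℕ} (hc : c < m) (hpos : 0 < e c) : ae m (low c e) + c = ae m e :=
  sum_low (fun a x => a * x) (fun a _ => a) (fun a x => by ring) hc hpos

theorem sl_low {c : ℕ} (hc : c < m) (hpos : 0 < e c) : sl m (low c e) + 2 * e c = sl m e := by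
  have := sum_low (m := m) (e := e) (fun _ x => x * (x + 1)) (fun _ x => 2 * (x + 1))
    (fun a x => by ring) hc hpos
  rw [Nat.sub_add_cancel hpos] at this
  exact this

theorem sl_even (M : ℕ) (e : ℕ → ℕ) : ∃ k, sl M e = 2 * k := by
  induction M with
  | zero => exact ⟨0, by simp [sl]⟩
  | succ M ih =>
    obtain ⟨k, hk⟩ := ih
    obtain ⟨k', hk'⟩ := Nat.even_mul_succ_self (e M)
    refine ⟨k + k', ?_⟩
    unfold sl at hk ⊢
    rw [sum_range_succ, hk, hk']
    ring

/-- a staircase with a higher beginning -/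
structure St (m K g : ℕ) (e : ℕ → ℕ) : Prop where
  hK : m ≤ K
  hg : g < m
  up : ∀ a, a < g → K - a < e a
  dn : ∀ a, g ≤ a → a < m → e a = K - a
  dec : ∀ a, a + 1 < m → e (a + 1) < e a

/-- existence of a good sequence of length `m + 1` -/
def Bet (m l : ℕ) (U : ℤ) : Prop :=
  ∃ e : ℕ → ℕ, ∃ r : ℕ, (∀ a, a < m → e (a + 1) < e a) ∧ 0 < e m ∧
    2 * l = sl (m + 1) e + 2 * r ∧ U < (vv (m + 1) e : ℤ) + 2 * r

theorem two_sum_range_sub (K m : ℕ) (h : m ≤ K) :
    2 * ∑ a ∈ range m, (K - a) + m * m = 2 * (K * m) + m := by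
  induction m with
  | zero => simp
  | succ m ih =>
    rw [sum_range_succ]
    have h1 := ih (by omega)
    obtain ⟨k, hk⟩ := Nat.exists_eq_add_of_le (show m ≤ K by omega)
    have h2 : K - m = k := by omega
    rw [h2]
    have h5 : 2 * (K * (m + 1)) = 2 * (K * m) + 2 * K := by ring
    have h6 : (m + 1) * (m + 1) = m * m + 2 * m + 1 := by ring
    omega

theorem St.bet_ge (S : St m K g e) :
    (m : ℤ) * m + m + 2 * m * ((K : ℤ) - m) + 2 * g ≤ 2 * bet m e := by
  have h1 : ∑ a ∈ range m, ((K - a) + if a < g then 1 else 0) ≤ bet m e := by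
    unfold bet
    apply sum_le_sum
    intro a ha
    rw [mem_range] at ha
    split_ifs with h2
    · have := S.up a h2
      omega
    · have := S.dn a (by omega) ha
      omega
  have h2 : ∑ a ∈ range m, (if a < g then 1 else 0) = g := by
    rw [← card_filter]
    have h3 : (range m).filter (fun a => a < g) = range g := by
      ext a
      rw [mem_filter, mem_range, mem_range]
      have := S.hg
      omega
    rw [h3, card_range]
  rw [sum_add_distrib, h2] at h1
  have h3 := two_sum_range_sub K m S.hK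
  have h4 : 2 * (K * m) + m + 2 * g ≤ 2 * bet m e + m * m := by omega
  have h5 : (2 * ((K : ℤ) * m) + m + 2 * g) ≤ 2 * bet m e + m * m := by exact_mod_cast h4
  linarith

theorem two_sum_g (g i : ℕ) : (2 * (∑ k ∈ range i, (g + k) : ℕ) : ℤ) = 2 * i * g + i * (i - 1) := by
  induction i with
  | zero => simp
  | succ i ih =>
    rw [sum_range_succ]
    push_cast at ih ⊢
    linear_combination ih

theorem St.sum_e (S : St m K g e) (i : ℕ) (hi : g + i ≤ m) :
    ((∑ k ∈ range i, 2 * (e (g + k) + 1) : ℕ) : ℤ) =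
      2 * i * ((K : ℤ) - g + 1) - i * (i - 1) := by
  induction i with
  | zero => simp
  | succ i ih =>
    have h1 := ih (by omega)
    rw [sum_range_succ]
    have h2 := S.dn (g + i) (by omega) (by omega)
    have h3 : (e (g + i) : ℤ) = K - g - i := by
      have := S.hK
      rw [h2]
      omega
    push_cast at h1 ⊢
    rw [h3]
    linear_combination h1

theorem sum_sq (n : ℕ) : (6 * (∑ k ∈ range n, k * k : ℕ) : ℤ) = (n - 1) * n * (2 * n - 1) := by
  induction n with
  | zero => simp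
  | succ n ih =>
    rw [sum_range_succ]
    push_cast at ih ⊢
    linear_combination ih

/-- the main case -/
theorem caseD (S : St m K g e) {ρ l n P : ℕ} (hl : 2 * l = sl m e + 2 * ρ)
    (hρ : 2 * ρ < ∑ k ∈ range (m - g), 2 * (e (g + k) + 1))
    (hy : m < K) (hρ2 : (K - m) * (K - m + 1) ≤ 2 * ρ)
    (hn : n = 0 ∨ n + g + (K - m) ≤ m) (hP : P = min (n + g + (K - m)) m) :
    Bet m l ((vv m e : ℤ) + 2 * (P * ρ) -
      2 * ((∑ k ∈ range n, k * k + (if 2 ≤ n ∧ m < K then 1 else 0) : ℕ) : ℤ)) := by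
  classical
  have hex : ∃ j, ¬ ((K - m) * (K - m + 1) + ∑ k ∈ range j, 2 * (e (g + k) + 1) ≤ 2 * ρ) :=
    ⟨m - g, by omega⟩
  obtain ⟨j0, hj0⟩ : ∃ j0, j0 = Nat.find hex := ⟨_, rfl⟩
  have h1 := Nat.find_spec hex
  rw [← hj0] at h1
  have h2 : j0 ≤ m - g := by
    rw [hj0]
    exact Nat.find_min' hex (by omega)
  have h3 : j0 ≠ 0 := by
    intro h0
    rw [h0] at h1
    simp at h1
    omega
  obtain ⟨i, hi⟩ : ∃ i, j0 = i + 1 := ⟨j0 - 1, by omega⟩
  have h4 : (K - m) * (K - m + 1) + ∑ k ∈ range i, 2 * (e (g + k) + 1) ≤ 2 * ρ := by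
    have := Nat.find_min hex (m := i) (by omega)
    omega
  rw [hi, not_le] at h1
  have hgi : g + i + 1 ≤ m := by
    have := S.hg
    omega
  obtain ⟨y, hy'⟩ : ∃ y, y = K - m := ⟨_, rfl⟩
  rw [← hy'] at h1 h4 hρ2 hn hP
  have hKm : K = m + y := by omega
  have hsl : sl (m + 1) (ext m y (bump g i e)) = sl m e +
      ∑ k ∈ range i, 2 * (e (g + k) + 1) + y * (y + 1) := by
    rw [sl_ext, sl_bump g i e (by omega)]
  refine ⟨ext m y (bump g i e),
    ρ - (∑ k ∈ range i, (e (g + k) + 1) + y * (y + 1) / 2), ?_, ?_, ?_, ?_⟩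
  · intro a ha
    have hdec : a + 1 < m → e (a + 1) < e a := S.dec a
    unfold ext bump
    rw [if_neg (by omega : a ≠ m)]
    by_cases ha1 : a + 1 = m
    · rw [if_pos ha1, if_neg (by omega)]
      have := S.dn a (by omega) ha
      omega
    · rw [if_neg ha1]
      have hd := hdec (by omega)
      by_cases hc1 : g ≤ a + 1 ∧ a + 1 < g + i
      · rw [if_pos hc1]
        by_cases hc2 : g ≤ a ∧ a < g + i
        · rw [if_pos hc2]
          omega
        · rw [if_neg hc2]
          have h5 := S.up a (by omega)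
          have h6 := S.dn (a + 1) (by omega) (by omega)
          omega
      · rw [if_neg hc1]
        split_ifs <;> omega
  · unfold ext
    rw [if_pos rfl]
    omega
  · rw [hsl]
    have h5 : ∑ k ∈ range i, 2 * (e (g + k) + 1) = 2 * ∑ k ∈ range i, (e (g + k) + 1) := by
      rw [mul_sum]
    obtain ⟨w, hw⟩ := Nat.even_mul_succ_self y
    rw [h5] at h4 ⊢
    rw [hw] at h4 ⊢
    omega
  · have hb := S.bet_ge
    have hE := S.sum_e i (by omega)
    have hE1 := S.sum_e (i + 1) (by omega)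
    have hG := two_sum_g g i
    have hsq := sum_sq n
    -- twice the rest
    have h2r : (2 * ((ρ - (∑ k ∈ range i, (e (g + k) + 1) + y * (y + 1) / 2) : ℕ) : ℤ)) =
        2 * ρ - (2 * i * ((K : ℤ) - g + 1) - i * (i - 1)) - y * (y + 1) := by
      rw [← hE]
      have h5 : ∑ k ∈ range i, 2 * (e (g + k) + 1) = 2 * ∑ k ∈ range i, (e (g + k) + 1) := by
        rw [mul_sum]
      obtain ⟨w, hw⟩ := Nat.even_mul_succ_self y
      rw [h5] at h4 ⊢
      have hw' : ((y : ℤ) * (y + 1)) = 2 * w := by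
        have : ((y * (y + 1) : ℕ) : ℤ) = ((w + w : ℕ) : ℤ) := by rw [hw]
        push_cast at this
        linarith
      rw [hw', hw]
      rw [hw] at h4
      generalize ∑ k ∈ range i, (e (g + k) + 1) = σ at *
      have h6 : (w + w) / 2 = w := by omega
      rw [h6]
      have h7 : σ + w ≤ ρ := by omega
      push_cast [Nat.cast_sub h7]
      ring
    have hvv : ((vv (m + 1) (ext m y (bump g i e)) : ℕ) : ℤ) =
        ((bet m e : ℤ) + i + y) * ((bet m e : ℤ) + i + y) + ((bet m e : ℤ) + i + y) +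
        2 * (ae m e : ℤ) + (2 * i * g + i * (i - 1)) + 2 * (m * y) := by
      unfold vv
      rw [bet_ext, ae_ext, bet_bump g i e (by omega), ae_bump g i e (by omega)]
      push_cast
      push_cast at hG
      linear_combination hG
    have hvv0 : ((vv m e : ℕ) : ℤ) = (bet m e : ℤ) * bet m e + bet m e + 2 * ae m e := by
      unfold vv
      push_cast
      ring
    -- the size of `ρ`
    have hρZ : (2 * ρ : ℤ) ≤ ZZ (m - g) y i := by
      have h5 : (2 * (ρ : ℤ)) + 1 ≤ y * (y + 1) + (∑ k ∈ range (i + 1), 2 * (e (g + k) + 1) : ℕ) := by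
        exact_mod_cast h1
      have h6 : ∃ w : ℤ, (y : ℤ) * (y + 1) + (∑ k ∈ range (i + 1), 2 * (e (g + k) + 1) : ℕ) =
          2 * w := by
        obtain ⟨w, hw⟩ := Nat.even_mul_succ_self y
        refine ⟨w + (∑ k ∈ range (i + 1), (e (g + k) + 1) : ℕ), ?_⟩
        have hw' : ((y : ℤ) * (y + 1)) = 2 * w := by
          have : ((y * (y + 1) : ℕ) : ℤ) = ((w + w : ℕ) : ℤ) := by rw [hw]
          push_cast at this
          linarith
        rw [hw']
        have h5 : ∑ k ∈ range (i + 1), 2 * (e (g + k) + 1) =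
            2 * ∑ k ∈ range (i + 1), (e (g + k) + 1) := by
          rw [mul_sum]
        rw [h5]
        push_cast
        ring
      obtain ⟨w, hw⟩ := h6
      have h7 : (2 * (ρ : ℤ)) + 2 ≤ y * (y + 1) +
          (∑ k ∈ range (i + 1), 2 * (e (g + k) + 1) : ℕ) := by
        rw [hw] at h5 ⊢
        omega
      rw [hE1] at h7
      have h8 : (y : ℤ) * (y + 1) + (2 * ((i + 1 : ℕ) : ℤ) * ((K : ℤ) - g + 1) -
          ((i + 1 : ℕ) : ℤ) * (((i + 1 : ℕ) : ℤ) - 1)) = ZZ (m - g) y i + 2 := by
        unfold ZZ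
        rw [hKm]
        push_cast
        ring
      linarith
    have hP1 : 1 ≤ P := by
      have := S.hg
      omega
    have hPρ : ((P : ℤ) - 1) * (2 * ρ) ≤ ((P : ℤ) - 1) * ZZ (m - g) y i :=
      mul_le_mul_of_nonneg_left hρZ (by omega)
    have hbb : 0 ≤ (2 * (bet m e : ℤ) - (m * m + m + 2 * m * y + 2 * g)) * (i + y) := by
      apply mul_nonneg _ (by positivity)
      rw [hKm] at hb
      push_cast at hb
      linarith
    rw [hvv, h2r, hvv0]
    generalize hd' : (if 2 ≤ n ∧ m < K then 1 else 0 : ℕ) = d at *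
    have hdpos : (0 : ℤ) ≤ d := by positivity
    have hd2 : (2 : ℤ) ≤ n → (1 : ℤ) ≤ d := by
      intro h5
      rw [if_pos ⟨by omega, hy⟩] at hd'
      omega
    -- the numerical inequality
    have hnum : 0 < 3 * (R2f m y i g - ((P : ℤ) - 1) * ZZ (m - g) y i) +
        ((n : ℤ) - 1) * n * (2 * n - 1) + 6 * d := by
      rcases Nat.lt_or_ge m (n + g + y) with h5 | h5
      · have hn0 : n = 0 := by omega
        have hPm : P = m := by omega
        have h6 := numE m g y i (by positivity) (by positivity) (by omega) (by omega)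
        rw [hPm, hn0]
        push_cast
        linarith
      · have hPm : P = n + g + y := by omega
        have h6 := numD m g n y i d (by positivity) (by omega) (by positivity) (by positivity)
          hdpos hd2 (by omega) (by omega)
        rw [hPm]
        push_cast
        linarith
    have hR : R2f m y i g = (m * m + m + 2 * m * y + 2 * g) * (i + y) + (i + y) * (i + y) +
        (i + y) + (2 * i * g + i * (i - 1)) + 2 * (m * y) -
        (2 * i * ((K : ℤ) - g + 1) - i * (i - 1)) - y * (y + 1) := by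
      unfold R2f
      rw [hKm]
      push_cast
      ring
    rw [hR] at hnum
    push_cast at hsq ⊢
    linarith [hnum, hbb, hPρ, hsq]

end Pool.Agent.MP_74475a_ag.N3
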