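import Mathlib
import Pool.Agent.MP_74475a_ag.N3.Steps

/-!
Three variables: the remaining cases of the comparison.
-/

namespace Pool.Agent.MP_74475a_ag.N3

open Finset

variable {m K g : ℕ} {e : ℕ → ℕ}

theorem Bet.mono {m l : ℕ} {U U' : ℤ} (h : Bet m l U) (hU : U' ≤ U) : Bet m l U' := by
  obtain ⟨e, r, h1, h2, h3, h4⟩ := h
  exact ⟨e, r, h1, h2, h3, lt_of_le_of_lt hU h4⟩

/-- small positive excess -/
theorem caseC (S : St m K g e) {ρ l P : ℕ} (hl : 2 * l = sl m e + 2 * ρ)
    (hρ : 1 ≤ ρ) (hρ2 : 2 * ρ < (K - m) * (K - m + 1)) (hP : P ≤ m) :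
    Bet m l ((vv m e : ℤ) + 2 * (P * ρ)) := by
  classical
  obtain ⟨y, hy'⟩ : ∃ y, y = K - m := ⟨_, rfl⟩
  have hKm : K = m + y := by
    have := S.hK
    omega
  rw [← hy'] at hρ2
  have hex : ∃ j, ¬ (j * (j + 1) ≤ 2 * ρ) := ⟨y, by omega⟩
  obtain ⟨j0, hj0⟩ : ∃ j0, j0 = Nat.find hex := ⟨_, rfl⟩
  have h1 := Nat.find_spec hex
  rw [← hj0] at h1
  have h2 : j0 ≤ y := by
    rw [hj0]
    exact Nat.find_min' hex (by omega)
  have h3 : 2 ≤ j0 := by
    by_contra hcon
    have : j0 = 0 ∨ j0 = 1 := by omega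
    rcases this with h0 | h0
    · rw [h0] at h1
      simp at h1
    · rw [h0] at h1
      omega
  obtain ⟨z, hz⟩ : ∃ z, j0 = z + 1 := ⟨j0 - 1, by omega⟩
  have h4 : z * (z + 1) ≤ 2 * ρ := by
    have := Nat.find_min hex (m := z) (by omega)
    omega
  rw [hz, not_le] at h1
  obtain ⟨w, hw⟩ := Nat.even_mul_succ_self z
  have hem : e (m - 1) = y + 1 := by
    have h5 := S.hg
    have := S.dn (m - 1) (by omega) (by omega)
    omega
  refine ⟨ext m z e, ρ - w, ?_, ?_, ?_, ?_⟩
  · intro a ha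
    unfold ext
    rw [if_neg (by omega : a ≠ m)]
    by_cases ha1 : a + 1 = m
    · rw [if_pos ha1]
      have h5 : a = m - 1 := by omega
      rw [h5, hem]
      omega
    · rw [if_neg ha1]
      exact S.dec a (by omega)
  · unfold ext
    rw [if_pos rfl]
    omega
  · rw [sl_ext, hw]
    omega
  · have hb := S.bet_ge
    have hvv : ((vv (m + 1) (ext m z e) : ℕ) : ℤ) =
        ((bet m e : ℤ) + z) * ((bet m e : ℤ) + z) + ((bet m e : ℤ) + z) +
        2 * (ae m e : ℤ) + 2 * (m * z) := by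
      unfold vv
      rw [bet_ext, ae_ext]
      push_cast
      ring
    have hvv0 : ((vv m e : ℕ) : ℤ) = (bet m e : ℤ) * bet m e + bet m e + 2 * ae m e := by
      unfold vv
      push_cast
      ring
    have h2r : (2 * ((ρ - w : ℕ) : ℤ)) = 2 * ρ - z * (z + 1) := by
      have h5 : ((z * (z + 1) : ℕ) : ℤ) = ((w + w : ℕ) : ℤ) := by rw [hw]
      push_cast at h5
      rw [h5]
      have h6 : w ≤ ρ := by omega
      push_cast [Nat.cast_sub h6]
      ring
    rw [hvv, hvv0, h2r]
    have h7 : (2 * (ρ : ℤ)) ≤ z * (z + 3) := by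
      have h8 : 2 * ρ + 1 ≤ (z + 1) * (z + 1 + 1) := by omega
      have h9 : (z + 1) * (z + 1 + 1) = z * (z + 3) + 2 := by ring
      obtain ⟨w', hw'⟩ := Nat.even_mul_succ_self (z + 1)
      have h10 : 2 * ρ + 2 ≤ (z + 1) * (z + 1 + 1) := by omega
      rw [h9] at h10
      have h11 : 2 * ρ ≤ z * (z + 3) := by omega
      exact_mod_cast h11
    have hm1 : 1 ≤ m := by
      have := S.hg
      omega
    have h8 : ((P : ℤ) - 1) * (2 * ρ) ≤ ((m : ℤ) - 1) * (z * (z + 3)) := by
      rcases Nat.eq_zero_or_pos P with h0 | h0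
      · rw [h0]
        have h9 : 0 ≤ ((m : ℤ) - 1) * (z * (z + 3)) := by
          apply mul_nonneg
          · omega
          · positivity
        push_cast
        have : (0 : ℤ) ≤ 2 * ρ := by positivity
        linarith
      · apply mul_le_mul
        · omega
        · exact h7
        · positivity
        · omega
    have h9 : 0 ≤ (z : ℤ) * (2 * (bet m e : ℤ) - (m * m + m + 2 * m * y + 2 * g)) := by
      apply mul_nonneg (by positivity)
      rw [hKm] at hb
      push_cast at hb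
      linarith
    have h10 : 0 ≤ (z : ℤ) * (2 * m * (y - (z + 1))) := by
      apply mul_nonneg (by positivity)
      apply mul_nonneg (by positivity)
      omega
    have hz1 : (1 : ℤ) ≤ z := by omega
    have h11 : 0 < (z : ℤ) * (m * m + m * z + 2 * m + z + 3 + 2 * g) := by positivity
    nlinarith [h8, h9, h10, h11]

/-- no excess -/
theorem caseB (S : St m K g e) (hK : m < K) {c : ℕ} (hc : c < m)
    (h1 : c + 1 < m → e (c + 1) + 1 < e c) (h2 : c + 1 = m → 2 < e c) {l : ℕ}
    (hl : 2 * l = sl m e) : Bet m l (vv m e : ℤ) := by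
  have hpos : 1 < e c := by
    rcases Nat.lt_or_ge (c + 1) m with h | h
    · have := h1 h
      omega
    · have := h2 (by omega)
      omega
  have hlow := sl_low (m := m) (e := e) hc (by omega)
  have hem : e (m - 1) = K - m + 1 := by
    have h5 := S.hg
    have := S.dn (m - 1) (by omega) (by omega)
    omega
  refine ⟨ext m 1 (low c e), e c - 1, ?_, ?_, ?_, ?_⟩
  · intro a ha
    unfold ext low
    rw [if_neg (by omega : a ≠ m)]
    by_cases ha1 : a + 1 = m
    · rw [if_pos ha1]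
      by_cases hac : a = c
      · rw [if_pos hac, hac]
        have := h2 (by omega)
        omega
      · rw [if_neg hac]
        have h5 : a = m - 1 := by omega
        rw [h5, hem]
        omega
    · rw [if_neg ha1]
      have hd := S.dec a (by omega)
      by_cases hac : a = c
      · rw [if_pos hac, if_neg (by omega), hac]
        have := h1 (by omega)
        omega
      · rw [if_neg hac]
        split_ifs <;> omega
  · unfold ext
    rw [if_pos rfl]
    omega
  · rw [sl_ext]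
    omega
  · have h3 := bet_low (m := m) (e := e) hc (by omega)
    have h4 := ae_low (m := m) (e := e) hc (by omega)
    have h5 : vv m e < vv (m + 1) (ext m 1 (low c e)) := by
      unfold vv
      rw [bet_ext, ae_ext, h3, ← h4]
      omega
    have h6 : ((vv m e : ℕ) : ℤ) < vv (m + 1) (ext m 1 (low c e)) := by exact_mod_cast h5
    have h7 : (0 : ℤ) ≤ 2 * ((e c - 1 : ℕ) : ℤ) := by positivity
    linarith

/-- lowering the beginning of a sequence until the size is at most `l` -/
theorem lowering {m g l : ℕ} (hgm : g ≤ m) (hst : sl (m + 1) (fun a => m + 1 - a) ≤ 2 * l) :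
    ∀ N : ℕ, ∀ e : ℕ → ℕ, bet (m + 1) e = N → (∀ a, a < m → e (a + 1) < e a) →
      (∀ a, a ≤ m → m + 1 - a ≤ e a) → (∀ a, g ≤ a → a ≤ m → e a = m + 1 - a) →
      ∃ z : ℕ, ∃ e' : ℕ → ℕ, (∀ a, a < m → e' (a + 1) < e' a) ∧
        (∀ a, a ≤ m → m + 1 - a ≤ e' a) ∧ (∀ a, g ≤ a → a ≤ m → e' a = m + 1 - a) ∧
        bet (m + 1) e' + z = bet (m + 1) e ∧ ae (m + 1) e ≤ ae (m + 1) e' + z * (g - 1) ∧
        sl (m + 1) e' ≤ 2 * l ∧
        ((z = 0 ∧ sl (m + 1) e ≤ 2 * l) ∨
          (1 ≤ z ∧ 2 * ((z - 1) * (m + 3 - g)) + 2 * l < sl (m + 1) e)) := by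
  intro N
  induction N using Nat.strong_induction_on with
  | _ N ih =>
  intro e hN hdec hge heq
  rcases Nat.lt_or_ge (2 * l) (sl (m + 1) e) with hlt | hle
  · -- lower one entry
    have hex : ∃ a, a ≤ m ∧ m + 1 - a < e a := by
      by_contra hcon
      push Not at hcon
      have : sl (m + 1) e ≤ sl (m + 1) (fun a => m + 1 - a) := by
        unfold sl
        apply sum_le_sum
        intro a ha
        rw [mem_range] at ha
        have h1 := hcon a (by omega)
        show e a * (e a + 1) ≤ (m + 1 - a) * (m + 1 - a + 1)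
        exact Nat.mul_le_mul h1 (by omega)
      omega
    -- the last such entry
    obtain ⟨c, ⟨hc1, hc2⟩, hc3⟩ : ∃ c, (c ≤ m ∧ m + 1 - c < e c) ∧
        ∀ a, c < a → a ≤ m → e a = m + 1 - a := by
      classical
      obtain ⟨a0, ha0⟩ := hex
      let s := (range (m + 1)).filter fun a => m + 1 - a < e a
      have hs : s.Nonempty := ⟨a0, by
        rw [mem_filter, mem_range]
        exact ⟨by omega, ha0.2⟩⟩
      refine ⟨s.max' hs, ?_, ?_⟩
      · have := s.max'_mem hs
        rw [mem_filter, mem_range] at this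
        exact ⟨by omega, this.2⟩
      · intro a ha1 ha2
        by_contra hne
        have h1 := hge a ha2
        have h2 : a ∈ s := by
          rw [mem_filter, mem_range]
          exact ⟨by omega, by omega⟩
        have := s.le_max' a h2
        omega
    have hcg : c < g := by
      by_contra hcon
      have := heq c (by omega) hc1
      omega
    have hpos : 0 < e c := by omega
    have b1 := bet_low (m := m + 1) (e := e) (c := c) (by omega) hpos
    have b2 := ae_low (m := m + 1) (e := e) (c := c) (by omega) hpos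
    have b3 := sl_low (m := m + 1) (e := e) (c := c) (by omega) hpos
    obtain ⟨z, e', q1, q2, q3, q4, q5, q6, q7⟩ := ih (bet (m + 1) (low c e)) (by omega)
      (low c e) rfl (by
        intro a ha
        have := hdec a ha
        unfold low
        by_cases hac : a = c
        · rw [if_pos hac, if_neg (by omega)]
          have h5 := hc3 (a + 1) (by omega) (by omega)
          subst hac
          omega
        · rw [if_neg hac]
          split_ifs <;> omega) (by
        intro a ha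
        have := hge a ha
        unfold low
        split_ifs with hac
        · subst hac
          omega
        · exact this) (by
        intro a ha1 ha2
        unfold low
        rw [if_neg (by omega)]
        exact heq a ha1 ha2)
    refine ⟨z + 1, e', q1, q2, q3, by omega, ?_, q6, ?_⟩
    · have h6 : (z + 1) * (g - 1) = z * (g - 1) + (g - 1) := by ring
      omega
    · right
      refine ⟨by omega, ?_⟩
      rw [Nat.add_sub_cancel]
      rcases q7 with ⟨hz, _⟩ | ⟨hz, hz2⟩
      · rw [hz]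
        simpa using hlt
      · obtain ⟨w, rfl⟩ : ∃ w, z = w + 1 := ⟨z - 1, by omega⟩
        rw [Nat.add_sub_cancel] at hz2
        have h7 : (w + 1) * (m + 3 - g) = w * (m + 3 - g) + (m + 3 - g) := by ring
        rw [h7]
        omega
  · exact ⟨0, e, hdec, hge, heq, rfl, by omega, hle, Or.inl ⟨rfl, hle⟩⟩

theorem low_num (m g U ρ w : ℤ) (hm : 0 ≤ m) (hg : 1 ≤ g) (hU : U = m + 1 - g) (hU2 : 2 ≤ U)
    (hρ : 0 ≤ ρ) (hρU : 2 * ρ + 2 < U * (U + 1))
    (hw1 : (U - 1) * (U + 2) + 2 * ρ ≤ 2 * (w * (U + 2))) :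
    2 * (m * ρ) < w * (m * (m + 1) + 2 * g + U + 2) := by
  obtain ⟨M, hM⟩ : ∃ M, M = m * (m + 1) + 2 * g + U + 2 := ⟨_, rfl⟩
  rw [← hM]
  have hMpos : 0 < M := by
    rw [hM]
    positivity
  have h1 : (U + 2) * m ≤ M := by
    have h0 := mul_le_mul_of_nonneg_right hg hm
    rw [hM, hU]
    linarith
  have h4 : 4 * ρ + 1 ≤ (U - 1) * (U + 2) + 2 * ρ := by linarith
  have h3 : ((U - 1) * (U + 2) + 2 * ρ) * M ≤ 2 * (w * (U + 2)) * M :=
    mul_le_mul_of_nonneg_right hw1 hMpos.le
  have h5 : (4 * ρ + 1) * M ≤ ((U - 1) * (U + 2) + 2 * ρ) * M :=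
    mul_le_mul_of_nonneg_right h4 hMpos.le
  have h6 : 4 * ρ * ((U + 2) * m) ≤ 4 * ρ * M :=
    mul_le_mul_of_nonneg_left h1 (by linarith)
  have h7 : 2 * (U + 2) * (2 * (m * ρ)) < 2 * (U + 2) * (w * M) := by
    have e1 : 2 * (U + 2) * (2 * (m * ρ)) = 4 * ρ * ((U + 2) * m) := by ring
    have e2 : 2 * (U + 2) * (w * M) = 2 * (w * (U + 2)) * M := by ring
    have e3 : (4 * ρ + 1) * M = 4 * ρ * M + M := by ring
    rw [e1, e2]
    linarith
  exact lt_of_mul_lt_mul_left h7 (by linarith)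

/-- the case `K = m` -/
theorem caseA (S : St m m g e) (hg1 : 1 ≤ g) {ρ l P : ℕ} (hl : 2 * l = sl m e + 2 * ρ)
    (hρ : 2 * ρ < ∑ k ∈ range (m - g), 2 * (e (g + k) + 1)) (hP : P ≤ m)
    (hst : sl (m + 1) (fun a => m + 1 - a) ≤ 2 * l) :
    Bet m l ((vv m e : ℤ) + 2 * (P * ρ)) := by
  have hgm := S.hg
  -- the raised sequence
  have hE := S.sum_e (m - g) (by omega)
  have hG := two_sum_g g (m - g)
  have e0sl : sl (m + 1) (ext m 1 (bump g (m - g) e)) =
      sl m e + ∑ k ∈ range (m - g), 2 * (e (g + k) + 1) + 2 := by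
    rw [sl_ext, sl_bump g (m - g) e (by omega)]
  have e0bet : bet (m + 1) (ext m 1 (bump g (m - g) e)) = bet m e + (m - g) + 1 := by
    rw [bet_ext, bet_bump g (m - g) e (by omega)]
  have e0ae : ae (m + 1) (ext m 1 (bump g (m - g) e)) =
      ae m e + ∑ k ∈ range (m - g), (g + k) + m := by
    rw [ae_ext, ae_bump g (m - g) e (by omega), mul_one]
  have e0up : ∀ a, a < g → ext m 1 (bump g (m - g) e) a = e a := by
    intro a ha
    unfold ext bump
    rw [if_neg (by omega), if_neg (by omega)]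
  have e0dn : ∀ a, g ≤ a → a ≤ m → ext m 1 (bump g (m - g) e) a = m + 1 - a := by
    intro a ha1 ha2
    unfold ext bump
    by_cases ham : a = m
    · rw [if_pos ham]
      omega
    · rw [if_neg ham, if_pos (by omega)]
      have := S.dn a ha1 (by omega)
      omega
  obtain ⟨z, e', q1, q2, q3, q4, q5, q6, q7⟩ := lowering (g := g) hgm.le hst _
    (ext m 1 (bump g (m - g) e)) rfl (by
      intro a ha
      rcases Nat.lt_or_ge a g with h1 | h1
      · rw [e0up a h1]
        rcases Nat.lt_or_ge (a + 1) g with h2 | h2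
        · rw [e0up _ h2]
          exact S.dec a (by omega)
        · rw [e0dn _ h2 (by omega)]
          have := S.up a h1
          omega
      · rw [e0dn a h1 (by omega), e0dn (a + 1) (by omega) (by omega)]
        omega) (by
      intro a ha
      rcases Nat.lt_or_ge a g with h1 | h1
      · rw [e0up a h1]
        have := S.up a h1
        omega
      · rw [e0dn a h1 ha]) e0dn
  obtain ⟨t1, ht1⟩ := sl_even (m + 1) e'
  refine ⟨e', l - t1, q1, ?_, by omega, ?_⟩
  · have := q2 m le_rfl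
    omega
  -- the number of lowering steps
  rcases q7 with ⟨_, hcon⟩ | ⟨hz1, hz2⟩
  · omega
  rw [e0sl] at hz2
  obtain ⟨U, hU⟩ : ∃ U, U = m + 1 - g := ⟨_, rfl⟩
  have hUm : (U : ℤ) = m + 1 - g := by omega
  have hU2 : 2 ≤ U := by omega
  have hsum : ((∑ k ∈ range (m - g), 2 * (e (g + k) + 1) : ℕ) : ℤ) + 2 = U * (U + 1) := by
    rw [hE]
    have h1 : (((m - g : ℕ) : ℤ)) = U - 1 := by omega
    rw [h1]
    have h2 : (m : ℤ) - g = U - 1 := by omega
    rw [h2]
    ring
  have hsumg : (2 * (∑ k ∈ range (m - g), (g + k) : ℕ) : ℤ) + 2 * m = 2 * U * g + U * (U - 1) := by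
    rw [hG]
    have h1 : (((m - g : ℕ) : ℤ)) = U - 1 := by omega
    rw [h1]
    have h2 : (m : ℤ) = U - 1 + g := by omega
    rw [h2]
    ring
  obtain ⟨u, hu⟩ := Nat.even_mul_succ_self U
  have huu : (U : ℤ) * (U + 1) = 2 * u := by
    have : ((U * (U + 1) : ℕ) : ℤ) = ((u + u : ℕ) : ℤ) := by rw [hu]
    push_cast at this
    linarith
  -- key inequality for `z`
  have hzU : 2 * ((z : ℤ) * (U + 2)) ≤ (U + 1) * (U + 2) - 2 * ρ := by
    have h1 : (2 * (((z - 1 : ℕ) : ℤ) * ((m + 3 - g : ℕ) : ℤ)) + 2 * l : ℤ) + 1 ≤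
        sl m e + ((∑ k ∈ range (m - g), 2 * (e (g + k) + 1) : ℕ) : ℤ) + 2 := by
      exact_mod_cast hz2
    have h2 : (2 * l : ℤ) = sl m e + 2 * ρ := by exact_mod_cast hl
    have h3 : ((z - 1 : ℕ) : ℤ) = z - 1 := by omega
    have h4 : ((m + 3 - g : ℕ) : ℤ) = U + 2 := by omega
    rw [h3, h4] at h1
    have h5 : 2 * (((z : ℤ) - 1) * (U + 2)) + 2 * ρ + 1 ≤ 2 * u := by
      rw [← huu]
      linarith
    have h6 : (((z : ℤ) - 1) * (U + 2)) + ρ + 1 ≤ u := by omega
    have h7 : 2 * (((z : ℤ) - 1) * (U + 2)) + 2 * ρ + 2 ≤ U * (U + 1) := by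
      rw [huu]
      linarith
    linarith
  have hρU : 2 * (ρ : ℤ) + 2 < U * (U + 1) := by
    have h1 : (2 * (ρ : ℤ)) < ((∑ k ∈ range (m - g), 2 * (e (g + k) + 1) : ℕ) : ℤ) := by
      exact_mod_cast hρ
    linarith
  -- lower bound for the sum of the entries
  have hbet : (m : ℤ) * (m + 1) + 2 * g + 2 * z ≤ 2 * bet m e := by
    have h1 : ∑ a ∈ range (m + 1), (m + 1 - a) ≤ bet (m + 1) e' := by
      unfold bet
      apply sum_le_sum
      intro a ha
      rw [mem_range] at ha
      exact q2 a (by omega)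
    have h2 := two_sum_range_sub (m + 1) (m + 1) le_rfl
    rw [e0bet] at q4
    have h3 : (m + 1) * (m + 1) + (m + 1) ≤ 2 * bet (m + 1) e' := by omega
    have h4 : ((m + 1) * (m + 1) + (m + 1) : ℤ) ≤ 2 * bet (m + 1) e' := by exact_mod_cast h3
    have h5 : ((bet (m + 1) e' : ℕ) : ℤ) + z = bet m e + (m - g) + 1 := by
      have : ((bet (m + 1) e' + z : ℕ) : ℤ) = ((bet m e + (m - g) + 1 : ℕ) : ℤ) := by rw [q4]
      push_cast [Nat.cast_sub hgm.le] at this
      exact this
    linarith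
  have hvv0 : ((vv m e : ℕ) : ℤ) = (bet m e : ℤ) * bet m e + bet m e + 2 * ae m e := by
    unfold vv
    push_cast
    ring
  have hvv : ((vv (m + 1) e' : ℕ) : ℤ) = (bet (m + 1) e' : ℤ) * bet (m + 1) e' +
      bet (m + 1) e' + 2 * ae (m + 1) e' := by
    unfold vv
    push_cast
    ring
  have hbe : ((bet (m + 1) e' : ℕ) : ℤ) = bet m e + (U - z) := by
    have : ((bet (m + 1) e' + z : ℕ) : ℤ) = ((bet m e + (m - g) + 1 : ℕ) : ℤ) := by
      rw [q4, e0bet]
    push_cast [Nat.cast_sub hgm.le] at this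
    linarith
  have hae : (2 * (ae m e : ℤ)) + (2 * U * g + U * (U - 1)) ≤
      2 * ae (m + 1) e' + 2 * (z * (g - 1)) := by
    rw [e0ae] at q5
    have h1 : ((ae m e + ∑ k ∈ range (m - g), (g + k) + m : ℕ) : ℤ) ≤
        ((ae (m + 1) e' + z * (g - 1) : ℕ) : ℤ) := by exact_mod_cast q5
    push_cast [Nat.cast_sub hg1] at h1
    push_cast at hsumg
    linarith
  rw [hvv, hvv0, hbe]
  have hr : (0 : ℤ) ≤ 2 * ((l - t1 : ℕ) : ℤ) := by positivity
  have hPm : (P : ℤ) * ρ ≤ m * ρ :=
    mul_le_mul_of_nonneg_right (by exact_mod_cast hP) (by positivity)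
  -- final estimate
  obtain ⟨w, hw⟩ : ∃ w : ℤ, w = U - z := ⟨_, rfl⟩
  rw [← hw]
  have hw1 : ((U : ℤ) - 1) * (U + 2) + 2 * ρ ≤ 2 * (w * (U + 2)) := by
    rw [hw]
    linarith
  have hwpos : 0 < w := by
    by_contra hcon
    have h1 : w * ((U : ℤ) + 2) ≤ 0 :=
      mul_nonpos_of_nonpos_of_nonneg (by linarith) (by positivity)
    have h2 : (0 : ℤ) < ((U : ℤ) - 1) * (U + 2) := by
      apply mul_pos
      · omega
      · positivity
    have h3 : (0 : ℤ) ≤ 2 * ρ := by positivity
    linarith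
  -- `2 m ρ < w * M`
  have hM := low_num m g U ρ w (by positivity) (by exact_mod_cast hg1) hUm (by omega)
    (by positivity) hρU hw1
  have hz1' : (1 : ℤ) ≤ z := by exact_mod_cast hz1
  have hg1' : (1 : ℤ) ≤ g := by exact_mod_cast hg1
  have hUz : (U : ℤ) = w + z := by linarith
  have f1 : 0 ≤ w * (2 * (bet m e : ℤ) - (m * (m + 1) + 2 * g + 2 * z)) :=
    mul_nonneg hwpos.le (by linarith)
  have f2 : 0 ≤ w * ((z : ℤ) - 1) := mul_nonneg hwpos.le (by linarith)
  have f3 : 0 ≤ 2 * w * (g : ℤ) := by positivity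
  have f4 : 0 ≤ (U : ℤ) * (U - 1) := mul_nonneg (by positivity) (by linarith)
  have f5 : (2 * U * g : ℤ) - 2 * (z * (g - 1)) = 2 * w * g + 2 * z := by
    rw [hUz]
    ring
  have f6 : w * (m * (m + 1) + 2 * g + U + 2) = w * (m * (m + 1)) + 2 * w * g + w * w + w * z +
      2 * w := by
    rw [hUz]
    ring
  rw [f6] at hM
  linarith [hM, f1, f2, f3, f4, f5, hae, hr, hPm]

end Pool.Agent.MP_74475a_ag.N3
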