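import Mathlib
import Pool.Agent.MP_74475a_ag.N3.Steps2

/-!
Three variables: every height array with `m` levels is beaten by a sequence of length `m + 1`.
-/

namespace Pool.Agent.MP_74475a_ag.N3

open Finset

variable {m K g : ℕ} {e : ℕ → ℕ}

theorem sl_congr {M : ℕ} {e e' : ℕ → ℕ} (h : ∀ a, a < M → e a = e' a) : sl M e = sl M e' := by
  unfold sl
  apply sum_congr rfl
  intro a ha
  rw [h a (mem_range.mp ha)]

theorem vv_congr {M : ℕ} {e e' : ℕ → ℕ} (h : ∀ a, a < M → e a = e' a) : vv M e = vv M e' := by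
  have h1 : bet M e = bet M e' := by
    unfold bet
    apply sum_congr rfl
    intro a ha
    rw [h a (mem_range.mp ha)]
  have h2 : ae M e = ae M e' := by
    unfold ae
    apply sum_congr rfl
    intro a ha
    rw [h a (mem_range.mp ha)]
  unfold vv
  rw [h1, h2]

theorem sl_stair_succ (m : ℕ) :
    sl (m + 1) (fun a => m + 1 - a) = sl m (fun a => m + 1 - a) + 2 := by
  unfold sl
  rw [sum_range_succ]
  congr 1
  have : m + 1 - m = 1 := by omega
  simp only [this]

/-- the constant subtracted in the closure bound -/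
def cc (m K n : ℕ) : ℕ := ∑ k ∈ range n, k * k + (if 2 ≤ n ∧ m < K then 1 else 0)

theorem main_step (S : St m K g e) {ρ l n P : ℕ} (hl : 2 * l = sl m e + 2 * ρ)
    (hρ : 2 * ρ < ∑ k ∈ range (m - g), 2 * (e (g + k) + 1))
    (hn : n = 0 ∨ n + g + (K - m) ≤ m) (hP : P = min (n + g + (K - m)) m)
    (hst : sl (m + 1) (fun a => m + 1 - a) ≤ 2 * l) :
    Bet m l ((vv m e : ℤ) + 2 * (P * ρ) - 2 * (cc m K n : ℤ)) := by
  have hgm := S.hg
  have hPm : P ≤ m := by omega
  have hc : (0 : ℤ) ≤ 2 * (cc m K n : ℤ) := by positivity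
  rcases Nat.eq_or_lt_of_le S.hK with hK | hK
  · subst hK
    rcases Nat.eq_zero_or_pos g with hg | hg
    · exfalso
      subst hg
      have h1 := sl_bump (m := m) 0 m e (by omega)
      have h2 : sl m (bump 0 m e) = sl m (fun a => m + 1 - a) := by
        apply sl_congr
        intro a ha
        unfold bump
        rw [if_pos (by omega)]
        have := S.dn a (by omega) ha
        omega
      have h3 := sl_stair_succ m
      rw [Nat.sub_zero] at hρ
      omega
    · exact (caseA S hg hl hρ hPm hst).mono (by linarith)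
  · rcases Nat.eq_zero_or_pos ρ with h0 | h0
    · subst h0
      have hl' : 2 * l = sl m e := by omega
      have hU : (vv m e : ℤ) + 2 * (P * (0 : ℕ)) - 2 * (cc m K n : ℤ) ≤ vv m e := by
        push_cast
        linarith
      rcases Nat.lt_or_ge (m + 1) K with h1 | h1
      · have hem := S.dn (m - 1) (by omega) (by omega)
        refine (caseB S hK (c := m - 1) (by omega) (by omega) ?_ hl').mono hU
        intro _
        omega
      · rcases Nat.eq_zero_or_pos g with hg | hg
        · exfalso
          subst hg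
          have h2 : sl m e = sl m (fun a => m + 1 - a) := by
            apply sl_congr
            intro a ha
            have := S.dn a (by omega) ha
            omega
          have h3 := sl_stair_succ m
          omega
        · have h5 := S.up (g - 1) (by omega)
          have h6 := S.dn g le_rfl hgm
          refine (caseB S hK (c := g - 1) (by omega) ?_ (by omega) hl').mono hU
          intro _
          have h7 : g - 1 + 1 = g := by omega
          rw [h7]
          omega
    · rcases Nat.lt_or_ge (2 * ρ) ((K - m) * (K - m + 1)) with h1 | h1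
      · exact (caseC S hl h0 h1 hPm).mono (by linarith)
      · exact caseD S hl hρ hK h1 hn hP

theorem gz_stair {K K' : ℕ} (hK : m ≤ K) (hK' : m ≤ K') :
    gz m (fun a => K - a) = gz m (fun a => K' - a) := by
  unfold gz
  apply sum_congr rfl
  intro c hc
  rw [mem_range] at hc
  apply sum_congr rfl
  intro a ha
  rw [mem_range] at ha
  have h1 : (((K - a : ℕ) : ℤ) - ((K - c : ℕ) : ℤ)) = ((K' - a : ℕ) : ℤ) - ((K' - c : ℕ) : ℤ) := by
    omega
  show (((K - a : ℕ) : ℤ) - ((K - c : ℕ) : ℤ)) * (((K - a : ℕ) : ℤ) - ((K - c : ℕ) : ℤ) + 1) =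
    (((K' - a : ℕ) : ℤ) - ((K' - c : ℕ) : ℤ)) * (((K' - a : ℕ) : ℤ) - ((K' - c : ℕ) : ℤ) + 1)
  rw [h1]

theorem sl_stair_mono {k k' : ℕ} (h : k ≤ k') :
    sl m (fun a => k - a) ≤ sl m (fun a => k' - a) := by
  unfold sl
  apply sum_le_sum
  intro a _
  show (k - a) * (k - a + 1) ≤ (k' - a) * (k' - a + 1)
  exact Nat.mul_le_mul (by omega) (by omega)

/-- the case `g = 0`: raise the whole staircase first -/
theorem level_up (hm : 1 ≤ m) (hK : m ≤ K) {ρ l n P : ℕ}
    (hl : 2 * l = sl m (fun a => K - a) + 2 * ρ)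
    (hn : n = 0 ∨ n + 0 + (K - m) ≤ m) (hP : P = min (n + 0 + (K - m)) m)
    (hst : sl (m + 1) (fun a => m + 1 - a) ≤ 2 * l) :
    Bet m l ((vv m (fun a => K - a) : ℤ) + 2 * (P * ρ) - 2 * (cc m K n : ℤ)) := by
  classical
  -- the largest staircase
  have hbd : ∀ k, sl m (fun a => k - a) ≤ 2 * l → k ≤ 2 * l := by
    intro k hk
    have h1 : k * (k + 1) ≤ sl m (fun a => k - a) := by
      unfold sl
      have := single_le_sum (f := fun a => (k - a) * (k - a + 1)) (s := range m)
        (fun _ _ => Nat.zero_le _) (mem_range.mpr (by omega : 0 < m))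
      simpa using this
    have h2 : k ≤ k * (k + 1) := Nat.le_mul_of_pos_right k (by omega)
    omega
  obtain ⟨K', hK'⟩ : ∃ K', K' = Nat.findGreatest (fun k => sl m (fun a => k - a) ≤ 2 * l) (2 * l) :=
    ⟨_, rfl⟩
  have hKl : sl m (fun a => K - a) ≤ 2 * l := by omega
  have hKK' : K ≤ K' := by
    rw [hK']
    exact Nat.le_findGreatest (hbd K hKl) hKl
  have hK'l : sl m (fun a => K' - a) ≤ 2 * l := by
    rw [hK']
    exact Nat.findGreatest_spec (P := fun k => sl m (fun a => k - a) ≤ 2 * l) (hbd K hKl) hKl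
  have hK'1 : 2 * l < sl m (fun a => K' + 1 - a) := by
    by_contra hcon
    rw [not_lt] at hcon
    have h1 := Nat.le_findGreatest (hbd _ hcon)
      (P := fun k => sl m (fun a => k - a) ≤ 2 * l) hcon
    omega
  have hmK' : m ≤ K' := by omega
  have S : St m K' 0 (fun a => K' - a) := by
    constructor
    · exact hmK'
    · omega
    · intro a ha
      omega
    · intro a _ _
      rfl
    · intro a ha
      show K' - (a + 1) < K' - a
      omega
  obtain ⟨t, ht⟩ := sl_even m (fun a => K' - a)
  obtain ⟨t0, ht0⟩ := sl_even m (fun a => K - a)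
  obtain ⟨ρ', hρ'⟩ : ∃ ρ', ρ' = l - t := ⟨_, rfl⟩
  have hl' : 2 * l = sl m (fun a => K' - a) + 2 * ρ' := by omega
  have hbump := sl_bump (m := m) 0 m (fun a => K' - a) (by omega)
  have hb2 : sl m (bump 0 m (fun a => K' - a)) = sl m (fun a => K' + 1 - a) := by
    apply sl_congr
    intro a ha
    unfold bump
    rw [if_pos (by omega)]
    show K' - a + 1 = K' + 1 - a
    omega
  have hρlt : 2 * ρ' < ∑ k ∈ range (m - 0), 2 * ((fun a => K' - a) (0 + k) + 1) := by
    rw [Nat.sub_zero]
    rw [hb2] at hbump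
    simp only at hbump ⊢
    omega
  have hms := main_step S (n := n - (K' - K)) (P := min (n - (K' - K) + 0 + (K' - m)) m) hl' hρlt
    (by omega) rfl hst
  refine hms.mono ?_
  -- comparison of the two values
  have g1 := gz_identity m (fun a => K - a)
  have g2 := gz_identity m (fun a => K' - a)
  rw [gz_stair hK hmK'] at g1
  have hmono := sl_stair_mono (m := m) hKK'
  obtain ⟨P', hP'⟩ : ∃ P', P' = min (n - (K' - K) + 0 + (K' - m)) m := ⟨_, rfl⟩
  rw [← hP']
  have hPP' : P ≤ P' := by omega
  have hPm : P ≤ m := by omega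
  have hρρ : ρ' ≤ ρ := by omega
  have hcc : cc m K' (n - (K' - K)) ≤ cc m K n := by
    rcases Nat.eq_or_lt_of_le hKK' with h1 | h1
    · rw [← h1, Nat.sub_self, Nat.sub_zero]
    · unfold cc
      have hle : n - (K' - K) ≤ n := Nat.sub_le _ _
      rcases Nat.lt_or_ge (n - (K' - K)) 2 with h2 | h2
      · rw [if_neg (by omega)]
        have := sum_le_sum_of_subset (f := fun k => k * k)
          (range_subset_range.mpr hle)
        omega
      · have h3 : n - (K' - K) + 1 ≤ n := by omega
        have h4 := sum_le_sum_of_subset (f := fun k => k * k)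
          (range_subset_range.mpr h3)
        rw [sum_range_succ] at h4
        have h5 : 1 ≤ (n - (K' - K)) * (n - (K' - K)) :=
          Nat.one_le_iff_ne_zero.mpr (Nat.mul_ne_zero (by omega) (by omega))
        split_ifs <;> omega
  have e1 : (2 * l : ℤ) = sl m (fun a => K - a) + 2 * ρ := by exact_mod_cast hl
  have e2 : (2 * l : ℤ) = sl m (fun a => K' - a) + 2 * ρ' := by exact_mod_cast hl'
  have e3 : (P : ℤ) * (ρ - ρ') ≤ m * (ρ - ρ') := by
    apply mul_le_mul_of_nonneg_right
    · exact_mod_cast hPm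
    · have : (ρ' : ℤ) ≤ ρ := by exact_mod_cast hρρ
      linarith
  have e4 : (P : ℤ) * ρ' ≤ P' * ρ' := by
    apply mul_le_mul_of_nonneg_right
    · exact_mod_cast hPP'
    · positivity
  have e5 : (cc m K' (n - (K' - K)) : ℤ) ≤ cc m K n := by exact_mod_cast hcc
  have e6 : (m : ℤ) * (sl m (fun a => K' - a) : ℤ) - m * (sl m (fun a => K - a) : ℤ) =
      2 * (m * (ρ - ρ')) := by
    have : (sl m (fun a => K' - a) : ℤ) = sl m (fun a => K - a) + 2 * ρ - 2 * ρ' := by linarith
    rw [this]
    ring
  linarith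

/-- every height array with `m` levels is beaten by a sequence of length `m + 1` -/
theorem better {h : ℕ → ℕ → ℕ} (H : Arr m h) (hm : 1 ≤ m) {l : ℕ}
    (hl : l = ∑ a ∈ range m, ∑ j ∈ range (h 0 0), h a j)
    (hst : sl (m + 1) (fun a => m + 1 - a) ≤ 2 * l) :
    Bet m l ((vv m (bb h) : ℤ) +
      2 * (∑ a ∈ range m, ∑ j ∈ range (h 0 0), eps h a j * WW m h a j : ℕ)) := by
  classical
  have hcol := two_colength H
  rw [← hl] at hcol
  have hb0 := H.bb_ge 0
  rw [Nat.sub_zero] at hb0
  have hPm : sl m (clo m (bb h)) ≤ 2 * l := by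
    have : sl m (clo m (bb h)) = sl m (bb h) := by
      apply sl_congr
      intro a _
      have := H.bb_ge a
      unfold clo
      omega
    omega
  obtain ⟨K, hK⟩ : ∃ K, K = Nat.findGreatest (fun k => sl m (clo k (bb h)) ≤ 2 * l) (bb h 0) :=
    ⟨_, rfl⟩
  have hmK : m ≤ K := by
    rw [hK]
    exact Nat.le_findGreatest hb0 hPm
  have hKb : K ≤ bb h 0 := by
    rw [hK]
    exact Nat.findGreatest_le _
  have hKl : sl m (clo K (bb h)) ≤ 2 * l := by
    rw [hK]
    exact Nat.findGreatest_spec (P := fun k => sl m (clo k (bb h)) ≤ 2 * l) hb0 hPm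
  have hK1 : K < bb h 0 → 2 * l < sl m (clo (K + 1) (bb h)) := by
    intro hlt
    by_contra hcon
    rw [not_lt] at hcon
    have := Nat.le_findGreatest (P := fun k => sl m (clo k (bb h)) ≤ 2 * l)
      (show K + 1 ≤ bb h 0 by omega) hcon
    omega
  have hex : ∃ g, bb h g ≤ K - g := ⟨m, by
    rw [H.bb_zero le_rfl]
    omega⟩
  obtain ⟨g, hg⟩ : ∃ g, g = Nat.find hex := ⟨_, rfl⟩
  have hup : ∀ a, a < g → K - a < bb h a := by
    intro a ha
    have := Nat.find_min hex (m := a) (by omega)
    omega
  have hg0 : bb h g ≤ K - g := by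
    rw [hg]
    exact Nat.find_spec hex
  have hdn : ∀ a, g ≤ a → bb h a ≤ K - a := by
    intro a ha
    obtain ⟨k, rfl⟩ := Nat.exists_eq_add_of_le ha
    induction k with
    | zero => exact hg0
    | succ k ih =>
      have h1 := ih (by omega)
      have h2 := H.bb_succ (g + k)
      rw [← add_assoc]
      omega
  have hgm : g < m := by
    by_contra hcon
    rw [not_lt] at hcon
    have h1 : sl m (clo (K + 1) (bb h)) = sl m (bb h) := by
      apply sl_congr
      intro a ha
      have := hup a (by omega)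
      unfold clo
      omega
    have h2 := hup 0 (by omega)
    have h3 := hK1 (by omega)
    omega
  have C : Cl m h K g := ⟨H, hmK, hKb, hgm, hup, hdn⟩
  obtain ⟨t, ht⟩ := sl_even m (clo K (bb h))
  obtain ⟨ρ, hρ⟩ : ∃ ρ, ρ = l - t := ⟨_, rfl⟩
  have hl' : 2 * l = sl m (clo K (bb h)) + 2 * ρ := by omega
  obtain ⟨n, P, hn, hP, hcb⟩ := closure_bound C ρ (by rw [← hl]; exact hl')
  have hcb' : ((vv m (bb h) : ℤ) +
      2 * (∑ a ∈ range m, ∑ j ∈ range (h 0 0), eps h a j * WW m h a j : ℕ)) ≤
      (vv m (clo K (bb h)) : ℤ) + 2 * (P * ρ) - 2 * (cc m K n : ℤ) := by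
    have : ((vv m (bb h) + 2 * ∑ a ∈ range m, ∑ j ∈ range (h 0 0), eps h a j * WW m h a j +
        2 * cc m K n : ℕ) : ℤ) ≤ ((vv m (clo K (bb h)) + 2 * (P * ρ) : ℕ) : ℤ) := by
      exact_mod_cast hcb
    push_cast at this ⊢
    linarith
  refine Bet.mono ?_ hcb'
  rcases Nat.eq_zero_or_pos g with hg1 | hg1
  · -- `g = 0`
    subst hg1
    have h1 : ∀ a, a < m → clo K (bb h) a = K - a := fun a _ => C.clo_dn (by omega)
    rw [vv_congr h1]
    rw [sl_congr h1] at hl'
    exact level_up hm hmK hl' hn hP hst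
  · have hKlt : K < bb h 0 := by
      have := hup 0 hg1
      omega
    have h1 := hK1 hKlt
    have S : St m K g (clo K (bb h)) := by
      constructor
      · exact hmK
      · exact hgm
      · intro a ha
        rw [C.clo_up ha]
        exact hup a ha
      · intro a ha _
        exact C.clo_dn ha
      · intro a ha
        have h2 := H.bb_lt (a := a) (by omega)
        unfold clo
        omega
    have h2 := sl_bump (m := m) g (m - g) (clo K (bb h)) (by omega)
    have h3 : sl m (bump g (m - g) (clo K (bb h))) = sl m (clo (K + 1) (bb h)) := by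
      apply sl_congr
      intro a ha
      unfold bump
      by_cases hga : g ≤ a
      · rw [if_pos (by omega), C.clo_dn hga]
        have := hdn a hga
        unfold clo
        omega
      · rw [if_neg (by omega)]
        have := hup a (by omega)
        unfold clo
        omega
    rw [h3] at h2
    exact main_step S hl' (by omega) hn hP hst

end Pool.Agent.MP_74475a_ag.N3
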