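import Mathlib
import Pool.Agent.MP_74475a_ag.N3.Phi
import Pool.Agent.MP_74475a_ag.Lower

/-!
Three variables: ideals with large tangent dimension.
-/

namespace Pool.Agent.MP_74475a_ag.N3

open MvPolynomial Finset

/-- lower bound for the tangent dimension, triangular version -/
theorem le_tangentDim_tri {N : ℕ} {I : Ideal (Poly N)} (h : MonomialIdeal I)
    (S : Finset (Fin N →₀ ℕ)) (hS : (S : Set (Fin N →₀ ℕ)) = std I)
    (hfin : Module.Finite ℂ (I →ₗ[Poly N] (Poly N ⧸ I)))
    {ι : Type} [Fintype ι] (c : ι → (Fin N →₀ ℕ) → (Fin N →₀ ℕ) → ℂ)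
    (hR : ∀ i, Rules (std I) (c i)) (g s : ι → (Fin N →₀ ℕ))
    (hg : ∀ i, g i ∉ std I) (hs : ∀ i, s i ∈ std I) (rk : ι → ℕ)
    (hd : ∀ i, c i (g i) (s i) = 1)
    (ht : ∀ i j, i ≠ j → c i (g j) (s j) ≠ 0 → rk i < rk j) :
    Fintype.card ι ≤ tangentDim I := by
  have hli : LinearIndependent ℂ (fun i => homOf h S hS (c i) (hR i)) := by
    rw [Fintype.linearIndependent_iff]
    intro a ha
    have key : ∀ n : ℕ, ∀ j, rk j = n → a j = 0 := by
      intro n
      induction n using Nat.strong_induction_on with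
      | _ n ih =>
      intro j hj
      have h1 := congrArg (mcT h (g j) (s j)) ha
      rw [map_sum, map_zero] at h1
      rw [Finset.sum_eq_single j] at h1
      · rw [map_smul, mcT_eq h (hg j) (hs j), mc_homOf, hd] at h1
        simpa using h1
      · intro i _ hij
        rw [map_smul, mcT_eq h (hg j) (hs j), mc_homOf]
        by_cases h0 : c i (g j) (s j) = 0
        · rw [h0, smul_zero]
        · have := ht i j hij h0
          rw [ih (rk i) (by omega) i rfl, zero_smul]
      · intro hj
        exact absurd (Finset.mem_univ j) hj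
    exact fun j => key _ j rfl
  exact hli.fintype_card_le_finrank

variable {M : ℕ} {h : ℕ → ℕ → ℕ}

open Classical in
/-- the set of monomials below a height array -/
noncomputable def SF (M B : ℕ) (h : ℕ → ℕ → ℕ) : Finset (Fin 3 →₀ ℕ) :=
  ((range M ×ˢ range B).sigma fun p => range (h p.1 p.2)).image fun q => v3 q.1.1 q.1.2 q.2

theorem mem_SF (H : Arr M h) (s : Fin 3 →₀ ℕ) : s ∈ SF M (h 0 0) h ↔ s 2 < h (s 0) (s 1) := by
  classical
  unfold SF
  rw [mem_image]
  constructor
  · rintro ⟨⟨⟨a, j⟩, t⟩, hq, rfl⟩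
    simp only [mem_sigma, mem_product, mem_range] at hq
    rw [v3_0, v3_1, v3_2]
    exact hq.2
  · intro hs
    refine ⟨⟨⟨s 0, s 1⟩, s 2⟩, ?_, (eq_v3 s).symm⟩
    simp only [mem_sigma, mem_product, mem_range]
    refine ⟨⟨?_, ?_⟩, hs⟩
    · by_contra hcon
      rw [H.z _ _ (not_lt.mp hcon)] at hs
      omega
    · by_contra hcon
      rw [H.zB _ _ (not_lt.mp hcon)] at hs
      omega

theorem mem_SF' (H : Arr M h) (a j t : ℕ) : v3 a j t ∈ SF M (h 0 0) h ↔ t < h a j := by
  rw [mem_SF H, v3_0, v3_1, v3_2]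

theorem card_SF (M B : ℕ) (h : ℕ → ℕ → ℕ) :
    (SF M B h).card = ∑ a ∈ range M, ∑ j ∈ range B, h a j := by
  classical
  unfold SF
  rw [card_image_of_injective, card_sigma, sum_product]
  · apply sum_congr rfl
    intro a _
    apply sum_congr rfl
    intro j _
    exact card_range _
  · rintro ⟨⟨a, j⟩, t⟩ ⟨⟨a', j'⟩, t'⟩ hq
    obtain ⟨rfl, rfl, rfl⟩ := v3_inj hq
    rfl

theorem Arr.anti (H : Arr M h) {a a' j j' : ℕ} (ha : a ≤ a') (hj : j ≤ j') : h a' j' ≤ h a j :=
  (antitone_nat_of_succ_le (f := fun a => h a j') (fun n => H.m1' n j') ha).trans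
    (H.anti2 a hj)

theorem down_SF (H : Arr M h) (a b : Fin 3 →₀ ℕ) (hab : a ≤ b)
    (hb : b ∈ (SF M (h 0 0) h : Set (Fin 3 →₀ ℕ))) :
    a ∈ (SF M (h 0 0) h : Set (Fin 3 →₀ ℕ)) := by
  rw [Finset.mem_coe, mem_SF H] at hb ⊢
  exact lt_of_le_of_lt (hab 2) (lt_of_lt_of_le hb (H.anti (hab 0) (hab 1)))

theorem borel_SF (H : Arr M h) (a : Fin 3 →₀ ℕ) (i j : Fin 3) (hij : i < j)
    (ha : a + Finsupp.single i 1 ∈ (SF M (h 0 0) h : Set (Fin 3 →₀ ℕ))) :
    a + Finsupp.single j 1 ∈ (SF M (h 0 0) h : Set (Fin 3 →₀ ℕ)) := by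
  rw [Finset.mem_coe] at ha ⊢
  rw [eq_v3 a] at ha ⊢
  generalize a 0 = x at *
  generalize a 1 = y at *
  generalize a 2 = z at *
  have h1 := H.e1 x y
  have h2 := H.e2 x y
  fin_cases i <;> fin_cases j
  · exact absurd hij (by decide)
  · change v3 x y z + Finsupp.single 0 1 ∈ _ at ha
    change v3 x y z + Finsupp.single 1 1 ∈ _
    rw [v3_add0, mem_SF' H] at ha
    rw [v3_add1, mem_SF' H]
    omega
  · change v3 x y z + Finsupp.single 0 1 ∈ _ at ha
    change v3 x y z + Finsupp.single 2 1 ∈ _
    rw [v3_add0, mem_SF' H] at ha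
    rw [v3_add2, mem_SF' H]
    omega
  · exact absurd hij (by decide)
  · exact absurd hij (by decide)
  · change v3 x y z + Finsupp.single 1 1 ∈ _ at ha
    change v3 x y z + Finsupp.single 2 1 ∈ _
    rw [v3_add1, mem_SF' H] at ha
    rw [v3_add2, mem_SF' H]
    omega
  · exact absurd hij (by decide)
  · exact absurd hij (by decide)
  · exact absurd hij (by decide)

/-- a strictly decreasing sequence with `M` positive entries -/
structure Es (M : ℕ) (e : ℕ → ℕ) : Prop where
  dec : ∀ a, a < M → e (a + 1) < e a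
  z : ∀ a, M ≤ a → e a = 0

/-- the height array of the extremal ideal -/
def hh (e : ℕ → ℕ) (r a j : ℕ) : ℕ := (e a - j) + if a = 0 ∧ j = 0 then r else 0

variable {e : ℕ → ℕ} {r : ℕ}

theorem Es.le (E : Es M e) (a : ℕ) : e (a + 1) ≤ e a - 1 := by
  rcases Nat.lt_or_ge a M with h1 | h1
  · have := E.dec a h1
    omega
  · have := E.z (a + 1) (by omega)
    omega

theorem Es.anti (E : Es M e) {a c : ℕ} (hac : a ≤ c) : e c ≤ e a :=
  antitone_nat_of_succ_le (f := e) (fun n => (E.le n).trans (Nat.sub_le _ _)) hac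

theorem Es.lt (E : Es M e) {a c : ℕ} (hac : a < c) (ha : a < M) : e c < e a :=
  lt_of_le_of_lt (E.anti hac) (E.dec a ha)

theorem arr_hh (E : Es M e) (hM : 1 ≤ M) (r : ℕ) : Arr M (hh e r) := by
  constructor
  · intro a j
    have := E.le a
    unfold hh
    rw [if_neg (by omega), if_neg (by omega)]
    omega
  · intro a j
    unfold hh
    rw [if_neg (by omega)]
    omega
  · intro a j ha
    have := E.z a ha
    unfold hh
    rw [if_neg (by omega)]
    omega
  · intro a ha
    have := E.dec a ha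
    unfold hh
    omega

theorem hh_zero (e : ℕ → ℕ) (r : ℕ) : hh e r 0 0 = e 0 + r := by
  unfold hh
  rw [if_pos ⟨rfl, rfl⟩]
  omega

theorem hh_ne (e : ℕ → ℕ) (r : ℕ) {a j : ℕ} (h : a ≠ 0 ∨ j ≠ 0) : hh e r a j = e a - j := by
  unfold hh
  rw [if_neg (by omega)]
  omega

theorem sum_hh (E : Es M e) (hM : 1 ≤ M) (r : ℕ) :
    2 * ∑ a ∈ range M, ∑ j ∈ range (hh e r 0 0), hh e r a j = sl M e + 2 * r := by
  rw [hh_zero]
  have h1 : ∀ a ∈ range M, ∑ j ∈ range (e 0 + r), hh e r a j =
      ∑ j ∈ range (e 0 + r), (e a - j) + (if a = 0 then r else 0) := by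
    intro a _
    have h0 := E.dec 0 (by omega)
    unfold hh
    rw [sum_add_distrib]
    congr 1
    split_ifs with ha
    · rw [sum_eq_single 0]
      · rw [if_pos ⟨ha, rfl⟩]
      · intro j _ hj
        rw [if_neg (by omega)]
      · intro hj
        rw [mem_range] at hj
        omega
    · apply sum_eq_zero
      intro j _
      rw [if_neg (by omega)]
  rw [sum_congr rfl h1, sum_add_distrib, mul_add]
  congr 1
  · unfold sl
    rw [mul_sum]
    apply sum_congr rfl
    intro a _
    apply two_sum_sub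
    have := E.anti (Nat.zero_le a)
    omega
  · rw [sum_eq_single 0]
    · rw [if_pos rfl]
    · intro a _ ha
      rw [if_neg ha]
    · intro h0
      rw [mem_range] at h0
      omega

/-- the generators -/
noncomputable def GG (M : ℕ) (e : ℕ → ℕ) : Finset (Σ _ : ℕ, ℕ) :=
  (range (M + 1)).sigma fun c => range (e c + 1)

/-- the socle -/
noncomputable def ZZs (M : ℕ) (e : ℕ → ℕ) : Finset (Σ _ : ℕ, ℕ) :=
  (range M).sigma fun a => range (e a)

/-- the multiplication homomorphisms -/
noncomputable def W4 (M : ℕ) (e : ℕ → ℕ) (r : ℕ) : Finset (Σ _ : ℕ, Σ _ : ℕ, Σ _ : ℕ, ℕ) :=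
  (range M).sigma fun a => (range (e a)).sigma fun p => (Ico (a + 1) (M + 1)).sigma fun c =>
    Ico (if c = a + 1 then 0 else hh e r a p - e (c - 1)) (hh e r a p - 1 - e c)

theorem card_GG (E : Es M e) : (GG M e).card = bet M e + M + 1 := by
  unfold GG
  rw [card_sigma]
  simp only [card_range]
  rw [sum_range_succ, E.z M le_rfl, sum_add_distrib]
  unfold bet
  simp

theorem card_ZZs : (ZZs M e).card = bet M e := by
  unfold ZZs
  rw [card_sigma]
  simp only [card_range]
  rfl

theorem tele (E : Es M e) (a H : ℕ) (hH : 1 ≤ H) : ∀ n, a + 1 + n ≤ M →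
    H - 1 - e (a + 1 + n) ≤ ∑ c ∈ Ico (a + 1) (a + 1 + n + 1),
      ((H - 1 - e c) - (if c = a + 1 then 0 else H - e (c - 1))) +
      ∑ c ∈ Ico (a + 1) (a + 1 + n), (if e c < H then 1 else 0) := by
  intro n
  induction n with
  | zero =>
    intro _
    simp
  | succ n ih =>
    intro hn
    have h1 := ih (by omega)
    have e1 : a + 1 + (n + 1) = a + 1 + n + 1 := by ring
    have s1 := sum_Ico_succ_top (show a + 1 ≤ a + 1 + n + 1 by omega)
      (fun c => (H - 1 - e c) - (if c = a + 1 then 0 else H - e (c - 1)))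
    have s2 := sum_Ico_succ_top (show a + 1 ≤ a + 1 + n by omega)
      (fun c => if e c < H then 1 else 0)
    rw [e1, s1, s2]
    rw [if_neg (by omega : ¬ (a + 1 + n + 1 = a + 1)), Nat.add_sub_cancel]
    have h2 := E.dec (a + 1 + n) (by omega)
    generalize ∑ c ∈ Ico (a + 1) (a + 1 + n + 1),
      ((H - 1 - e c) - (if c = a + 1 then 0 else H - e (c - 1))) = X at *
    generalize ∑ c ∈ Ico (a + 1) (a + 1 + n), (if e c < H then 1 else 0) = Y at *
    split_ifs <;> omega

theorem card_W4 (E : Es M e) (hM : 1 ≤ M) (r : ℕ) :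
    sl M e + 2 * r + 4 * ae M e ≤ 2 * (W4 M e r).card + 2 * (M * bet M e) := by
  have H := arr_hh E hM r
  have h1 : (W4 M e r).card = ∑ a ∈ range M, ∑ p ∈ range (e a), ∑ c ∈ Ico (a + 1) (M + 1),
      ((hh e r a p - 1 - e c) - (if c = a + 1 then 0 else hh e r a p - e (c - 1))) := by
    unfold W4
    rw [card_sigma]
    apply sum_congr rfl
    intro a _
    rw [card_sigma]
    apply sum_congr rfl
    intro p _
    rw [card_sigma]
    apply sum_congr rfl
    intro c _
    rw [Nat.card_Ico]
  have h2 : ∀ a ∈ range M, ∀ p ∈ range (e a), hh e r a p ≤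
      ∑ c ∈ Ico (a + 1) (M + 1),
        ((hh e r a p - 1 - e c) - (if c = a + 1 then 0 else hh e r a p - e (c - 1))) + 1 +
      ∑ c ∈ Ico (a + 1) M, (if e c < hh e r a p then 1 else 0) := by
    intro a ha p hp
    rw [mem_range] at ha hp
    have h3 : 1 ≤ hh e r a p := by
      unfold hh
      omega
    have h4 := tele E a (hh e r a p) h3 (M - a - 1) (by omega)
    have h5 : a + 1 + (M - a - 1) = M := by omega
    rw [h5, E.z M le_rfl] at h4
    omega
  -- counting the pairs
  have h3 : ∀ a ∈ range M, ∑ p ∈ range (e a), ∑ c ∈ Ico (a + 1) M,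
      (if e c < hh e r a p then 1 else 0) = ∑ c ∈ Ico (a + 1) M, (e a - e c) := by
    intro a ha
    rw [sum_comm]
    apply sum_congr rfl
    intro c hc
    rw [mem_Ico] at hc
    rw [mem_range] at ha
    rw [← card_filter]
    have h4 := E.lt (a := a) (c := c) (by omega) ha
    have h5 : (range (e a)).filter (fun p => e c < hh e r a p) = range (e a - e c) := by
      ext p
      rw [mem_filter, mem_range, mem_range]
      by_cases h0 : a ≠ 0 ∨ p ≠ 0
      · rw [hh_ne e r h0]
        omega
      · have ha0 : a = 0 := by omega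
        have hp0 : p = 0 := by omega
        subst ha0
        subst hp0
        rw [hh_zero]
        omega
    rw [h5, card_range]
  have h4 : ∑ a ∈ range M, ∑ c ∈ Ico (a + 1) M, (e a - e c) + bet M e + 2 * ae M e =
      M * bet M e := by
    have key : ∀ n, n ≤ M → ∑ a ∈ range n, ∑ c ∈ Ico (a + 1) n, (e a - e c) + bet n e +
        2 * ae n e = n * bet n e := by
      intro n
      induction n with
      | zero => simp [bet, ae]
      | succ n ih =>
        intro hn
        have h5 := ih (by omega)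
        have h6 : ∑ a ∈ range (n + 1), ∑ c ∈ Ico (a + 1) (n + 1), (e a - e c) =
            ∑ a ∈ range n, ∑ c ∈ Ico (a + 1) n, (e a - e c) + ∑ a ∈ range n, (e a - e n) := by
          rw [sum_range_succ, Ico_self, sum_empty, add_zero, ← sum_add_distrib]
          apply sum_congr rfl
          intro a ha
          rw [mem_range] at ha
          rw [sum_Ico_succ_top (by omega)]
        have h7 : ∑ a ∈ range n, (e a - e n) + n * e n = bet n e := by
          have : n * e n = ∑ _a ∈ range n, e n := by
            rw [sum_const, card_range, smul_eq_mul]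
          rw [this, ← sum_add_distrib]
          unfold bet
          apply sum_congr rfl
          intro a ha
          rw [mem_range] at ha
          have := E.anti (a := a) (c := n) (by omega)
          omega
        have h8 : bet (n + 1) e = bet n e + e n := by
          unfold bet
          rw [sum_range_succ]
        have h9 : ae (n + 1) e = ae n e + n * e n := by
          unfold ae
          rw [sum_range_succ]
        rw [h6, h8, h9]
        have h10 : (n + 1) * (bet n e + e n) = n * bet n e + bet n e + n * e n + e n := by ring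
        omega
    exact key M le_rfl
  have h5 : ∑ a ∈ range M, ∑ p ∈ range (e a), hh e r a p ≤
      (W4 M e r).card + bet M e + ∑ a ∈ range M, ∑ c ∈ Ico (a + 1) M, (e a - e c) := by
    refine (sum_le_sum fun a ha => sum_le_sum fun p hp => h2 a ha p hp).trans ?_
    apply le_of_eq
    simp only [sum_add_distrib]
    rw [← h1, sum_congr rfl h3]
    simp [bet]
  have h6 : ∑ a ∈ range M, ∑ p ∈ range (e a), hh e r a p =
      ∑ a ∈ range M, ∑ j ∈ range (hh e r 0 0), hh e r a j := by
    apply sum_congr rfl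
    intro a ha
    rw [mem_range] at ha
    apply sum_subset
    · intro x hx
      rw [mem_range] at hx ⊢
      rw [hh_zero]
      have := E.anti (Nat.zero_le a)
      omega
    · intro x _ hx
      rw [mem_range, not_lt] at hx
      have := E.dec a ha
      rw [hh_ne e r (by omega)]
      omega
  have h7 := sum_hh E hM r
  rw [h6] at h5
  omega

end Pool.Agent.MP_74475a_ag.N3
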