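import Mathlib
import Pool.Agent.MP_74475a_ag.N3.Lower3

/-!
Three variables: the extremal ideals and their tangent dimension.
-/

namespace Pool.Agent.MP_74475a_ag.N3

open MvPolynomial Finset

theorem v3_add (a j t a' j' t' : ℕ) :
    v3 a j t + v3 a' j' t' = v3 (a + a') (j + j') (t + t') := by
  rw [eq_v3 (v3 a j t + v3 a' j' t')]
  simp [v3]

theorem single0 (c : ℕ) : (Finsupp.single 0 c : Fin 3 →₀ ℕ) = v3 c 0 0 := by simp [v3]
theorem single2 (c : ℕ) : (Finsupp.single 2 c : Fin 3 →₀ ℕ) = v3 0 0 c := by simp [v3]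

variable {M : ℕ} {h : ℕ → ℕ → ℕ} {e : ℕ → ℕ} {r : ℕ}

theorem mem_GG {x : Σ _ : ℕ, ℕ} : x ∈ GG M e ↔ x.1 ≤ M ∧ x.2 ≤ e x.1 := by
  unfold GG
  rw [mem_sigma, mem_range, mem_range]
  omega

theorem mem_ZZs {x : Σ _ : ℕ, ℕ} : x ∈ ZZs M e ↔ x.1 < M ∧ x.2 < e x.1 := by
  unfold ZZs
  rw [mem_sigma, mem_range, mem_range]

theorem mem_W4 {x : Σ _ : ℕ, Σ _ : ℕ, Σ _ : ℕ, ℕ} : x ∈ W4 M e r ↔
    x.1 < M ∧ x.2.1 < e x.1 ∧ x.1 < x.2.2.1 ∧ x.2.2.1 ≤ M ∧
      (x.2.2.1 = x.1 + 1 ∨ hh e r x.1 x.2.1 ≤ x.2.2.2 + e (x.2.2.1 - 1)) ∧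
      x.2.2.2 + e x.2.2.1 + 1 < hh e r x.1 x.2.1 := by
  obtain ⟨a, p, c, q⟩ := x
  unfold W4
  simp only [mem_sigma, mem_range, mem_Ico]
  split_ifs <;> omega

theorem hh_shift (E : Es M e) (hM : 1 ≤ M) (r a j k : ℕ) :
    hh e r a (j + k) ≤ hh e r a j - k := by
  induction k with
  | zero => simp
  | succ k ih =>
    have := (arr_hh E hM r).e2 a (j + k)
    rw [← add_assoc]
    omega

/-- minimal generators -/
theorem gen_min (E : Es M e) (hM : 1 ≤ M) {c k : ℕ} (hc : c ≤ M) (hk : k ≤ e c)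
    (g : Fin 3 →₀ ℕ) (i : Fin 3) (hg : g + Finsupp.single i 1 = v3 c k (hh e r c k)) :
    g ∈ SF M (hh e r 0 0) (hh e r) := by
  have H := arr_hh E hM r
  rw [eq_v3 g] at hg ⊢
  generalize g 0 = x at *
  generalize g 1 = y at *
  generalize g 2 = z at *
  rw [mem_SF' H]
  fin_cases i
  · change v3 x y z + Finsupp.single 0 1 = _ at hg
    rw [v3_add0] at hg
    obtain ⟨h1, h2, h3⟩ := v3_inj hg
    have h4 := E.dec x (by omega)
    rw [hh_ne e r (by omega), ← h1] at h3
    rw [← h1] at hk
    unfold hh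
    omega
  · change v3 x y z + Finsupp.single 1 1 = _ at hg
    rw [v3_add1] at hg
    obtain ⟨h1, h2, h3⟩ := v3_inj hg
    rw [hh_ne e r (by omega), ← h1] at h3
    rw [← h1] at hk
    unfold hh
    omega
  · change v3 x y z + Finsupp.single 2 1 = _ at hg
    rw [v3_add2] at hg
    obtain ⟨h1, h2, h3⟩ := v3_inj hg
    rw [h1, h2]
    omega

theorem hh_pos (e : ℕ → ℕ) (r : ℕ) {a k : ℕ} (hk : k < e a) : 1 ≤ hh e r a k := by
  unfold hh
  omega

/-- socle elements -/
theorem soc_top (E : Es M e) (hM : 1 ≤ M) {a k : ℕ} (hk : k < e a) (i : Fin 3) :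
    v3 a k (hh e r a k - 1) + Finsupp.single i 1 ∉ SF M (hh e r 0 0) (hh e r) := by
  have H := arr_hh E hM r
  have hp := hh_pos e r hk
  fin_cases i
  · change v3 a k (hh e r a k - 1) + Finsupp.single 0 1 ∉ _
    rw [v3_add0, mem_SF' H]
    have := H.m1 a k
    omega
  · change v3 a k (hh e r a k - 1) + Finsupp.single 1 1 ∉ _
    rw [v3_add1, mem_SF' H]
    have := H.e2 a k
    omega
  · change v3 a k (hh e r a k - 1) + Finsupp.single 2 1 ∉ _
    rw [v3_add2, mem_SF' H]
    omega

/-- the condition for the multiplication homomorphisms -/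
theorem mult_cond (E : Es M e) (hM : 1 ≤ M) {a p c q : ℕ} (hac : a < c)
    (hcond : c = a + 1 ∨ hh e r a p ≤ q + e (c - 1)) (w : Fin 3 →₀ ℕ) (hw : w 0 = 0)
    (hg : Finsupp.single 0 (c - 1) + w ∉ SF M (hh e r 0 0) (hh e r)) :
    v3 a p q + w ∉ SF M (hh e r 0 0) (hh e r) := by
  have H := arr_hh E hM r
  rw [eq_v3 w, hw] at hg ⊢
  generalize w 1 = j at *
  generalize w 2 = t at *
  rw [single0, v3_add, mem_SF' H] at hg
  rw [v3_add, mem_SF' H]
  simp only [add_zero, zero_add] at hg ⊢
  have h1 := hh_shift E hM r a p j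
  by_cases hc : c = a + 1
  · subst hc
    rw [Nat.add_sub_cancel] at hg
    have h2 := H.anti2 a (show j ≤ p + j by omega)
    omega
  · have h3 : hh e r a p ≤ q + e (c - 1) := by omega
    rw [hh_ne e r (by omega)] at hg
    omega

/-- the condition for powers of the last variable -/
theorem last_cond (E : Es M e) (hM : 1 ≤ M) (i : ℕ) (w : Fin 3 →₀ ℕ) (hw : w 2 = 0)
    (hg : Finsupp.single 2 (e 0 + r - 1) + w ∉ SF M (hh e r 0 0) (hh e r)) :
    v3 0 0 (e 0 - 1 + i) + w ∉ SF M (hh e r 0 0) (hh e r) := by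
  have H := arr_hh E hM r
  have h0 := E.dec 0 (by omega)
  rw [eq_v3 w, hw] at hg ⊢
  generalize w 0 = x at *
  generalize w 1 = y at *
  rw [single2, v3_add, mem_SF' H] at hg
  rw [v3_add, mem_SF' H]
  simp only [add_zero, zero_add] at hg ⊢
  by_cases hxy : x ≠ 0 ∨ y ≠ 0
  · rw [hh_ne e r hxy]
    rcases Nat.eq_zero_or_pos x with hx | hx
    · subst hx
      omega
    · have := E.lt (a := 0) (c := x) hx (by omega)
      omega
  · have hx : x = 0 := by omega
    have hy : y = 0 := by omega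
    subst hx
    subst hy
    rw [hh_zero] at hg
    omega

open Classical in
/-- the fourth family of homomorphisms -/
theorem rules_four (E : Es M e) (hM : 1 ≤ M) (i : ℕ) :
    Rules (SF M (hh e r 0 0) (hh e r) : Set (Fin 3 →₀ ℕ)) (fun g s =>
      if ∃ k, g = v3 0 1 (e 0 - 1 + k) ∧ s = v3 0 0 (e 0 - 1 + i + k) then 1 else 0) := by
  have H := arr_hh E hM r
  have h0 := E.dec 0 (by omega)
  have hnot1 : ∀ k, v3 0 1 (e 0 - 1 + i + k) ∉ SF M (hh e r 0 0) (hh e r) := by
    intro k
    rw [mem_SF' H, hh_ne e r (by omega)]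
    omega
  have hnot0 : ∀ k, v3 1 0 (e 0 - 1 + i + k) ∉ SF M (hh e r 0 0) (hh e r) := by
    intro k
    rw [mem_SF' H, hh_ne e r (by omega)]
    have : e 1 < e 0 := h0
    omega
  constructor
  · intro g s d hg hs
    rw [Finset.mem_coe] at hg hs
    rw [eq_v3 g, eq_v3 s] at *
    generalize g 0 = x at *
    generalize g 1 = y at *
    generalize g 2 = z at *
    generalize s 0 = x' at *
    generalize s 1 = y' at *
    generalize s 2 = z' at *
    congr 1
    apply propext
    fin_cases d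
    · change v3 x' y' z' + Finsupp.single 0 1 ∈ _ at hs
      change (∃ k, v3 x y z + Finsupp.single 0 1 = _ ∧ v3 x' y' z' + Finsupp.single 0 1 = _) ↔ _
      rw [v3_add0] at hs
      simp only [v3_add0]
      constructor
      · rintro ⟨k, h1, _⟩
        have := (v3_inj h1).1
        omega
      · rintro ⟨k, _, h2⟩
        exfalso
        obtain ⟨rfl, rfl, rfl⟩ := v3_inj h2
        exact hnot0 k hs
    · change v3 x' y' z' + Finsupp.single 1 1 ∈ _ at hs
      change (∃ k, v3 x y z + Finsupp.single 1 1 = _ ∧ v3 x' y' z' + Finsupp.single 1 1 = _) ↔ _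
      rw [v3_add1] at hs
      simp only [v3_add1]
      constructor
      · rintro ⟨k, _, h2⟩
        have := (v3_inj h2).2.1
        omega
      · rintro ⟨k, _, h2⟩
        exfalso
        obtain ⟨rfl, rfl, rfl⟩ := v3_inj h2
        exact hnot1 k hs
    · change v3 x' y' z' + Finsupp.single 2 1 ∈ _ at hs
      change (∃ k, v3 x y z + Finsupp.single 2 1 = _ ∧ v3 x' y' z' + Finsupp.single 2 1 = _) ↔ _
      rw [v3_add2] at hs
      simp only [v3_add2]
      constructor
      · rintro ⟨k, h1, h2⟩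
        obtain ⟨rfl, rfl, h3⟩ := v3_inj h1
        obtain ⟨rfl, rfl, h4⟩ := v3_inj h2
        rcases Nat.eq_zero_or_pos k with hk | hk
        · exfalso
          apply hg
          rw [mem_SF' H, hh_ne e r (by omega)]
          omega
        · refine ⟨k - 1, ?_, ?_⟩
          · congr 1
            omega
          · congr 1
            omega
      · rintro ⟨k, h1, h2⟩
        obtain ⟨rfl, rfl, rfl⟩ := v3_inj h1
        obtain ⟨rfl, rfl, rfl⟩ := v3_inj h2
        exact ⟨k + 1, rfl, rfl⟩
  · intro g s d hg hs hd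
    rw [Finset.mem_coe] at hg hs
    rw [if_neg]
    rintro ⟨k, h1, h2⟩
    rw [h2] at hs hd
    rw [eq_v3 g] at h1 hg
    generalize g 0 = x at *
    generalize g 1 = y at *
    generalize g 2 = z at *
    rw [mem_SF' H] at hg hs
    fin_cases d
    · change v3 x y z + Finsupp.single 0 1 = _ at h1
      rw [v3_add0] at h1
      have := (v3_inj h1).1
      omega
    · change v3 x y z + Finsupp.single 1 1 = _ at h1
      rw [v3_add1] at h1
      obtain ⟨rfl, h3, rfl⟩ := v3_inj h1
      have hy : y = 0 := by omega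
      subst hy
      rw [hh_zero] at hg hs
      omega
    · change v3 x y z + Finsupp.single 2 1 = _ at h1
      change v3 0 0 _ 2 = 0 at hd
      rw [v3_add2] at h1
      rw [v3_2] at hd
      have := (v3_inj h1).2.2
      omega

open Classical in
/-- existence of an ideal with large tangent dimension -/
theorem exists_ideal3 (E : Es M e) (hM : 1 ≤ M) {r l : ℕ} (hl : 2 * l = sl M e + 2 * r) :
    ∃ I : Ideal (Poly 3), BorelFixed I ∧ HasColength I l ∧ mOne I = M ∧
      l + vv M e + 2 * r ≤ tangentDim I := by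
  have H := arr_hh E hM r
  have he0 := E.dec 0 (by omega)
  set S := SF M (hh e r 0 0) (hh e r) with hSdef
  set I := idealOf (S : Set (Fin 3 →₀ ℕ)) (down_SF H) with hI
  have hmon : MonomialIdeal I := monomialIdeal_idealOf _ _
  have hB : BorelExch I := borelExch_idealOf _ _ (borel_SF H)
  have hS : (S : Set (Fin 3 →₀ ℕ)) = std I := (std_idealOf _ _).symm
  have hmem : ∀ a, a ∈ std I ↔ a ∈ S := by
    intro a
    rw [← hS]
    exact Finset.mem_coe
  have hcardS : S.card = l := by
    rw [hSdef, card_SF]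
    have := sum_hh E hM r
    omega
  refine ⟨I, borelFixed_of_comb hmon hB, (hasColength_iff hmon _).mpr ⟨S, hS, hcardS⟩, ?_, ?_⟩
  · -- `mOne`
    have h1 : ∀ t, t < mOne I ↔ t < M := by
      intro t
      rw [← single_mem_std_iff hS (by omega : 0 < 3) t, hmem, hSdef]
      have h2 : (Finsupp.single (⟨0, by omega⟩ : Fin 3) t : Fin 3 →₀ ℕ) = v3 t 0 0 := single0 t
      rw [h2, mem_SF' H]
      constructor
      · intro h3
        by_contra hcon
        rw [H.z t 0 (not_lt.mp hcon)] at h3
        omega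
      · intro h3
        exact H.p t h3
    have h2 := h1 (mOne I)
    have h3 := h1 M
    omega
  · -- tangent dimension
    have hfin : Module.Finite ℂ (I →ₗ[Poly 3] (Poly 3 ⧸ I)) :=
      (tangent_finite_and_le hmon S hS (u := 1) (v := 2) (n := 1) (by decide) (by
          intro i h1 h2
          fin_cases i
          · decide
          · exact absurd rfl h1
          · exact absurd rfl h2)).1
    let ι : Type := (GG M e × ZZs M e) ⊕ (W4 M e r ⊕ (Fin r ⊕ Fin r))
    let c : ι → (Fin 3 →₀ ℕ) → (Fin 3 →₀ ℕ) → ℂ := fun i =>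
      match i with
      | Sum.inl p => fun g s => if g = v3 p.1.1.1 p.1.1.2 (hh e r p.1.1.1 p.1.1.2) ∧
          s = v3 p.2.1.1 p.2.1.2 (hh e r p.2.1.1 p.2.1.2 - 1) then 1 else 0
      | Sum.inr (Sum.inl x) => fun g s =>
          if ∃ w, g = Finsupp.single 0 x.1.2.2.1 + w ∧ s = v3 x.1.1 x.1.2.1 x.1.2.2.2 + w
          then 1 else 0
      | Sum.inr (Sum.inr (Sum.inl i)) => fun g s =>
          if ∃ w, g = Finsupp.single 2 (e 0 + r) + w ∧ s = v3 0 0 (e 0 - 1 + i) + w
          then 1 else 0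
      | Sum.inr (Sum.inr (Sum.inr i)) => fun g s =>
          if ∃ k, g = v3 0 1 (e 0 - 1 + k) ∧ s = v3 0 0 (e 0 - 1 + i + k) then 1 else 0
    let gg : ι → (Fin 3 →₀ ℕ) := fun i =>
      match i with
      | Sum.inl p => v3 p.1.1.1 p.1.1.2 (hh e r p.1.1.1 p.1.1.2)
      | Sum.inr (Sum.inl x) => v3 x.1.2.2.1 0 (e x.1.2.2.1)
      | Sum.inr (Sum.inr (Sum.inl _)) => v3 0 0 (e 0 + r)
      | Sum.inr (Sum.inr (Sum.inr _)) => v3 0 1 (e 0 - 1)
    let ss : ι → (Fin 3 →₀ ℕ) := fun i =>
      match i with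
      | Sum.inl p => v3 p.2.1.1 p.2.1.2 (hh e r p.2.1.1 p.2.1.2 - 1)
      | Sum.inr (Sum.inl x) => v3 x.1.1 x.1.2.1 (x.1.2.2.2 + e x.1.2.2.1)
      | Sum.inr (Sum.inr (Sum.inl i)) => v3 0 0 (e 0 - 1 + i)
      | Sum.inr (Sum.inr (Sum.inr i)) => v3 0 0 (e 0 - 1 + i)
    let rk : ι → ℕ := fun i =>
      match i with
      | Sum.inl _ => M + 1
      | Sum.inr (Sum.inl x) => x.1.2.2.1
      | Sum.inr (Sum.inr _) => 0
    have hcard : l + vv M e + 2 * r ≤ Fintype.card ι := by
      have h1 : Fintype.card ι = (GG M e).card * (ZZs M e).card +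
          ((W4 M e r).card + (r + r)) := by
        simp [ι]
      rw [h1, card_GG E, card_ZZs]
      have h2 := card_W4 E hM r
      unfold vv
      have h3 : (bet M e + M + 1) * bet M e = bet M e * bet M e + M * bet M e + bet M e := by
        ring
      rw [h3]
      omega
    refine hcard.trans ?_
    refine le_tangentDim_tri hmon S hS hfin c ?_ gg ss ?_ ?_ rk ?_ ?_
    · -- rules
      rintro (p | x | i | i)
      · show Rules (std I) (c (Sum.inl p))
        have hp1 := mem_GG.mp p.1.2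
        have hp2 := mem_ZZs.mp p.2.2
        apply rules_indicator
        · intro g i hg
          rw [hmem]
          exact gen_min E hM hp1.1 hp1.2 g i hg
        · intro i
          rw [hmem]
          exact soc_top E hM hp2.2 i
      · show Rules (std I) (c (Sum.inr (Sum.inl x)))
        obtain ⟨_, _, hx3, _, hx5, _⟩ := mem_W4.mp x.2
        apply rules_mult (by omega)
        intro w hw hg
        rw [hmem] at hg ⊢
        exact mult_cond E hM hx3 hx5 w hw hg
      · show Rules (std I) (c (Sum.inr (Sum.inr (Sum.inl i))))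
        apply rules_mult (by omega)
        intro w hw hg
        rw [hmem] at hg ⊢
        exact last_cond E hM i w hw hg
      · show Rules (std I) (c (Sum.inr (Sum.inr (Sum.inr i))))
        rw [← hS]
        exact rules_four E hM i
    · rintro (p | x | i | i)
      · show gg (Sum.inl p) ∉ std I
        rw [hmem, hSdef]
        show v3 _ _ _ ∉ _
        rw [mem_SF' H]
        omega
      · obtain ⟨_, _, hx3, _, _, _⟩ := mem_W4.mp x.2
        show v3 x.1.2.2.1 0 (e x.1.2.2.1) ∉ std I
        rw [hmem, hSdef, mem_SF' H, hh_ne e r (by omega)]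
        omega
      · show v3 0 0 (e 0 + r) ∉ std I
        rw [hmem, hSdef, mem_SF' H, hh_zero]
        omega
      · show v3 0 1 (e 0 - 1) ∉ std I
        rw [hmem, hSdef, mem_SF' H, hh_ne e r (by omega)]
        omega
    · rintro (p | x | i | i)
      · have hp2 := mem_ZZs.mp p.2.2
        have := hh_pos e r hp2.2
        show v3 p.2.1.1 p.2.1.2 (hh e r p.2.1.1 p.2.1.2 - 1) ∈ std I
        rw [hmem, hSdef, mem_SF' H]
        omega
      · obtain ⟨_, _, _, _, _, hx6⟩ := mem_W4.mp x.2
        show v3 x.1.1 x.1.2.1 (x.1.2.2.2 + e x.1.2.2.1) ∈ std I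
        rw [hmem, hSdef, mem_SF' H]
        omega
      · show v3 0 0 (e 0 - 1 + i) ∈ std I
        have := i.isLt
        rw [hmem, hSdef, mem_SF' H, hh_zero]
        omega
      · show v3 0 0 (e 0 - 1 + i) ∈ std I
        have := i.isLt
        rw [hmem, hSdef, mem_SF' H, hh_zero]
        omega
    · rintro (p | x | i | i)
      · show (if _ ∧ _ then (1 : ℂ) else 0) = 1
        rw [if_pos ⟨rfl, rfl⟩]
      · show (if ∃ w, v3 x.1.2.2.1 0 (e x.1.2.2.1) = Finsupp.single 0 x.1.2.2.1 + w ∧
          v3 x.1.1 x.1.2.1 (x.1.2.2.2 + e x.1.2.2.1) = v3 x.1.1 x.1.2.1 x.1.2.2.2 + w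
          then (1 : ℂ) else 0) = 1
        rw [if_pos]
        refine ⟨v3 0 0 (e x.1.2.2.1), ?_, ?_⟩
        · rw [single0, v3_add]
          simp
        · rw [v3_add]
          simp
      · show (if ∃ w, v3 0 0 (e 0 + r) = Finsupp.single 2 (e 0 + r) + w ∧
          v3 0 0 (e 0 - 1 + i) = v3 0 0 (e 0 - 1 + i) + w then (1 : ℂ) else 0) = 1
        rw [if_pos]
        refine ⟨0, ?_, ?_⟩
        · rw [single2, add_zero]
        · rw [add_zero]
      · show (if ∃ k, v3 0 1 (e 0 - 1) = v3 0 1 (e 0 - 1 + k) ∧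
          v3 0 0 (e 0 - 1 + i) = v3 0 0 (e 0 - 1 + i + k) then (1 : ℂ) else 0) = 1
        rw [if_pos]
        exact ⟨0, rfl, rfl⟩
    · have hne : ∀ {P : Prop} [Decidable P], (if P then (1 : ℂ) else 0) ≠ 0 → P := by
        intro P _ hP
        by_contra hcon
        rw [if_neg hcon] at hP
        exact hP rfl
      rintro (p | x | i | i) (p' | x' | i' | i') hij hc
      · exfalso
        obtain ⟨h1, h2⟩ := hne hc
        obtain ⟨a1, a2, _⟩ := v3_inj h1
        obtain ⟨b1, b2, _⟩ := v3_inj h2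
        apply hij
        congr 1
        apply Prod.ext
        · exact Subtype.ext (Sigma.ext a1.symm (heq_of_eq a2.symm))
        · exact Subtype.ext (Sigma.ext b1.symm (heq_of_eq b2.symm))
      · exfalso
        obtain ⟨_, h2⟩ := hne hc
        obtain ⟨b1, b2, b3⟩ := v3_inj h2
        obtain ⟨_, _, _, _, _, hx6⟩ := mem_W4.mp x'.2
        rw [← b1, ← b2] at b3
        omega
      · exfalso
        obtain ⟨_, h2⟩ := hne hc
        obtain ⟨b1, b2, b3⟩ := v3_inj h2
        rw [← b1, ← b2, hh_zero] at b3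
        have := i'.isLt
        omega
      · exfalso
        obtain ⟨_, h2⟩ := hne hc
        obtain ⟨b1, b2, b3⟩ := v3_inj h2
        rw [← b1, ← b2, hh_zero] at b3
        have := i'.isLt
        omega
      · obtain ⟨_, _, _, hx4, _, _⟩ := mem_W4.mp x.2
        show x.1.2.2.1 < M + 1
        omega
      · show x.1.2.2.1 < x'.1.2.2.1
        obtain ⟨w, h1, h2⟩ := hne hc
        rw [single0, eq_v3 w, v3_add] at h1
        rw [eq_v3 w, v3_add] at h2
        obtain ⟨a1, a2, a3⟩ := v3_inj h1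
        obtain ⟨b1, b2, b3⟩ := v3_inj h2
        rcases Nat.lt_or_ge x.1.2.2.1 x'.1.2.2.1 with hlt | hge
        · exact hlt
        · exfalso
          apply hij
          have e3 : x.1.2.2.1 = x'.1.2.2.1 := by omega
          have e1 : x.1.1 = x'.1.1 := by omega
          have e2 : x.1.2.1 = x'.1.2.1 := by omega
          have e4 : x.1.2.2.2 = x'.1.2.2.2 := by omega
          congr 2
          apply Subtype.ext
          obtain ⟨⟨y1, y2, y3, y4⟩, _⟩ := x
          obtain ⟨⟨z1, z2, z3, z4⟩, _⟩ := x'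
          simp only at e1 e2 e3 e4
          subst e1
          subst e2
          subst e3
          subst e4
          rfl
      · exfalso
        obtain ⟨_, _, hx3, _, _, _⟩ := mem_W4.mp x.2
        obtain ⟨w, h1, _⟩ := hne hc
        rw [single0, eq_v3 w, v3_add] at h1
        have := (v3_inj h1).1
        omega
      · exfalso
        obtain ⟨_, _, hx3, _, _, _⟩ := mem_W4.mp x.2
        obtain ⟨w, h1, _⟩ := hne hc
        rw [single0, eq_v3 w, v3_add] at h1
        have := (v3_inj h1).1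
        omega
      · exfalso
        obtain ⟨w, h1, h2⟩ := hne hc
        have hp1 := mem_GG.mp p'.1.2
        rw [single2, eq_v3 w, v3_add] at h1
        rw [eq_v3 w, v3_add] at h2
        obtain ⟨a1, a2, a3⟩ := v3_inj h1
        obtain ⟨b1, b2, b3⟩ := v3_inj h2
        have hi := i.isLt
        by_cases hx : p'.1.1.1 ≠ 0 ∨ p'.1.1.2 ≠ 0
        · rw [hh_ne e r hx] at a3
          have := E.anti (Nat.zero_le p'.1.1.1)
          omega
        · have hx1 : p'.1.1.1 = 0 := by omega
          have hx2 : p'.1.1.2 = 0 := by omega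
          rw [hx1, hx2, hh_zero] at a3
          have hy1 : p'.2.1.1 = 0 := by omega
          have hy2 : p'.2.1.2 = 0 := by omega
          rw [hy1, hy2, hh_zero] at b3
          omega
      · exfalso
        obtain ⟨_, _, hx3, _, _, _⟩ := mem_W4.mp x'.2
        obtain ⟨w, h1, _⟩ := hne hc
        rw [single2, eq_v3 w, v3_add] at h1
        have h2 := (v3_inj h1).2.2
        have h3 := E.lt (a := 0) (c := x'.1.2.2.1) (by omega) (by omega)
        omega
      · exfalso
        obtain ⟨w, h1, h2⟩ := hne hc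
        rw [single2, eq_v3 w, v3_add] at h1
        rw [eq_v3 w, v3_add] at h2
        obtain ⟨a1, a2, a3⟩ := v3_inj h1
        obtain ⟨b1, b2, b3⟩ := v3_inj h2
        apply hij
        have : i = i' := Fin.ext (by omega)
        rw [this]
      · exfalso
        obtain ⟨w, h1, _⟩ := hne hc
        rw [single2, eq_v3 w, v3_add] at h1
        have := (v3_inj h1).2.2
        omega
      · exfalso
        obtain ⟨k, h1, h2⟩ := hne hc
        obtain ⟨a1, a2, a3⟩ := v3_inj h1
        obtain ⟨b1, b2, b3⟩ := v3_inj h2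
        rw [a1, a2, hh_ne e r (by omega)] at a3
        rw [b1, b2, hh_zero] at b3
        have := i.isLt
        omega
      · exfalso
        obtain ⟨_, _, hx3, _, _, _⟩ := mem_W4.mp x'.2
        obtain ⟨k, h1, _⟩ := hne hc
        have := (v3_inj h1).1
        omega
      · exfalso
        obtain ⟨k, h1, _⟩ := hne hc
        have := (v3_inj h1).2.1
        omega
      · exfalso
        obtain ⟨k, h1, h2⟩ := hne hc
        have a3 := (v3_inj h1).2.2
        have b3 := (v3_inj h2).2.2
        apply hij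
        have : i = i' := Fin.ext (by omega)
        rw [this]

end Pool.Agent.MP_74475a_ag.N3
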