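import Mathlib
import Pool.Agent.MP_74475a_ag.N3.Better
import Pool.Agent.MP_74475a_ag.N3.Ideal3
import Pool.Agent.MP_74475a_ag.Main

/-!
Three variables: monotonicity of the maximal tangent dimension in the smallest pure exponent.
-/

namespace Pool.Agent.MP_74475a_ag.N3

open MvPolynomial Finset

/-- one step: an ideal with one more level and larger tangent dimension -/
theorem step {m l : ℕ} (hm : 1 ≤ m) (hst : sl (m + 1) (fun a => m + 1 - a) ≤ 2 * l)
    {I : Ideal (Poly 3)} (hB : BorelFixed I) (hl : HasColength I l) (hmI : mOne I = m) :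
    ∃ J : Ideal (Poly 3), BorelFixed J ∧ HasColength J l ∧ mOne J = m + 1 ∧
      tangentDim I < tangentDim J := by
  obtain ⟨h, H, hiff, hsum⟩ := exists_arr hB hl
  rw [hmI] at H hsum
  have h1 := tangent_le_phi (monomialIdeal_of_borelFixed hB) H hiff
  obtain ⟨e, r, he1, he2, he3, he4⟩ := better H hm hsum hst
  obtain ⟨e', he'⟩ : ∃ e' : ℕ → ℕ, e' = fun a => if a < m + 1 then e a else 0 := ⟨_, rfl⟩
  have hcongr : ∀ a, a < m + 1 → e a = e' a := by
    intro a ha
    rw [he']
    simp only
    rw [if_pos ha]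
  have E : Es (m + 1) e' := by
    constructor
    · intro a ha
      rw [he']
      simp only
      rw [if_pos ha]
      split_ifs with h2
      · exact he1 a (by omega)
      · have : a = m := by omega
        rw [this]
        exact he2
    · intro a ha
      rw [he']
      simp only
      rw [if_neg (by omega)]
  rw [sl_congr hcongr] at he3
  rw [vv_congr hcongr] at he4
  obtain ⟨J, hJ1, hJ2, hJ3, hJ4⟩ := exists_ideal3 E (by omega) he3
  refine ⟨J, hJ1, hJ2, hJ3, ?_⟩
  have h2 : vv m (bb h) + 2 * ∑ a ∈ range m, ∑ j ∈ range (h 0 0), eps h a j * WW m h a j <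
      vv (m + 1) e' + 2 * r := by
    exact_mod_cast he4
  rw [← hsum] at h1
  omega

/-- the number of monomials forced by the smallest exponent -/
theorem stair_le {m l : ℕ} {I : Ideal (Poly 3)} (hB : BorelFixed I) (hl : HasColength I l)
    (hmI : mOne I = m) : sl m (fun a => m - a) ≤ 2 * l := by
  obtain ⟨h, H, hiff, hsum⟩ := exists_arr hB hl
  rw [hmI] at H hsum
  have h1 := two_colength H
  rw [← hsum] at h1
  have h2 : sl m (fun a => m - a) ≤ sl m (bb h) := by
    unfold sl
    apply sum_le_sum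
    intro a _
    have := H.bb_ge a
    show (m - a) * (m - a + 1) ≤ bb h a * (bb h a + 1)
    exact Nat.mul_le_mul this (by omega)
  omega

theorem stair_mono {m m' : ℕ} (h : m ≤ m') :
    sl m (fun a => m - a) ≤ sl m' (fun a => m' - a) := by
  refine (sl_stair_mono (m := m) h).trans ?_
  unfold sl
  exact sum_le_sum_of_subset (range_subset_range.mpr h)

theorem stair_choose (m : ℕ) : sl m (fun a => m - a) = 2 * (m + 2).choose 3 := by
  induction m with
  | zero => simp [sl]
  | succ m ih =>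
    have h1 : sl (m + 1) (fun a => m + 1 - a) = sl m (fun a => m - a) + (m + 1) * (m + 2) := by
      unfold sl
      rw [sum_range_succ']
      congr 1
      · apply sum_congr rfl
        intro a _
        have : m + 1 - (a + 1) = m - a := by omega
        simp only [this]
    have h2 : (m + 1 + 2).choose 3 = (m + 2).choose 2 + (m + 2).choose 3 := by
      have : m + 1 + 2 = (m + 2) + 1 := by ring
      rw [this, Nat.choose_succ_succ']
    have h3 : 2 * (m + 2).choose 2 = (m + 1) * (m + 2) := by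
      rw [Nat.choose_two_right]
      have h4 : m + 2 - 1 = m + 1 := by omega
      rw [h4, mul_comm (m + 2)]
      exact Nat.mul_div_cancel' (Nat.even_mul_succ_self (m + 1)).two_dvd
    rw [h1, ih, h2]
    omega

theorem pos_level {m l : ℕ} {I : Ideal (Poly 3)} (hB : BorelFixed I) (hl : HasColength I l)
    (hmI : mOne I = m) (hl0 : 1 ≤ l) : 1 ≤ m := by
  obtain ⟨h, H, hiff, hsum⟩ := exists_arr hB hl
  rw [hmI] at H hsum
  rcases Nat.eq_zero_or_pos m with h0 | h0
  · subst h0
    simp at hsum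
    omega
  · exact h0

/-- monotonicity for one step -/
theorem step_TMax {m l : ℕ} (hm : 1 ≤ m) (hst : sl (m + 1) (fun a => m + 1 - a) ≤ 2 * l)
    (hne : (TSet 3 m l).Nonempty) :
    (TSet 3 (m + 1) l).Nonempty ∧ TMax 3 m l < TMax 3 (m + 1) l := by
  obtain ⟨⟨I, hI1, hI2, hI3, hI4⟩, _⟩ := isGreatest_TMax (by omega) hne
  obtain ⟨J, hJ1, hJ2, hJ3, hJ4⟩ := step hm hst hI1 hI2 hI3
  have hmem : tangentDim J ∈ TSet 3 (m + 1) l := ⟨J, hJ1, hJ2, hJ3, rfl⟩
  refine ⟨⟨_, hmem⟩, ?_⟩
  have := (isGreatest_TMax (by omega) ⟨_, hmem⟩).2 hmem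
  omega

theorem mono_TMax {m l : ℕ} (hm : 1 ≤ m) (hne : (TSet 3 m l).Nonempty) :
    ∀ k, sl (m + 1 + k) (fun a => m + 1 + k - a) ≤ 2 * l →
      (TSet 3 (m + 1 + k) l).Nonempty ∧ TMax 3 m l < TMax 3 (m + 1 + k) l := by
  intro k
  induction k with
  | zero =>
    intro hst
    exact step_TMax hm hst hne
  | succ k ih =>
    intro hst
    have h1 := ih ((stair_mono (show m + 1 + k ≤ m + 1 + (k + 1) by omega)).trans hst)
    have h2 := step_TMax (m := m + 1 + k) (by omega) hst h1.1
    exact ⟨h2.1, h1.2.trans h2.2⟩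

/-- full monotonicity in three variables -/
theorem monotone3 {l m m' : ℕ} (hmm : m < m') (h1 : (TSet 3 m l).Nonempty)
    (h2 : (TSet 3 m' l).Nonempty) : TMax 3 m l < TMax 3 m' l := by
  obtain ⟨_, I, hI1, hI2, hI3, _⟩ := h1
  obtain ⟨_, J, hJ1, hJ2, hJ3, _⟩ := h2
  have hst := stair_le hJ1 hJ2 hJ3
  have hl : 1 ≤ l := by
    rw [stair_choose] at hst
    have : 0 < (m' + 2).choose 3 := Nat.choose_pos (by omega)
    omega
  have hm := pos_level hI1 hI2 hI3 hl
  obtain ⟨k, rfl⟩ := Nat.exists_eq_add_of_le (show m + 1 ≤ m' by omega)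
  exact (mono_TMax hm ⟨_, I, hI1, hI2, hI3, rfl⟩ k hst).2

/-- the smallest exponent of an extremal ideal -/
theorem extremal3 {k l : ℕ} (h1 : (k + 2).choose 3 ≤ l) (h2 : l < (k + 3).choose 3)
    {I : Ideal (Poly 3)} (hB : BorelFixed I) (hl : HasColength I l)
    (hmax : ∀ J : Ideal (Poly 3), BorelFixed J → HasColength J l →
      tangentDim J ≤ tangentDim I) : mOne I = k := by
  obtain ⟨m, hm⟩ : ∃ m, mOne I = m := ⟨_, rfl⟩
  rw [hm]
  have hst := stair_le hB hl hm
  have hmk : m ≤ k := by
    by_contra hcon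
    have := stair_mono (show k + 1 ≤ m by omega)
    rw [stair_choose] at this
    have h3 : k + 1 + 2 = k + 3 := by ring
    rw [h3] at this
    omega
  by_contra hne
  have hmk' : m + 1 ≤ k := by omega
  have h3 : 1 ≤ l := by
    have : 0 < (k + 2).choose 3 := Nat.choose_pos (by omega)
    omega
  have h4 := pos_level hB hl hm h3
  have h5 : sl (m + 1) (fun a => m + 1 - a) ≤ 2 * l := by
    refine (stair_mono hmk').trans ?_
    rw [stair_choose]
    omega
  obtain ⟨J, hJ1, hJ2, _, hJ4⟩ := step h4 h5 hB hl hm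
  have := hmax J hJ1 hJ2
  omega

end Pool.Agent.MP_74475a_ag.N3
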